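import Pool.Agent.MJF.TIIc

/-!
The insertion of a mark commutes with the insertions of arcs and with the cycles `1^k`.
-/

namespace Pool.Agent.MJF

open MvPolynomial Pool.Agent.MJR

noncomputable section

variable {K : Type} [Field K]

theorem pre_app (L L' : List Bool) (x : RW K) : pre L (app L' x) = app L' (pre L x) := by
  induction x using Finsupp.induction_linear with
  | zero => simp
  | add p q hp hq => simp only [map_add, hp, hq]
  | single X f => rw [single_eq, app_smul, map_smul, map_smul, app_smul, app_rw1, pre_rw1, pre_rw1,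
      app_rw1, List.append_assoc]

theorem tch_app_zs (al : K) (c : ℕ) (L : List Bool) :
    tch al true (L ++ zs c) = app (zs c) (tch al true L) := by
  induction c with
  | zero =>
    have h : ∀ x : RW K, app [] x = x := by
      intro x
      induction x using Finsupp.induction_linear with
      | zero => simp
      | add p q hp hq => simp only [map_add, hp, hq]
      | single L f => rw [app_single, List.append_nil]
    change tch al true (L ++ []) = app [] _
    rw [List.append_nil, h]
  | succ c ih =>
    have e : L ++ zs (c + 1) = (L ++ zs c) ++ [false] := by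
      rw [← zs_snoc, List.append_assoc]
    rw [e, tch_snoc_ne al (by simp), ih, app_app, zs_snoc]

/-- `[T_2, d_c]` on lists -/
theorem T2_dl (al : K) (c : ℕ) (L : List Bool) :
    T al true (dl K c L) = dR K c (tch al true L) + pre (zs c ++ [true]) (tch al true L) := by
  induction L using List.reverseRecOn with
  | nil =>
    rw [dl_nil, map_zero]
    change 0 = dR K c 0 + pre (zs c ++ [true]) 0
    rw [map_zero, map_zero, add_zero]
  | append_singleton L l ih =>
    cases l with
    | false =>
      rw [dl_snoc_false, T_app_ne al (by simp), ih, tch_snoc_ne al (by simp), dR_app, dl_false,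
        map_zero, add_zero, map_add, pre_app]
    | true =>
      have e : L ++ true :: (zs c ++ [true]) = (L ++ [true] ++ zs c) ++ [true] := by simp
      have e2 : (L ++ [true] ++ zs c).reverse ++ [true] =
          zs c ++ [true] ++ (L.reverse ++ [true]) := by simp
      have e3 : dlc K c (L ++ [true]) = clw K (app [true] (dl K c L)) +
          cy K (L ++ [true] ++ zs c ++ [true]) := by
        rw [← clw_dl, dl_snoc_true, map_add, clw_rw1, e]
      have e4 : dl K c (L.reverse ++ [true]) = app [true] (rvw K (dl K c L)) +
          rw1 K (L.reverse ++ true :: (zs c ++ [true])) := by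
        rw [dl_snoc_true, dl_reverse]
      rw [dl_snoc_true, map_add, T_app_self, ih, T_rw1, e, tch_snoc_self, tch_app_zs,
        tch_snoc_self, e2]
      simp only [map_add, dR_smul, dR_app, dR_rw1, dC_cy, dl_nil, dC_bC, dl_true, cat_rw1,
        map_smul, app_smul, app_rw1, pre_rw1, app_app, pre_app, smul_zero, zero_smul, zero_add,
        add_zero, e3, e4, add_smul, smul_add, List.nil_append, List.append_nil]
      have e5 : [true] ++ zs c ++ [true] = true :: (List.replicate c false ++ [true]) := rfl
      have e6 : L.reverse ++ [true] ++ (zs c ++ [true]) = L.reverse ++ true :: (zs c ++ [true]) := by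
        simp
      simp only [List.append_assoc, List.cons_append, List.nil_append]
      abel

/-! ### Openings at the marks -/

/-- `Z ↦ Z 2 + b Z^r 2` -/
def Om2 (al : K) : RW K →ₗ[CW K] RW K :=
  app [true] + bC al • (app [true] ∘ₗ rvw K)

theorem Om2_rw1 (al : K) (Z : List Bool) :
    Om2 al (rw1 K Z) = rw1 K (Z ++ [true]) + bC al • rw1 K (Z.reverse ++ [true]) := by
  change app [true] (rw1 K Z) + bC al • app [true] (rvw K (rw1 K Z)) = _
  rw [app_rw1, rvw_rw1, app_rw1]

theorem Om2_apply (al : K) (x : RW K) :
    Om2 al x = app [true] x + bC al • app [true] (rvw K x) := rfl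

theorem Om2_dR (al : K) (a : ℕ) (x : RW K) :
    dR K a (Om2 al x) = Om2 al (dR K a x) + app (zs a ++ [true]) (Om2 al x) := by
  simp only [Om2_apply, map_add, dR_smul, dR_app, dl_true, cat_rw1, dC_bC, zero_smul, add_zero,
    rvw_dR, app_smul, app_app, smul_add]
  have e5 : [true] ++ (zs a ++ [true]) = true :: (List.replicate a false ++ [true]) := rfl
  rw [e5]
  abel

theorem opn_Om2 (al : K) (L : List Bool) : opn al true L =
    spl (fun X x Y => if x = true then Om2 al (rw1 K (Y ++ X)) else 0) L := by
  unfold opn
  apply spl_congr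
  intro X x Y
  rw [Om2_rw1]

theorem opn2_ins (al : K) (a : ℕ) (X Y : List Bool) :
    opn al true (X ++ true :: (zs a ++ true :: Y)) =
    spl (fun X1 x1 Y1 => if x1 = true then
      Om2 al (rw1 K (Y1 ++ true :: (zs a ++ true :: Y) ++ X1)) else 0) X +
    ((Om2 al (rw1 K (zs a ++ true :: (Y ++ X))) + Om2 al (rw1 K (Y ++ X ++ true :: zs a))) +
    spl (fun X1 x1 Y1 => if x1 = true then
      Om2 al (rw1 K (Y1 ++ (X ++ true :: (zs a ++ true :: X1)))) else 0) Y) := by
  rw [opn_Om2, spl_append]
  refine congrArg₂ (· + ·) rfl ?_
  rw [spl_cons, if_pos rfl, spl_append, spl_replicate]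
  have h : ∀ i ∈ Finset.range a, (if false = true then
      Om2 al (rw1 K (List.replicate (a - 1 - i) false ++ true :: Y ++
        (X ++ true :: List.replicate i false))) else 0) = 0 := fun i _ => if_neg (by simp)
  rw [Finset.sum_eq_zero h, zero_add, spl_cons, if_pos rfl, add_assoc]
  have e1 : zs a ++ true :: Y ++ (X ++ []) = zs a ++ true :: (Y ++ X) := by simp
  have e2 : Y ++ (X ++ true :: (zs a ++ [])) = Y ++ X ++ true :: zs a := by simp
  refine congrArg₂ (· + ·) (congrArg (fun Z => Om2 al (rw1 K Z)) e1)
    (congrArg₂ (· + ·) (congrArg (fun Z => Om2 al (rw1 K Z)) e2) rfl)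

theorem Om2_two (al : K) (a : ℕ) (Z : List Bool) :
    Om2 al (rw1 K (zs a ++ true :: Z)) + Om2 al (rw1 K (Z ++ true :: zs a)) =
      app (zs a ++ [true]) (Om2 al (rw1 K Z)) + pre (zs a ++ [true]) (Om2 al (rw1 K Z)) := by
  simp only [Om2_rw1, map_add, map_smul, app_rw1, pre_rw1, List.reverse_append, List.reverse_cons,
    List.reverse_replicate, List.append_assoc, List.cons_append, List.nil_append]
  abel

/-- `[J_2, d_c]` on cycles -/
theorem J2_dlc (al : K) (a : ℕ) (L : List Bool) :
    J al true (dlc K a L) = dR K a (opn al true L) + pre (zs a ++ [true]) (opn al true L) := by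
  have h1 : J al true (dlc K a L) = spl (fun X x Y => if x = true then
      opn al true (X ++ true :: (zs a ++ true :: Y)) else 0) L := by
    unfold dlc
    have h := spl_ite_hom (J al true : CW K →ₗ[K] RW K).toAddMonoidHom true
      (fun X Y => cy K (X ++ true :: (List.replicate a false ++ true :: Y))) L
    refine Eq.trans h ?_
    apply spl_congr
    intro X x Y
    change (if x = true then J al true _ else 0) = _
    rw [J_cy]
  have h2 : dR K a (opn al true L) = spl (fun X x Y => if x = true then
      Om2 al (dl K a (Y ++ X)) + app (zs a ++ [true]) (Om2 al (rw1 K (Y ++ X))) else 0) L := by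
    rw [opn_Om2]
    have h := spl_ite_hom (dR K a : RW K →ₗ[K] RW K).toAddMonoidHom true
      (fun X Y => Om2 al (rw1 K (Y ++ X))) L
    refine Eq.trans h ?_
    apply spl_congr
    intro X x Y
    change (if x = true then dR K a _ else 0) = _
    rw [Om2_dR, dR_rw1]
  have h2' : pre (zs a ++ [true]) (opn al true L) = spl (fun X x Y => if x = true then
      pre (zs a ++ [true]) (Om2 al (rw1 K (Y ++ X))) else 0) L := by
    rw [opn_Om2]
    exact spl_ite_hom (pre (zs a ++ [true]) : RW K →ₗ[CW K] RW K).toAddMonoidHom true
      (fun X Y => Om2 al (rw1 K (Y ++ X))) L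
  have h3 : ∀ X Y : List Bool, Om2 al (dl K a (Y ++ X)) =
      spl (fun X1 x1 Y1 => if x1 = true then
        Om2 al (rw1 K (X1 ++ true :: (zs a ++ true :: Y1) ++ X)) else 0) Y +
      spl (fun X1 x1 Y1 => if x1 = true then
        Om2 al (rw1 K (Y ++ (X1 ++ true :: (zs a ++ true :: Y1)))) else 0) X := by
    intro X Y
    rw [dl_append, map_add]
    congr 1
    · have h := spl_ite_hom (Om2 al ∘ₗ app X : RW K →ₗ[CW K] RW K).toAddMonoidHom true
        (fun X1 Y1 => rw1 K (X1 ++ true :: (List.replicate a false ++ true :: Y1))) Y
      refine Eq.trans h ?_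
      apply spl_congr
      intro X1 x Y1
      change (if x = true then Om2 al (app X _) else 0) = _
      rw [app_rw1]
    · have h := spl_ite_hom (Om2 al ∘ₗ pre Y : RW K →ₗ[CW K] RW K).toAddMonoidHom true
        (fun X1 Y1 => rw1 K (X1 ++ true :: (List.replicate a false ++ true :: Y1))) X
      refine Eq.trans h ?_
      apply spl_congr
      intro X1 x Y1
      change (if x = true then Om2 al (pre Y _) else 0) = _
      rw [pre_rw1]
  have e1 := spl2 true true (fun P Q S : List Bool =>
    Om2 al (rw1 K (Q ++ true :: (zs a ++ true :: S) ++ P))) L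
  have e2 := spl2 true true (fun P Q S : List Bool =>
    Om2 al (rw1 K (S ++ (P ++ true :: (zs a ++ true :: Q))))) L
  have h4 : spl (fun X x Y => if x = true then
      opn al true (X ++ true :: (zs a ++ true :: Y)) else 0) L =
      spl (fun X x Y => if x = true then spl (fun X1 x1 Y1 => if x1 = true then
      Om2 al (rw1 K (Y1 ++ true :: (zs a ++ true :: Y) ++ X1)) else 0) X else 0) L +
      ((spl (fun X x Y => if x = true then app (zs a ++ [true]) (Om2 al (rw1 K (Y ++ X)))
        else 0) L +
      spl (fun X x Y => if x = true then pre (zs a ++ [true]) (Om2 al (rw1 K (Y ++ X)))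
        else 0) L) +
      spl (fun X x Y => if x = true then spl (fun X1 x1 Y1 => if x1 = true then
      Om2 al (rw1 K (Y1 ++ (X ++ true :: (zs a ++ true :: X1)))) else 0) Y else 0) L) := by
    rw [← spl_add, ← spl_add, ← spl_add]
    apply spl_congr
    intro X x Y
    split_ifs
    · rw [opn2_ins, Om2_two]
    · simp
  have h5 : spl (fun X x Y => if x = true then
      Om2 al (dl K a (Y ++ X)) + app (zs a ++ [true]) (Om2 al (rw1 K (Y ++ X))) else 0) L =
      spl (fun X x Y => if x = true then spl (fun X1 x1 Y1 => if x1 = true then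
        Om2 al (rw1 K (X1 ++ true :: (zs a ++ true :: Y1) ++ X)) else 0) Y else 0) L +
      spl (fun X x Y => if x = true then spl (fun X1 x1 Y1 => if x1 = true then
        Om2 al (rw1 K (Y ++ (X1 ++ true :: (zs a ++ true :: Y1)))) else 0) X else 0) L +
      spl (fun X x Y => if x = true then app (zs a ++ [true]) (Om2 al (rw1 K (Y ++ X)))
        else 0) L := by
    rw [← spl_add, ← spl_add]
    apply spl_congr
    intro X x Y
    split_ifs
    · rw [h3 X Y]
    · simp
  rw [h1, h2, h2', h4, h5, e1, e2]
  abel

theorem J2_dC (al : K) (a : ℕ) (f : CW K) :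
    J al true (dC K a f) = dR K a (J al true f) + pre (zs a ++ [true]) (J al true f) := by
  induction f using cw_induction with
  | hC x =>
    have h1 : dC K a (C x) = 0 := derivation_C _ _
    have h2 : J al true (C x) = 0 := derivation_C _ _
    rw [h1, h2, map_zero, map_zero, map_zero, add_zero]
  | hadd f g hf hg =>
    simp only [map_add, hf, hg]
    abel
  | hX f L hf =>
    simp only [Derivation.leibniz, dC_cy, smul_eq_mul, map_add, hf, J_cy, J2_dlc, dR_smul,
      smul_add, map_smul]
    abel

theorem cat_pre (L : List Bool) (y x : RW K) : cat (pre L y) x = pre L (cat y x) := by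
  induction x using Finsupp.induction_linear with
  | zero => simp
  | add p q hp hq => simp only [map_add, hp, hq]
  | single X f => rw [single_eq, map_smul, cat_rw1, map_smul, cat_rw1, map_smul, pre_app]

theorem T2_dR (al : K) (a : ℕ) (x : RW K) :
    T al true (dR K a x) = dR K a (T al true x) + pre (zs a ++ [true]) (T al true x) := by
  induction x using Finsupp.induction_linear with
  | zero => simp
  | add p q hp hq =>
    simp only [map_add, hp, hq]
    abel
  | single L f =>
    rw [single_eq]
    simp only [dR_smul, T_smul, map_add, dR_rw1, T_rw1, T2_dl, dR_cat, J2_dC,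
      cat_add, smul_add, cat_pre, map_smul]
    abel

theorem opn2_arc (al : K) (a : ℕ) : opn al true (arc a) = (C al : CW K) • rw1 K (zs a ++ [true]) := by
  rw [opn_Om2]
  unfold arc
  rw [spl_cons, if_pos rfl, spl_replicate]
  have h : ∀ i ∈ Finset.range a, (if false = true then
      Om2 al (rw1 K (List.replicate (a - 1 - i) false ++ true :: List.replicate i false))
      else 0) = 0 := fun i _ => if_neg (by simp)
  rw [Finset.sum_eq_zero h, add_zero, List.append_nil, Om2_rw1, List.reverse_replicate]
  have e : (C al : CW K) = 1 + bC al := by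
    unfold bC
    rw [map_sub, map_one]
    ring
  rw [e, add_smul, one_smul]

theorem opn2_zs (al : K) (k : ℕ) : opn al true (zs k) = 0 := by
  unfold opn
  rw [spl_replicate]
  exact Finset.sum_eq_zero fun i _ => if_neg (by simp)

theorem aP (K : Type) [Field K] : St_Ap K := by
  intro al k x
  rw [T_smul, J_cy]
  change cy K (zs k) • T al true x + cat (opn al true (zs k)) x = _
  rw [opn2_zs, cat_zero, add_zero]

theorem T2_IR (al tau u2 : K) (c : ℕ) (x : RW K) (h : tau * u2 = al) :
    u2 • IR tau c x + T al true (IR tau c x) = IR tau c (u2 • x + T al true x) +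
      tau • pre (zs c ++ [true]) (u2 • x + T al true x) := by
  have h1 : T al true (tau • dR K c x) = tau • T al true (dR K c x) := map_smul _ _ _
  have h2 : cat (rw1 K (zs c ++ [true])) x = pre (zs c ++ [true]) x := cat_rw1_left _ _
  have h3 : ∀ y : RW K, (C al : CW K) • y = al • y := by
    intro y
    rw [← algebraMap_smul (CW K) al y]
    rfl
  have h4 : pre (zs c ++ [true]) (u2 • x) = u2 • pre (zs c ++ [true]) x :=
    LinearMap.map_smul_of_tower _ _ _
  have h5 : IR tau c (u2 • x) = u2 • IR tau c x := map_smul _ _ _
  rw [map_add (IR tau c), map_add (pre _), h5, IR_apply tau c x, IR_apply tau c (T al true x),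
    map_add, T_smul, J_cy, opn2_arc, h1, T2_dR, cat_smul, h2, h3, h4]
  simp only [smul_add, smul_smul tau u2, h]
  abel

theorem pre_pre (L L' : List Bool) (y : RW K) : pre L (pre L' y) = pre (L ++ L') y := by
  induction y using Finsupp.induction_linear with
  | zero => simp
  | add p q hp hq => simp only [map_add, hp, hq]
  | single X f => rw [pre_single, pre_single, pre_single, List.append_assoc]

theorem aI (K : Type) [Field K] : St_AI K := by
  intro al tau u2 c x _ h
  rw [T2_IR al tau u2 c x h]
  generalize u2 • x + T al true x = y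
  have h1 : pre [true] (tau • pre (zs c ++ [true]) y) = tau • pre [true] (pre (zs c ++ [true]) y) :=
    LinearMap.map_smul_of_tower _ _ _
  have h2 : pre [true] (tau • dR K c y) = tau • pre [true] (dR K c y) :=
    LinearMap.map_smul_of_tower _ _ _
  have h3 : pre [true] (pre (zs c ++ [true]) y) =
      pre (true :: (List.replicate c false ++ [true])) y := pre_pre _ _ _
  rw [map_add, h1, h3, IR_apply, IR_apply, map_add, map_smul, h2, dR_pre, dl_true, cat_rw1_left,
    smul_add]
  abel

end

end Pool.Agent.MJF
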