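import Pool.Agent.MJF.TIIb

/-!
The double commutator of the touches of the zeros with the insertions of arcs, part three.
-/

namespace Pool.Agent.MJF

open MvPolynomial Pool.Agent.MJR

noncomputable section

variable {K : Type} [Field K]

theorem hh_ins (al : K) (a c : ℕ) (X Y : List Bool) :
    hh al a (X ++ true :: (zs c ++ true :: Y)) =
    spl (fun X1 x1 Y1 => if x1 = true then
      et al a (Y1 ++ true :: (zs c ++ true :: Y) ++ X1) else 0) X +
    (et al a (zs c ++ true :: (Y ++ X)) + et al a (Y ++ X ++ true :: zs c) +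
    spl (fun X1 x1 Y1 => if x1 = true then
      et al a (Y1 ++ (X ++ true :: (zs c ++ true :: X1))) else 0) Y) := by
  rw [hh_eq, spl_append]
  refine congrArg₂ (· + ·) rfl ?_
  rw [spl_cons, if_pos rfl, spl_append, spl_replicate]
  have h : ∀ i ∈ Finset.range c, (if false = true then
      et al a (List.replicate (c - 1 - i) false ++ true :: Y ++ (X ++ true :: List.replicate i false))
      else 0) = 0 := fun i _ => if_neg (by simp)
  rw [Finset.sum_eq_zero h, zero_add, spl_cons, if_pos rfl, add_assoc]
  have e1 : zs c ++ true :: Y ++ (X ++ []) = zs c ++ true :: (Y ++ X) := by simp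
  have e2 : Y ++ (X ++ true :: (zs c ++ [])) = Y ++ X ++ true :: zs c := by simp
  refine congrArg₂ (· + ·) (congrArg (et al a) e1) (congrArg₂ (· + ·) (congrArg (et al a) e2) rfl)

/-- `et` as a linear map -/
def EtL (al : K) (a : ℕ) : RW K →ₗ[CW K] RW K :=
  ∑ i ∈ Finset.range a, Om al ∘ₗ pre (zs (a - 1 - i) ++ [true]) ∘ₗ app (true :: zs i)

theorem EtL_apply (al : K) (a : ℕ) (x : RW K) : EtL al a x =
    ∑ i ∈ Finset.range a, Om al (pre (zs (a - 1 - i) ++ [true]) (app (true :: zs i) x)) := by
  unfold EtL
  rw [LinearMap.sum_apply]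
  rfl

theorem EtL_rw1 (al : K) (a : ℕ) (Z : List Bool) : EtL al a (rw1 K Z) = et al a Z := by
  rw [EtL_apply]
  unfold et
  refine Finset.sum_congr rfl fun i _ => ?_
  rw [app_rw1, pre_rw1]
  simp

theorem dR_et (al : K) (a c : ℕ) (Z : List Bool) : dR K c (et al a Z) =
    et al a (zs c ++ true :: Z) + et al a (Z ++ true :: zs c) + EtL al a (dl K c Z) := by
  rw [EtL_apply]
  unfold et
  rw [map_sum, ← Finset.sum_add_distrib, ← Finset.sum_add_distrib]
  refine Finset.sum_congr rfl fun i _ => ?_
  rw [Om_dR, dR_rw1, ← map_add, ← map_add]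
  congr 1
  have h1 : zs (a - 1 - i) ++ true :: (Z ++ true :: zs i) =
      (zs (a - 1 - i) ++ [true]) ++ (Z ++ true :: zs i) := by simp
  have h2 : dl K c (zs (a - 1 - i) ++ [true]) =
      rw1 K (zs (a - 1 - i) ++ [true] ++ (zs c ++ [true])) := by
    rw [dl_append, dl_replicate, map_zero, zero_add, dl_true, pre_rw1]
    simp
  have h3 : dl K c (true :: zs i) = rw1 K (true :: (zs c ++ true :: zs i)) := by
    rw [dl_cons_true, dl_replicate, map_zero, add_zero]
  rw [h1, dl_append c (zs (a - 1 - i) ++ [true]), dl_append c Z, h2, h3, map_add, app_rw1,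
    pre_rw1, pre_rw1]
  have e1 : zs (a - 1 - i) ++ [true] ++ (zs c ++ [true]) ++ (Z ++ true :: zs i) =
      zs (a - 1 - i) ++ true :: (zs c ++ true :: Z ++ true :: zs i) := by simp
  have e2 : zs (a - 1 - i) ++ [true] ++ (Z ++ true :: (zs c ++ true :: zs i)) =
      zs (a - 1 - i) ++ true :: (Z ++ true :: zs c ++ true :: zs i) := by simp
  rw [e1, e2]
  abel

theorem H1_dlc (al : K) (a c : ℕ) (L : List Bool) :
    H1 al a (dlc K c L) = dR K c (hh al a L) := by
  have h1 : H1 al a (dlc K c L) = spl (fun X x Y => if x = true then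
      hh al a (X ++ true :: (zs c ++ true :: Y)) else 0) L := by
    unfold dlc
    have h := spl_ite_hom (H1 al a : CW K →ₗ[K] RW K).toAddMonoidHom true
      (fun X Y => cy K (X ++ true :: (List.replicate c false ++ true :: Y))) L
    refine Eq.trans h ?_
    apply spl_congr
    intro X x Y
    change (if x = true then H1 al a _ else 0) = _
    rw [H1_cy]
  have h2 : dR K c (hh al a L) = spl (fun X x Y => if x = true then
      dR K c (et al a (Y ++ X)) else 0) L := by
    rw [hh_eq]
    exact spl_ite_hom (dR K c : RW K →ₗ[K] RW K).toAddMonoidHom true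
      (fun X Y => et al a (Y ++ X)) L
  have h3 : ∀ X Y : List Bool, EtL al a (dl K c (Y ++ X)) =
      spl (fun X1 x1 Y1 => if x1 = true then
        et al a (X1 ++ true :: (zs c ++ true :: Y1) ++ X) else 0) Y +
      spl (fun X1 x1 Y1 => if x1 = true then
        et al a (Y ++ (X1 ++ true :: (zs c ++ true :: Y1))) else 0) X := by
    intro X Y
    rw [dl_append, map_add]
    congr 1
    · have h := spl_ite_hom (EtL al a ∘ₗ app X : RW K →ₗ[CW K] RW K).toAddMonoidHom true
        (fun X1 Y1 => rw1 K (X1 ++ true :: (List.replicate c false ++ true :: Y1))) Y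
      refine Eq.trans h ?_
      apply spl_congr
      intro X1 x Y1
      change (if x = true then EtL al a (app X _) else 0) = _
      rw [app_rw1, EtL_rw1]
    · have h := spl_ite_hom (EtL al a ∘ₗ pre Y : RW K →ₗ[CW K] RW K).toAddMonoidHom true
        (fun X1 Y1 => rw1 K (X1 ++ true :: (List.replicate c false ++ true :: Y1))) X
      refine Eq.trans h ?_
      apply spl_congr
      intro X1 x Y1
      change (if x = true then EtL al a (pre Y _) else 0) = _
      rw [pre_rw1, EtL_rw1]
  have e1 := spl2 true true (fun P Q S : List Bool =>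
    et al a (Q ++ true :: (zs c ++ true :: S) ++ P)) L
  have e2 := spl2 true true (fun P Q S : List Bool =>
    et al a (S ++ (P ++ true :: (zs c ++ true :: Q)))) L
  rw [h1, h2]
  have h4 : spl (fun X x Y => if x = true then
      hh al a (X ++ true :: (zs c ++ true :: Y)) else 0) L =
      spl (fun X x Y => if x = true then spl (fun X1 x1 Y1 => if x1 = true then
      et al a (Y1 ++ true :: (zs c ++ true :: Y) ++ X1) else 0) X else 0) L +
      (spl (fun X x Y => if x = true then
        et al a (zs c ++ true :: (Y ++ X)) + et al a (Y ++ X ++ true :: zs c) else 0) L +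
      spl (fun X x Y => if x = true then spl (fun X1 x1 Y1 => if x1 = true then
      et al a (Y1 ++ (X ++ true :: (zs c ++ true :: X1))) else 0) Y else 0) L) := by
    rw [← spl_add, ← spl_add]
    apply spl_congr
    intro X x Y
    split_ifs
    · rw [hh_ins]
    · simp
  have h5 : spl (fun X x Y => if x = true then dR K c (et al a (Y ++ X)) else 0) L =
      spl (fun X x Y => if x = true then
        et al a (zs c ++ true :: (Y ++ X)) + et al a (Y ++ X ++ true :: zs c) else 0) L +
      (spl (fun X x Y => if x = true then spl (fun X1 x1 Y1 => if x1 = true then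
        et al a (X1 ++ true :: (zs c ++ true :: Y1) ++ X) else 0) Y else 0) L +
      spl (fun X x Y => if x = true then spl (fun X1 x1 Y1 => if x1 = true then
        et al a (Y ++ (X1 ++ true :: (zs c ++ true :: Y1))) else 0) X else 0) L) := by
    rw [← spl_add, ← spl_add]
    apply spl_congr
    intro X x Y
    split_ifs
    · rw [dR_et, h3]
    · simp
  rw [h4, h5, e1, e2]
  abel

theorem H1_dC (al : K) (a c : ℕ) (f : CW K) :
    H1 al a (dC K c f) = dR K c (H1 al a f) := by
  induction f using cw_induction with
  | hC x =>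
    have h1 : dC K c (C x) = 0 := derivation_C _ _
    have h3 : H1 al a (C x) = 0 := derivation_C _ _
    rw [h1, h3, map_zero, map_zero]
  | hadd f g hf hg => simp only [map_add, hf, hg]
  | hX f L hf =>
    simp only [Derivation.leibniz, dC_cy, smul_eq_mul, map_add, hf, H1_dlc, H1_cy, dR_smul]
    abel

theorem G1_dR (al : K) (a c : ℕ) (x : RW K) :
    G1 al a (dR K c x) = dR K c (G1 al a x) := by
  induction x using Finsupp.induction_linear with
  | zero => simp
  | add p q hp hq => simp only [map_add, hp, hq]
  | single L f =>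
    rw [single_eq]
    simp only [dR_smul, G1_smul, map_add, dR_rw1, G1_rw1, G1_dl, dR_cat, H1_dC]
    abel

theorem hh_arc (al : K) (a c : ℕ) : hh al a (arc c) = et al a (zs c) := by
  rw [hh_eq]
  unfold arc
  rw [spl_cons, if_pos rfl, spl_replicate, List.append_nil]
  have h : ∀ i ∈ Finset.range c, (if false = true then
      et al a (List.replicate (c - 1 - i) false ++ true :: List.replicate i false) else 0) = 0 :=
    fun i _ => if_neg (by simp)
  rw [Finset.sum_eq_zero h, add_zero]

theorem opn_arc (al : K) (a : ℕ) : opn al false (arc a) =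
    ∑ i ∈ Finset.range a, Om al (rw1 K (zs (a - 1 - i) ++ true :: zs i)) := by
  rw [opn_Om]
  unfold arc
  rw [spl_cons, if_neg (by simp), zero_add, spl_replicate]
  exact Finset.sum_congr rfl fun i _ => if_pos rfl

/-- the compatibility of the two insertions in an empty state -/
theorem dR_opn_arc (al : K) (a c : ℕ) :
    dR K c (opn al false (arc a)) = hh al a (arc c) := by
  rw [hh_arc, opn_arc, map_sum]
  unfold et
  refine Finset.sum_congr rfl fun i _ => ?_
  rw [Om_dR, dR_rw1]
  congr 1
  have h : zs (a - 1 - i) ++ true :: zs i = (zs (a - 1 - i) ++ [true]) ++ zs i := by simp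
  rw [h, dl_append, dl_append, dl_replicate, dl_replicate, dl_true]
  simp only [map_zero, zero_add, add_zero, pre_rw1, app_rw1]
  simp

/-- `[T, IR]` -/
theorem T_IR (al tau : K) (a : ℕ) (x : RW K) :
    T al false (IR tau a x) = IR tau a (T al false x) + cat (opn al false (arc a)) x +
      tau • G1 al a x := by
  rw [IR_apply, IR_apply, map_add, T_smul, J_cy]
  have h : T al false (tau • dR K a x) = tau • T al false (dR K a x) := map_smul _ _ _
  rw [h, T_dR, smul_add]
  abel

theorem cat_smulK (y : RW K) (c : K) (x : RW K) : cat y (c • x) = c • cat y x :=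
  LinearMap.map_smul_of_tower (cat y) c x

theorem tii (K : Type) [Field K] : St_TII K := by
  intro al tau a c x
  have e1 : cat (opn al false (arc a)) (IR tau c x) = cy K (arc c) • cat (opn al false (arc a)) x +
      tau • cat (opn al false (arc a)) (dR K c x) := by
    rw [IR_apply, map_add, cat_smulK, map_smul]
  have e2 : G1 al a (IR tau c x) = cy K (arc c) • G1 al a x + cat (hh al a (arc c)) x +
      tau • dR K c (G1 al a x) := by
    rw [IR_apply, map_add, G1_smul, H1_cy, map_smul, G1_dR]
  have e3 : IR tau c (cat (opn al false (arc a)) x) = cy K (arc c) • cat (opn al false (arc a)) x +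
      tau • (cat (hh al a (arc c)) x + cat (opn al false (arc a)) (dR K c x)) := by
    rw [IR_apply, dR_cat, dR_opn_arc]
  have e4 : IR tau c (G1 al a x) = cy K (arc c) • G1 al a x + tau • dR K c (G1 al a x) := rfl
  rw [T_IR al tau a (IR tau c x), T_IR al tau a x]
  simp only [map_add, map_smul]
  rw [e1, e2, e3, e4]
  simp only [smul_add]
  abel

end

end Pool.Agent.MJF
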