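import Pool.Agent.MJF.Five
import Pool.Agent.MJX.Hat

/-!
The rank five theorem without hypotheses, and the case of the first index.
-/

namespace Pool.Agent.MJF

open MvPolynomial Pool.Agent.MJR Pool.Agent.MJX Pool.Agent.MJT

noncomputable section

theorem hatEx : HatEx := by
  intro kap hk
  have hT : IsT (RatFunc.X * kap) ((fgt QA).toLinearMap ∘ₗ ic (RatFunc.X * kap)) :=
    isT (fgt_st QA) (RatFunc.X * kap)
  have hR := rSt (RatFunc.X : QA) hk
  exact ⟨_, _, hT, hatSt hR (zSt (RatFunc.X : QA) hk hR) hT⟩

/-- `c` as a sum over the Jack functions. -/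
theorem c_form {n : ℕ} {J : n.Partition → n.Partition → QA}
    (hJ : IsJack RatFunc.X n J) (c : n.Partition → n.Partition → n.Partition → QA)
    (hc : ∀ l m v, ∑ p, J l p * c p m v = J l m * J l v) (p m v : n.Partition) :
    c p m v = wtp RatFunc.X p * ∑ l, (nrm RatFunc.X J l)⁻¹ * (J l p * J l m * J l v) := by
  have h1 : (fun q => c q m v) = fun q => wtp RatFunc.X q *
      ∑ l, (nrm RatFunc.X J l)⁻¹ * (J l q * J l m * J l v) := by
    apply CFin.c_eq fin_ident.2 hJ
    intro l
    rw [hc l m v]
    have h3 : ∀ q, J l q * (wtp RatFunc.X q *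
        ∑ l', (nrm RatFunc.X J l')⁻¹ * (J l' q * J l' m * J l' v)) =
        ∑ l', (nrm RatFunc.X J l')⁻¹ * (J l' m * J l' v) * (J l q * J l' q * wtp RatFunc.X q) := by
      intro q
      rw [Finset.mul_sum, Finset.mul_sum]
      refine Finset.sum_congr rfl fun l' _ => ?_
      ring
    rw [Finset.sum_congr rfl (fun q _ => h3 q), Finset.sum_comm]
    rw [Finset.sum_eq_single l]
    · rw [← Finset.mul_sum]
      have h4 : ∑ q, J l q * J l q * wtp RatFunc.X q = nrm RatFunc.X J l := by
        unfold nrm
        refine Finset.sum_congr rfl fun q _ => ?_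
        ring
      have h5 := nrm_ne_zero anisoM hJ l
      rw [h4]
      field_simp
    · intro l' _ hl'
      rw [← Finset.mul_sum, hJ.orth l l' (Ne.symm hl'), mul_zero]
    · intro h'
      exact absurd (Finset.mem_univ _) h'
  exact congrFun h1 p

/-- The symmetry of `c`. -/
theorem c_symm {n : ℕ} {J : n.Partition → n.Partition → QA}
    (hJ : IsJack RatFunc.X n J) (c : n.Partition → n.Partition → n.Partition → QA)
    (hc : ∀ l m v, ∑ p, J l p * c p m v = J l m * J l v) (p m v : n.Partition) :
    wtp RatFunc.X m * c p m v = wtp RatFunc.X p * c m p v := by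
  rw [c_form hJ c hc p m v, c_form hJ c hc m p v]
  have e : ∑ l, (nrm RatFunc.X J l)⁻¹ * (J l p * J l m * J l v) =
      ∑ l, (nrm RatFunc.X J l)⁻¹ * (J l m * J l p * J l v) := by
    refine Finset.sum_congr rfl fun l _ => ?_
    ring
  rw [e]
  ring

/-- Positivity if the second or the third index is good. -/
theorem five_lower {n : ℕ} {J : n.Partition → n.Partition → QA}
    (hJ : IsJack RatFunc.X n J) (c : n.Partition → n.Partition → n.Partition → QA)
    (hc : ∀ l m v, ∑ p, J l p * c p m v = J l m * J l v) (p m v : n.Partition)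
    (h : Good m ∨ Good v) : c p m v ∈ Nb (RatFunc.X : QA) := by
  rcases h with h | h
  · have h1 : ∀ l m' v', ∑ p, J l p * (fun p m v => c p v m) p m' v' = J l m' * J l v' := by
      intro l m' v'
      simp only
      rw [hc l v' m']
      ring
    exact five_Nb hatEx hJ (fun p m v => c p v m) h1 p v m h
  · exact five_Nb hatEx hJ c hc p m v h

theorem al_Nb : (RatFunc.X : QA) ∈ Nb (RatFunc.X : QA) := by
  refine ⟨Polynomial.X + 1, ?_⟩
  rw [Polynomial.coe_eval₂RingHom, Polynomial.eval₂_add, Polynomial.eval₂_X, Polynomial.eval₂_one]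
  ring

/-- If the first index has rank at most five, the coefficients are nonnegative rational. -/
theorem five_upper {n : ℕ} {J : n.Partition → n.Partition → QA}
    (hJ : IsJack RatFunc.X n J) (c : n.Partition → n.Partition → n.Partition → QA)
    (hc : ∀ l m v, ∑ p, J l p * c p m v = J l m * J l v) (p m v : n.Partition)
    (h : n ≤ p.parts.card + 5) : ∃ (x : ℚ) (y : QA), 0 ≤ x ∧ y ∈ Nb (RatFunc.X : QA) ∧
      c p m v = algebraMap ℚ QA x * y := by
  rcases le_or_gt m.parts.card p.parts.card with hle | hgt
  · have h1 := c_symm hJ c hc p m v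
    have h2 : c m p v ∈ Nb (RatFunc.X : QA) := five_lower hJ c hc m p v (Or.inl (Or.inl h))
    have hX : (RatFunc.X : QA) ≠ 0 := RatFunc.X_ne_zero
    have hz : ∀ q : n.Partition, ((zed q : ℕ) : ℚ) ≠ 0 := by
      intro q
      have hz : zed q ≠ 0 := by
        unfold zed
        refine Finset.prod_ne_zero_iff.mpr fun i hi => ?_
        have h3 : i ≠ 0 := (q.parts_pos (Multiset.mem_toFinset.mp hi)).ne'
        exact mul_ne_zero (pow_ne_zero _ h3) (Nat.factorial_ne_zero _)
      exact_mod_cast hz
    refine ⟨(zed p : ℚ) / (zed m : ℚ),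
      RatFunc.X ^ (p.parts.card - m.parts.card) * c m p v, ?_,
      mul_mem (pow_mem al_Nb _) h2, ?_⟩
    · positivity
    · have h3 : wtp (RatFunc.X : QA) m ≠ 0 := by
        unfold wtp
        refine mul_ne_zero (pow_ne_zero _ hX) ?_
        have := hz m
        exact_mod_cast this
      apply mul_left_cancel₀ h3
      rw [h1]
      unfold wtp
      have h4 : (RatFunc.X : QA) ^ p.parts.card =
          RatFunc.X ^ m.parts.card * RatFunc.X ^ (p.parts.card - m.parts.card) := by
        rw [← pow_add]
        congr 1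
        omega
      have h5 : ((zed m : ℕ) : QA) ≠ 0 := by
        have := hz m
        exact_mod_cast this
      rw [map_div₀, map_natCast, map_natCast, h4]
      field_simp
  · refine ⟨1, c p m v, zero_le_one, five_lower hJ c hc p m v (Or.inl (Or.inl (by omega))), ?_⟩
    rw [map_one, one_mul]

end

end Pool.Agent.MJF
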