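import Pool.Agent.MJF.Iota4
import Pool.Agent.MJX.XMod

/-!
Opening the states of the process: the opened exponential generating function is the sum of the
generating functions with one cycle left open.
-/

namespace Pool.Agent.MJF

open MvPolynomial Pool.Agent.MJR Pool.Agent.MJX Pool.Agent.MJX.EModM Pool.Agent.MJT

noncomputable section

namespace LogJM

variable {K : Type} [Field K] {kap : K}

/-- `U` of the exponential generating function. -/
theorem U_G [CharZero K] {al : K} (hal : al ≠ 0) (x : ℕ → K) (G : ℕ → Lam K) (h0 : G 0 = 1)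
    (hG : ∀ n : ℕ, (al * n) • G n = ∑ k ∈ Finset.Icc 1 n, x k • (X k * G (n - k))) (n : ℕ) :
    U al (G n) = ∑ k ∈ Finset.Icc 1 n, x k • Polynomial.monomial k (G (n - k)) := by
  induction n using Nat.strong_induction_on with
  | _ n ih =>
    rcases Nat.eq_zero_or_pos n with rfl | hn
    · rw [h0, U_one, Finset.Icc_eq_empty (by omega), Finset.sum_empty]
    have hne : al * (n : K) ≠ 0 := mul_ne_zero hal (by exact_mod_cast hn.ne')
    have hUs : ∀ (c : K) (f : Lam K), U al (c • f) = c • U al f := fun c f =>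
      (U al).map_smul c f
    apply smul_right_injective (LW K) hne
    change (al * (n : K)) • U al (G n) = (al * (n : K)) • _
    rw [← hUs, hG, map_sum]
    have h1 : ∀ k ∈ Finset.Icc 1 n, U al (x k • (X k * G (n - k))) =
        ∑ l ∈ Finset.Icc 1 (n - k), (x l * x k) • Polynomial.monomial l (X k * G (n - k - l)) +
          (x k * (al * k)) • Polynomial.monomial k (G (n - k)) := by
      intro k hk
      rw [Finset.mem_Icc] at hk
      rw [hUs, U_mul, ih (n - k) (by omega), U_X, smul_add, Finset.mul_sum, Finset.smul_sum]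
      congr 1
      · refine Finset.sum_congr rfl fun l _ => ?_
        rw [mul_smul_comm, Polynomial.C_mul_monomial, smul_smul, mul_comm (x k)]
      · rw [Polynomial.C_mul_monomial, mul_comm (G (n - k)), ← smul_eq_C_mul,
          ← Polynomial.smul_monomial, smul_smul]
    rw [Finset.sum_congr rfl h1, Finset.sum_add_distrib]
    have h2 : ∑ k ∈ Finset.Icc 1 n, ∑ l ∈ Finset.Icc 1 (n - k),
          (x l * x k) • Polynomial.monomial l (X k * G (n - k - l)) =
        ∑ l ∈ Finset.Icc 1 n, ∑ k ∈ Finset.Icc 1 (n - l),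
          (x l * x k) • Polynomial.monomial l (X k * G (n - l - k)) := by
      have h3 : ∀ k l, n - k - l = n - l - k := fun k l => by omega
      rw [Finset.sum_comm' (t' := Finset.Icc 1 n) (s' := fun l => Finset.Icc 1 (n - l))]
      · refine Finset.sum_congr rfl fun l _ => Finset.sum_congr rfl fun k _ => ?_
        rw [h3]
      · intro k l
        simp only [Finset.mem_Icc]
        omega
    have h4 : ∀ l ∈ Finset.Icc 1 n, ∑ k ∈ Finset.Icc 1 (n - l),
          (x l * x k) • Polynomial.monomial l (X k * G (n - l - k)) =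
        (x l * (al * ((n - l : ℕ) : K))) • Polynomial.monomial l (G (n - l)) := by
      intro l _
      rw [mul_smul (x l), Polynomial.smul_monomial, hG (n - l), map_sum, Finset.smul_sum]
      refine Finset.sum_congr rfl fun k _ => ?_
      rw [← Polynomial.smul_monomial, smul_smul]
    rw [h2, Finset.sum_congr rfl h4, ← Finset.sum_add_distrib, Finset.smul_sum]
    refine Finset.sum_congr rfl fun k hk => ?_
    rw [Finset.mem_Icc] at hk
    rw [Nat.cast_sub hk.2]
    module

/-- The value of a touch at the empty root word. -/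
theorem T_iw (al : K) (t : Bool) (g : CW K) : T al t (iw K g) = J al t g := by
  have h1 : T al t (iw K g) = g • tch al t [] + app [] (J al t g) := by
    unfold T opr iw
    exact Finsupp.lsum_single K _ _ _
  have h2 : tch al t ([] : List Bool) = (0 : RW K) := rfl
  have h3 : ∀ y : RW K, app [] y = y := by
    intro y
    change Finsupp.mapDomain (fun X : List Bool => X ++ []) y = y
    have h4 : (fun X : List Bool => X ++ []) = id := by
      funext X
      exact List.append_nil X
    rw [h4, Finsupp.mapDomain_id]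
  rw [h1, h2, smul_zero, zero_add, h3]

end LogJM

open LogJM in
/-- Opening the states of the process. -/
theorem logJ {K : Type} [Field K] [CharZero K] {kap al tau u2 : K} (hal : al ≠ 0)
    (h1 : tau = u2 + (al - 1)) (h2 : tau * u2 = al) (h3 : u2 * kap = 1) (ht : tau = al * kap)
    (hq : tau ^ 2 = (al - 1) * tau + al) (u s : K) (Kc : Lam K →ₗ[K] CM K) (hone : Kc 1 = 1)
    (hK : ∀ (k : ℕ) (f : Lam K), k ≠ 0 →
      Kc (X k * f) = cA ((Aop al kap u (s * u2) ^ k) (iA kap (Kc f))))
    (hK0 : ∀ f : Lam K, Kc (X 0 * f) = 0) (x : ℕ → K) (G : ℕ → Lam K) (hG0 : G 0 = 1)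
    (hG : ∀ n : ℕ, (al * n) • G n = ∑ k ∈ Finset.Icc 1 n, x k • (X k * G (n - k))) (n : ℕ) :
    J al false (ic tau (Kc (G n))) + J al true (ic tau (Kc (G n))) =
      ∑ k ∈ Finset.Icc 1 n, x k • (Aw al u u2 s ^ k) (iw K (ic tau (Kc (G (n - k))))) := by
  have hk : al * kap ^ 2 = (al - 1) * kap + 1 := by
    rw [ht] at hq
    apply mul_left_cancel₀ hal
    linear_combination hq
  have hT : TSt K al kap := tSt al hk
  have hB : ∀ (k : ℕ) (f : Lam K),
      Kc (X k * f) = AbsM.Bj (Aop al kap u (s * u2)) (iA kap) cK k (Kc f) := by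
    intro k f
    rcases eq_or_ne k 0 with rfl | hk0
    · rw [hK0, AbsM.Bj_zero, LinearMap.zero_apply]
    · rw [hK k f hk0, AbsM.Bj_apply hk0]
      rfl
  have hmain := AbsM.R_Kh (rel_arc hk u (s * u2)) hal Kc hone hB (Polynomial.C (G n))
  have hZf : Zf al (Polynomial.C (G n)) = U al (G n) := by
    change Z al (Polynomial.C (G n)) + Polynomial.C (Tr (Polynomial.C (G n))) = _
    rw [Z_C, Tr_C, map_zero, add_zero]
  rw [AbsM.Kh_C, hZf, U_G hal x G hG0 hG, map_sum] at hmain
  have hrv : rv (iA kap (Kc (G n))) = iA kap (Kc (G n)) := by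
    change rv (Kc (G n) • (1 : AM K kap)) = Kc (G n) • (1 : AM K kap)
    rw [map_smul, rv_one]
  rw [hT.sum, hrv, sub_self, smul_zero, add_zero] at hmain
  have h4 := congrArg (iR tau) hmain
  rw [map_add, iR_T0 al tau ht hq, Iota4.iR_T1 h1 h2 h3 hT, iR_iA, T_iw, T_iw, map_sum] at h4
  rw [h4]
  refine Finset.sum_congr rfl fun k _ => ?_
  have h5 : ∀ (n : ℕ) (y : AM K kap), iR tau ((Aop al kap u (s * u2) ^ n) y) =
      (Aw al u u2 s ^ n) (iR tau y) := by
    intro n y
    induction n with
    | zero => rfl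
    | succ n ihn => rw [pow_succ', pow_succ', Module.End.mul_apply, Module.End.mul_apply, ← ihn,
        iR_A (aI K) (aP K) h1 h2 h3 ht hq]
  rw [map_smul, map_smul, AbsM.Kh_monomial, h5, iR_iA]

end

end Pool.Agent.MJF
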