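import Pool.Agent.MJF.Spl

/-!
The labelled process: positivity, the words in two colours, the expansion.
-/

namespace Pool.Agent.MJF

open MvPolynomial Pool.Agent.MJR

noncomputable section

namespace Lbx

variable {K : Type} [Field K]

/-! ### Linear maps -/

section lin
variable {V W : Type} [AddCommGroup V] [Module K V] [AddCommGroup W] [Module K W]

theorem spl_lin {α : Type} (f : V →ₗ[K] W) (φ : List α → α → List α → V) (L : List α) :
    f (spl φ L) = spl (fun X x Y => f (φ X x Y)) L := spl_hom f.toAddMonoidHom φ L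

theorem stp_map (f : V →ₗ[K] W) (al : K) (φ : Stt → V) (S : Stt) :
    f (stp al φ S) = stp al (fun S => f (φ S)) S := by
  unfold stp
  simp only [map_add, spl_lin, map_smul]

theorem iter_map (f : V →ₗ[K] W) (al : K) (k : ℕ) (φ : Stt → V) (S : Stt) :
    f ((stp al)^[k] φ S) = (stp al)^[k] (fun S => f (φ S)) S := by
  induction k generalizing φ with
  | zero => rfl
  | succ k ih =>
    rw [Function.iterate_succ_apply, ih, Function.iterate_succ_apply]
    have h : (fun S => f (stp al φ S)) = stp al (fun S => f (φ S)) := by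
      funext S
      exact stp_map f al φ S
    rw [h]

theorem Ep_map (f : V →ₗ[K] W) (al : K) (p : List ℕ) (φ : Stt → V) :
    f (Ep al p φ) = Ep al p (fun S => f (φ S)) := by
  induction p generalizing φ with
  | nil => rfl
  | cons k p ih =>
    change f (Ep al p ((stp al)^[k] (cls φ))) = Ep al p ((stp al)^[k] (cls fun S => f (φ S)))
    rw [ih]
    congr 1
    funext S
    rw [iter_map]
    rfl

end lin

/-! ### Positivity -/

theorem spl_mem {α : Type} {M : Subsemiring K} {φ : List α → α → List α → K}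
    (h : ∀ X x Y, φ X x Y ∈ M) (L : List α) : spl φ L ∈ M := by
  induction L generalizing φ with
  | nil => exact zero_mem _
  | cons l L ih => exact add_mem (h _ _ _) (ih fun X x Y => h _ _ _)

theorem b_mem (al : K) : al - 1 ∈ Nb al := by
  refine ⟨Polynomial.X, ?_⟩
  simp

theorem stp_mem {al : K} {φ : Stt → K} (h : ∀ S, φ S ∈ Nb al) (S : Stt) :
    stp al φ S ∈ Nb al := by
  unfold stp
  refine add_mem (add_mem (h _) (spl_mem (fun X x Y => add_mem (h _) ?_) _))
    (spl_mem (fun A z B => spl_mem (fun X x Y => add_mem (h _) ?_) _) _)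
  · rw [smul_eq_mul]
    exact mul_mem (b_mem al) (h _)
  · rw [smul_eq_mul]
    exact mul_mem (b_mem al) (h _)

theorem iter_mem {al : K} (k : ℕ) {φ : Stt → K} (h : ∀ S, φ S ∈ Nb al) (S : Stt) :
    (stp al)^[k] φ S ∈ Nb al := by
  induction k generalizing φ with
  | zero => exact h S
  | succ k ih =>
    rw [Function.iterate_succ_apply]
    exact ih fun S => stp_mem h S

/-! ### Good states -/

/-- The states after `t` steps. -/
def Inv (t : ℕ) (S : Stt) : Prop :=
  (∀ x ∈ S.2.1, x < S.1.length) ∧ (∀ z ∈ S.2.2, ∀ x ∈ z, x < S.1.length) ∧ S.1.sum = t ∧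
    ∀ x ∈ S.1, 0 < x

theorem inc_length (s : List ℕ) (l : ℕ) : (inc s l).length = s.length := by
  unfold inc
  exact List.length_modify _ _ _

theorem inc_sum (s : List ℕ) (l : ℕ) (h : l < s.length) : (inc s l).sum = s.sum + 1 := by
  unfold inc
  induction s generalizing l with
  | nil => exact absurd h (Nat.not_lt_zero _)
  | cons a s ih =>
    cases l with
    | zero =>
      rw [List.modify_zero_cons, List.sum_cons, List.sum_cons]
      omega
    | succ l =>
      rw [List.modify_succ_cons, List.sum_cons, List.sum_cons,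
        ih l (by simpa using h)]
      omega

theorem inc_pos (s : List ℕ) (l : ℕ) (h : ∀ x ∈ s, 0 < x) : ∀ x ∈ inc s l, 0 < x := by
  unfold inc
  induction s generalizing l with
  | nil =>
    intro x hx
    simp at hx
  | cons a s ih =>
    cases l with
    | zero =>
      rw [List.modify_zero_cons]
      intro x hx
      rcases List.mem_cons.1 hx with rfl | hx
      · omega
      · exact h x (List.mem_cons_of_mem _ hx)
    | succ l =>
      rw [List.modify_succ_cons]
      intro x hx
      rcases List.mem_cons.1 hx with rfl | hx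
      · exact h x (List.mem_cons_self)
      · exact ih l (fun y hy => h y (List.mem_cons_of_mem _ hy)) x hx

theorem Inv_stay {t : ℕ} {S : Stt} (h : Inv t S) :
    Inv (t + 1) (S.1 ++ [1], S.1.length :: S.2.1, S.2.2) := by
  obtain ⟨h1, h2, h3, h4⟩ := h
  refine ⟨?_, ?_, ?_, ?_⟩
  · intro x hx
    simp only [List.length_append, List.length_singleton]
    rcases List.mem_cons.1 hx with rfl | hx
    · omega
    · exact (h1 x hx).trans (Nat.lt_succ_self _)
  · intro z hz x hx
    simp only [List.length_append, List.length_singleton]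
    exact (h2 z hz x hx).trans (Nat.lt_succ_self _)
  · simp only [List.sum_append, List.sum_singleton, h3]
  · intro x hx
    rcases List.mem_append.1 hx with hx | hx
    · exact h4 x hx
    · rw [List.mem_singleton.1 hx]
      exact Nat.one_pos

theorem Inv_touch {t : ℕ} {s W : List ℕ} {Cs : List (List ℕ)} {l : ℕ} (hl : l < s.length)
    (h3 : s.sum = t) (h4 : ∀ x ∈ s, 0 < x) (h1 : ∀ x ∈ W, x < s.length)
    (h2 : ∀ z ∈ Cs, ∀ x ∈ z, x < s.length) : Inv (t + 1) (inc s l, l :: W, Cs) := by
  refine ⟨?_, ?_, ?_, ?_⟩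
  · intro x hx
    rw [inc_length]
    rcases List.mem_cons.1 hx with rfl | hx
    · exact hl
    · exact h1 x hx
  · intro z hz x hx
    rw [inc_length]
    exact h2 z hz x hx
  · rw [inc_sum s l hl, h3]
  · exact inc_pos s l h4

section congr
variable {V : Type} [AddCommGroup V] [Module K V]

theorem stp_congr {al : K} {φ ψ : Stt → V} {t : ℕ} (h : ∀ S, Inv (t + 1) S → φ S = ψ S)
    {S : Stt} (hS : Inv t S) : stp al φ S = stp al ψ S := by
  obtain ⟨s, W, Cs⟩ := S
  have hS' := hS
  obtain ⟨h1, h2, h3, h4⟩ := hS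
  unfold stp
  simp only at h1 h2 h3 h4
  refine congrArg₂ (· + ·) (congrArg₂ (· + ·) (h _ (Inv_stay hS')) ?_) ?_
  · apply spl_congr'
    intro X l Y hW
    have hW' : (s, W, Cs).2.1 = W := rfl
    rw [hW'] at hW
    have hl : l < s.length := h1 l (by rw [hW]; simp)
    have hX : ∀ x ∈ X, x < s.length := fun x hx => h1 x (by rw [hW]; simp [hx])
    have hY : ∀ x ∈ Y, x < s.length := fun x hx => h1 x (by rw [hW]; simp [hx])
    rw [h _ (Inv_touch hl h3 h4 hY ?_), h _ (Inv_touch hl h3 h4 ?_ h2)]
    · intro x hx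
      simp only [List.mem_append, List.mem_reverse, List.mem_cons] at hx
      rcases hx with hx | rfl | hx
      · exact hX x hx
      · exact hl
      · exact hY x hx
    · intro z hz x hx
      rcases List.mem_cons.1 hz with rfl | hz
      · simp only [List.mem_append, List.mem_singleton] at hx
        rcases hx with hx | rfl
        · exact hX x hx
        · exact hl
      · exact h2 z hz x hx
  · apply spl_congr'
    intro A z B hC
    have hC' : (s, W, Cs).2.2 = Cs := rfl
    rw [hC'] at hC
    have hz : ∀ x ∈ z, x < s.length := h2 z (by rw [hC]; simp)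
    have hAB : ∀ z' ∈ A ++ B, ∀ x ∈ z', x < s.length := by
      intro z' hz'
      apply h2 z'
      rw [hC]
      simp only [List.mem_append, List.mem_cons] at hz' ⊢
      tauto
    apply spl_congr'
    intro X l Y hz2
    have hl : l < s.length := hz l (by rw [hz2]; simp)
    have hX : ∀ x ∈ X, x < s.length := fun x hx => hz x (by rw [hz2]; simp [hx])
    have hY : ∀ x ∈ Y, x < s.length := fun x hx => hz x (by rw [hz2]; simp [hx])
    rw [h _ (Inv_touch hl h3 h4 ?_ hAB), h _ (Inv_touch hl h3 h4 ?_ hAB)]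
    · intro x hx
      simp only [List.mem_append, List.mem_reverse, List.mem_cons] at hx
      rcases hx with (hx | hx) | rfl | hx
      · exact hY x hx
      · exact hX x hx
      · exact hl
      · exact h1 x hx
    · intro x hx
      simp only [List.mem_append, List.mem_cons] at hx
      rcases hx with (hx | hx) | rfl | hx
      · exact hY x hx
      · exact hX x hx
      · exact hl
      · exact h1 x hx

theorem iter_congr {al : K} (k : ℕ) {φ ψ : Stt → V} {t : ℕ}
    (h : ∀ S, Inv (t + k) S → φ S = ψ S) {S : Stt} (hS : Inv t S) :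
    (stp al)^[k] φ S = (stp al)^[k] ψ S := by
  induction k generalizing φ ψ with
  | zero => exact h S hS
  | succ k ih =>
    rw [Function.iterate_succ_apply, Function.iterate_succ_apply]
    exact ih fun S hS => stp_congr h hS

omit [AddCommGroup V] in
theorem cls_congr {φ ψ : Stt → V} {t : ℕ} (h : ∀ S, Inv t S → φ S = ψ S) {S : Stt}
    (hS : Inv t S) : cls φ S = cls ψ S := by
  apply h
  obtain ⟨h1, h2, h3, h4⟩ := hS
  refine ⟨?_, ?_, h3, h4⟩
  · intro x hx
    simp at hx
  · intro z hz x hx
    rcases List.mem_cons.1 hz with rfl | hz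
    · exact h1 x hx
    · exact h2 z hz x hx

theorem Ep_congr {al : K} (p : List ℕ) {φ ψ : Stt → V} (h : ∀ S, Inv p.sum S → φ S = ψ S) :
    Ep al p φ = Ep al p ψ := by
  induction p generalizing φ ψ with
  | nil =>
    apply h
    refine ⟨?_, ?_, rfl, ?_⟩ <;> simp
  | cons k p ih =>
    change Ep al p ((stp al)^[k] (cls φ)) = Ep al p ((stp al)^[k] (cls ψ))
    apply ih
    intro S hS
    apply iter_congr k _ hS
    intro S hS
    apply cls_congr _ hS
    intro S hS
    apply h
    rw [List.sum_cons, add_comm]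
    exact hS

end congr

end Lbx

/-- (L1) -/
theorem nb (K : Type) [Field K] : St_Nb K := by
  intro al p φ h
  induction p generalizing φ with
  | nil => exact h _
  | cons k p ih => exact ih _ fun S => Lbx.iter_mem k (fun S => h _) S

namespace Lbx

variable {K : Type} [Field K]

theorem prod_X (Cs : List (List ℕ)) : (Cs.map fun z => (X z.length : Lam K)).prod =
    monomial (Multiset.toFinsupp ((Cs.map List.length : List ℕ) : Multiset ℕ)) 1 := by
  induction Cs with
  | nil =>
    rw [List.map_nil, List.map_nil, List.prod_nil, Multiset.coe_nil, map_zero]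
    rfl
  | cons z Cs ih =>
    rw [List.map_cons, List.map_cons, List.prod_cons, ih, ← Multiset.cons_coe,
      ← Multiset.singleton_add, map_add, Multiset.toFinsupp_singleton]
    rw [X, monomial_mul, one_mul]

theorem coeff_prod_X {n : ℕ} (m : n.Partition) (Cs : List (List ℕ)) :
    coeff (expo m) (Cs.map fun z => (X z.length : Lam K)).prod =
      open Classical in
      if ((Cs.map List.length : List ℕ) : Multiset ℕ) = m.parts then (1 : K) else 0 := by
  classical
  rw [prod_X, coeff_monomial]
  unfold expo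
  by_cases h : ((Cs.map List.length : List ℕ) : Multiset ℕ) = m.parts
  · rw [if_pos h, if_pos (by rw [h])]
  · rw [if_neg h, if_neg]
    intro h2
    exact h (Multiset.toFinsupp.injective h2)

end Lbx

/-- (L3) -/
theorem coef (K : Type) [Field K] : St_coef K := by
  classical
  intro al g n p m hp hp0
  -- the right side
  obtain ⟨Φ, hΦ⟩ : ∃ Φ : Stt → (n.Partition → K), Φ = fun S v =>
      if (S.1 : Multiset ℕ) = v.parts ∧
        ((S.2.2.map List.length : List ℕ) : Multiset ℕ) = m.parts then (1 : K) else 0 :=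
    ⟨_, rfl⟩
  obtain ⟨f, hf⟩ : ∃ f : (n.Partition → K) →ₗ[K] K,
      f = ∑ v, (v.parts.map g).prod • LinearMap.proj v := ⟨_, rfl⟩
  have hf' : ∀ a : n.Partition → K, f a = ∑ v, a v * (v.parts.map g).prod := by
    intro a
    rw [hf, LinearMap.sum_apply]
    refine Finset.sum_congr rfl fun v _ => ?_
    rw [LinearMap.smul_apply, LinearMap.proj_apply, smul_eq_mul, mul_comm]
  have h1 : ∀ v, Kn al p m v = (Ep al p Φ) v := by
    intro v
    have h2 := Lbx.Ep_map (LinearMap.proj v : (n.Partition → K) →ₗ[K] K) al p Φ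
    rw [LinearMap.proj_apply] at h2
    rw [h2, hΦ]
    unfold Kn
    refine congrArg (Ep al p) ?_
    funext S
    rw [LinearMap.proj_apply]
  have h3 : ∑ v : n.Partition, Kn al p m v * (v.parts.map g).prod = f (Ep al p Φ) := by
    rw [hf']
    exact Finset.sum_congr rfl fun v _ => by rw [h1]
  rw [h3, Lbx.Ep_map]
  have h4 := Lbx.Ep_map (lcoeff K (expo m)) al p (fun S => (C ((S.1.map g).prod) : Lam K) *
    (S.2.2.map fun z => (X z.length : Lam K)).prod)
  rw [lcoeff_apply] at h4
  rw [h4]
  apply Lbx.Ep_congr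
  intro S hS
  rw [hp] at hS
  obtain ⟨-, -, h5, h6⟩ := hS
  have hΦ' : ∀ v, Φ S v = if (S.1 : Multiset ℕ) = v.parts ∧
      ((S.2.2.map List.length : List ℕ) : Multiset ℕ) = m.parts then (1 : K) else 0 := by
    intro v
    rw [hΦ]
  rw [lcoeff_apply, coeff_C_mul, Lbx.coeff_prod_X, hf']
  obtain ⟨v0, hv0⟩ : ∃ v0 : n.Partition, v0.parts = (S.1 : Multiset ℕ) :=
    ⟨⟨(S.1 : Multiset ℕ), fun {i} hi => h6 i (by simpa using hi), by simpa using h5⟩, rfl⟩
  rw [Finset.sum_eq_single v0]
  · rw [hΦ', hv0]
    by_cases h : ((S.2.2.map List.length : List ℕ) : Multiset ℕ) = m.parts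
    · rw [if_pos h, if_pos ⟨rfl, h⟩, mul_one, one_mul]
      rfl
    · rw [if_neg h, if_neg (fun h7 => h h7.2), mul_zero, zero_mul]
  · intro v _ hv
    rw [hΦ', if_neg, zero_mul]
    rintro ⟨h7, -⟩
    apply hv
    apply Nat.Partition.ext
    rw [hv0, h7]
  · intro h7
    exact absurd (Finset.mem_univ _) h7

/-! ### Colourings of the labels -/

namespace Lbx

/-- The sum over the colourings of the labels `< N`. -/
def sumB {V : Type} [AddCommMonoid V] : ℕ → ((ℕ → Bool) → V) → V
  | 0, F => F fun _ => false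
  | N + 1, F => sumB N fun γ => F (Function.update γ N false) + F (Function.update γ N true)

section sumB
variable {V W : Type} [AddCommMonoid V] [AddCommMonoid W]

theorem sumB_succ (N : ℕ) (F : (ℕ → Bool) → V) : sumB (N + 1) F =
    sumB N fun γ => F (Function.update γ N false) + F (Function.update γ N true) := rfl

theorem sumB_add (N : ℕ) (F G : (ℕ → Bool) → V) :
    sumB N (fun γ => F γ + G γ) = sumB N F + sumB N G := by
  induction N generalizing F G with
  | zero => rfl
  | succ N ih =>
    rw [sumB_succ, sumB_succ, sumB_succ, ← ih]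
    congr 1
    funext γ
    abel

theorem sumB_zero (N : ℕ) : sumB N (fun _ => (0 : V)) = 0 := by
  induction N with
  | zero => rfl
  | succ N ih =>
    rw [sumB_succ]
    simp only [add_zero]
    exact ih

theorem sumB_hom (f : V →+ W) (N : ℕ) (F : (ℕ → Bool) → V) :
    f (sumB N F) = sumB N (fun γ => f (F γ)) := by
  induction N generalizing F with
  | zero => rfl
  | succ N ih =>
    rw [sumB_succ, sumB_succ, ih]
    simp only [map_add]

theorem spl_sumB {α : Type} (N : ℕ) (G : List α → α → List α → (ℕ → Bool) → V) (L : List α) :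
    spl (fun X x Y => sumB N (G X x Y)) L =
      sumB N (fun γ => spl (fun X x Y => G X x Y γ) L) := by
  induction L generalizing G with
  | nil => rw [spl_nil]; exact (sumB_zero N).symm
  | cons l L ih =>
    rw [spl_cons, ih, ← sumB_add]
    rfl

theorem spl_map {α β : Type} (g : α → β) (φ : List β → β → List β → V) (L : List α) :
    spl φ (L.map g) = spl (fun X x Y => φ (X.map g) (g x) (Y.map g)) L := by
  induction L generalizing φ with
  | nil => rfl
  | cons l L ih =>
    rw [List.map_cons, spl_cons, spl_cons, ih]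
    rfl

end sumB

variable {K : Type} [Field K]

theorem sumB_smul {V : Type} [AddCommGroup V] [Module K V] (c : K) (N : ℕ)
    (F : (ℕ → Bool) → V) : c • sumB N F = sumB N (fun γ => c • F γ) := by
  have h := sumB_hom (DistribSMul.toAddMonoidHom V c) N F
  exact h

/-- the weight of a colour -/
def wc (u u2 s : K) (c : Bool) (k : ℕ) : K := if c = true then u2 * s ^ k else u

/-- the weight of a touch -/
def sw (s : K) (c : Bool) : K := if c = true then s else 1

/-- the weight of a colouring -/
def wt (u u2 s : K) (γ : ℕ → Bool) (σ : List ℕ) : K :=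
  ∏ i ∈ Finset.range σ.length, wc u u2 s (γ i) (σ.getD i 0)

theorem wt_stay (u u2 s : K) (γ : ℕ → Bool) (σ : List ℕ) (c : Bool) :
    wt u u2 s (Function.update γ σ.length c) (σ ++ [1]) = wt u u2 s γ σ * wc u u2 s c 1 := by
  unfold wt
  rw [List.length_append, List.length_singleton, Finset.prod_range_succ]
  congr 1
  · apply Finset.prod_congr rfl
    intro i hi
    have hi' := Finset.mem_range.1 hi
    rw [Function.update_of_ne (by omega), List.getD_append _ _ _ _ hi']
  · rw [Function.update_self, List.getD_append_right _ _ _ _ le_rfl, Nat.sub_self]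
    rfl

theorem wc_succ (u u2 s : K) (c : Bool) (k : ℕ) :
    wc u u2 s c (k + 1) = wc u u2 s c k * sw s c := by
  unfold wc sw
  cases c
  · simp
  · simp [pow_succ, mul_assoc]

theorem inc_getD (σ : List ℕ) (l i : ℕ) (hl : l < σ.length) :
    (inc σ l).getD i 0 = if i = l then σ.getD i 0 + 1 else σ.getD i 0 := by
  unfold inc
  rw [List.getD_eq_getElem?_getD, List.getD_eq_getElem?_getD, List.getElem?_modify]
  by_cases h : i = l
  · subst h
    rw [if_pos rfl, List.getElem?_eq_getElem hl]
    simp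
  · have h' : ¬ l = i := fun h2 => h h2.symm
    rw [if_neg h]
    simp [h']

theorem wt_inc (u u2 s : K) (γ : ℕ → Bool) (σ : List ℕ) (l : ℕ) (hl : l < σ.length) :
    wt u u2 s γ (inc σ l) = wt u u2 s γ σ * sw s (γ l) := by
  unfold wt
  rw [inc_length, ← Finset.mul_prod_erase _ _ (Finset.mem_range.2 hl),
    ← Finset.mul_prod_erase (Finset.range σ.length) (fun i => wc u u2 s (γ i) (σ.getD i 0))
      (Finset.mem_range.2 hl)]
  have h1 : ∏ i ∈ (Finset.range σ.length).erase l, wc u u2 s (γ i) ((inc σ l).getD i 0) =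
      ∏ i ∈ (Finset.range σ.length).erase l, wc u u2 s (γ i) (σ.getD i 0) := by
    apply Finset.prod_congr rfl
    intro i hi
    rw [inc_getD _ _ _ hl, if_neg (Finset.mem_erase.1 hi).1]
  rw [h1, inc_getD _ _ _ hl, if_pos rfl, wc_succ]
  ring

theorem sumB_wt (u u2 s : K) (σ : List ℕ) :
    sumB σ.length (fun γ => wt u u2 s γ σ) = (σ.map fun k => u + u2 * s ^ k).prod := by
  have h : ∀ (N : ℕ) (a : ℕ → ℕ), sumB N (fun γ => ∏ i ∈ Finset.range N, wc u u2 s (γ i) (a i)) =
      ∏ i ∈ Finset.range N, (u + u2 * s ^ (a i)) := by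
    intro N a
    induction N with
    | zero => rfl
    | succ N ih =>
      rw [sumB_succ, Finset.prod_range_succ, ← ih]
      have h1 : ∀ γ : ℕ → Bool, ∏ i ∈ Finset.range (N + 1),
          wc u u2 s (Function.update γ N false i) (a i) +
          ∏ i ∈ Finset.range (N + 1), wc u u2 s (Function.update γ N true i) (a i) =
          (u + u2 * s ^ (a N)) * ∏ i ∈ Finset.range N, wc u u2 s (γ i) (a i) := by
        intro γ
        have h2 : ∀ c, ∏ i ∈ Finset.range (N + 1), wc u u2 s (Function.update γ N c i) (a i) =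
            (∏ i ∈ Finset.range N, wc u u2 s (γ i) (a i)) * wc u u2 s c (a N) := by
          intro c
          rw [Finset.prod_range_succ, Function.update_self]
          congr 1
          apply Finset.prod_congr rfl
          intro i hi
          have hi' := Finset.mem_range.1 hi
          rw [Function.update_of_ne (by omega)]
        rw [h2, h2]
        unfold wc
        simp only [if_true, Bool.false_eq_true, if_false]
        ring
      simp only [h1]
      have h3 := sumB_smul (u + u2 * s ^ (a N)) N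
        (fun γ => ∏ i ∈ Finset.range N, wc u u2 s (γ i) (a i))
      simp only [smul_eq_mul] at h3
      rw [← h3, mul_comm]
  unfold wt
  rw [h σ.length (fun i => σ.getD i 0)]
  induction σ using List.reverseRecOn with
  | nil => rfl
  | append_singleton σ k ih =>
    rw [List.length_append, List.length_singleton, Finset.prod_range_succ, List.map_append,
      List.prod_append, List.map_singleton, List.prod_singleton, ← ih]
    congr 1
    · apply Finset.prod_congr rfl
      intro i hi
      have hi' := Finset.mem_range.1 hi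
      rw [List.getD_append _ _ _ _ hi']
    · rw [List.getD_append_right _ _ _ _ le_rfl, Nat.sub_self]
      rfl

/-! ### Coloured states -/

/-- the cycles with colours -/
def Pg (K : Type) [Field K] (γ : ℕ → Bool) (Cs : List (List ℕ)) : CW K :=
  (Cs.map fun z => cy K (z.map γ)).prod

/-- the state with colours -/
def Eg (K : Type) [Field K] (γ : ℕ → Bool) (W : List ℕ) (Cs : List (List ℕ)) : RW K :=
  Pg K γ Cs • rw1 K (W.map γ)

theorem Pg_cons (γ : ℕ → Bool) (z : List ℕ) (Cs : List (List ℕ)) :
    Pg K γ (z :: Cs) = cy K (z.map γ) * Pg K γ Cs := by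
  unfold Pg
  rw [List.map_cons, List.prod_cons]

theorem Csmul (c : K) (x : RW K) : (C c : CW K) • x = c • x := by
  rw [← algebraMap_eq, algebraMap_smul]

theorem pre_smul (L : List Bool) (c : CW K) (x : RW K) : pre L (c • x) = c • pre L x :=
  map_smul _ _ _

/-- the linear map `x ↦ sw c • pre [c] x` -/
def Pr (s : K) (c : Bool) : RW K →ₗ[K] RW K :=
  sw s c • (pre [c] : RW K →ₗ[CW K] RW K).restrictScalars K

theorem Pr_apply (s : K) (c : Bool) (x : RW K) : Pr s c x = sw s c • pre [c] x := rfl

theorem Aw_eq (al u u2 s : K) (x : RW K) : Aw al u u2 s x =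
    wc u u2 s false 1 • pre [false] x + wc u u2 s true 1 • pre [true] x +
      (Pr s false (T al false x) + Pr s true (T al true x)) := by
  have h : Aw al u u2 s x = pre [false] (u • x + T al false x) +
      s • pre [true] (u2 • x + T al true x) := rfl
  have hk : ∀ (L : List Bool) (c : K) (x : RW K), pre L (c • x) = c • pre L x := fun L c x =>
    LinearMap.map_smul_of_tower (pre L : RW K →ₗ[CW K] RW K) c x
  rw [h, Pr_apply, Pr_apply, map_add, map_add, hk, hk]
  unfold wc sw
  simp only [if_true, Bool.false_eq_true, if_false, pow_one, one_smul, smul_add, smul_smul]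
  rw [mul_comm s u2]
  abel

theorem tch_map (al : K) (γ : ℕ → Bool) (c : Bool) (W : List ℕ) :
    tch al c (W.map γ) = spl (fun X l Y => if γ l = c then
      cy K (X.map γ ++ [c]) • rw1 K (Y.map γ) +
        (C (al - 1) : CW K) • rw1 K ((X.map γ).reverse ++ c :: Y.map γ) else 0) W := by
  unfold tch
  rw [spl_map]

theorem opn_map (al : K) (γ : ℕ → Bool) (c : Bool) (z : List ℕ) :
    opn al c (z.map γ) = spl (fun X l Y => if γ l = c then
      rw1 K (Y.map γ ++ X.map γ ++ [c]) +
        (C (al - 1) : CW K) • rw1 K ((Y.map γ ++ X.map γ).reverse ++ [c]) else 0) z := by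
  unfold opn
  rw [spl_map]

/-- touches of the root word -/
theorem touch_root (al s : K) (γ : ℕ → Bool) (W : List ℕ) (Cs : List (List ℕ)) :
    Pr s false (Pg K γ Cs • tch al false (W.map γ)) +
      Pr s true (Pg K γ Cs • tch al true (W.map γ)) =
    spl (fun X l Y => sw s (γ l) • (Eg K γ (l :: Y) ((X ++ [l]) :: Cs) +
      (al - 1) • Eg K γ (l :: (X.reverse ++ l :: Y)) Cs)) W := by
  have h : ∀ c, Pr s c (Pg K γ Cs • tch al c (W.map γ)) = spl (fun X l Y => if γ l = c then
      sw s (γ l) • (Eg K γ (l :: Y) ((X ++ [l]) :: Cs) +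
      (al - 1) • Eg K γ (l :: (X.reverse ++ l :: Y)) Cs) else 0) W := by
    intro c
    rw [tch_map]
    have h1 := spl_lin (Pr s c ∘ₗ (LinearMap.lsmul (CW K) (RW K) (Pg K γ Cs)).restrictScalars K)
      (fun X l Y => if γ l = c then
      cy K (X.map γ ++ [c]) • rw1 K (Y.map γ) +
        (C (al - 1) : CW K) • rw1 K ((X.map γ).reverse ++ c :: Y.map γ) else 0) W
    refine Eq.trans h1 ?_
    apply spl_congr
    intro X l Y
    by_cases hc : γ l = c
    · rw [if_pos hc, if_pos hc]
      subst hc
      change Pr s (γ l) (Pg K γ Cs • _) = _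
      rw [Pr_apply, pre_smul, map_add, pre_smul, pre_smul, pre_rw1, pre_rw1, Csmul]
      refine congrArg (fun z => sw s (γ l) • z) ?_
      unfold Eg
      rw [Pg_cons, smul_add, smul_smul, mul_comm, smul_comm (Pg K γ Cs) (al - 1)]
      simp
    · rw [if_neg hc, if_neg hc, map_zero]
  rw [h, h, ← spl_add]
  apply spl_congr
  intro X l Y
  cases γ l <;> simp

theorem J_prod (al : K) (c : Bool) (γ : ℕ → Bool) (Cs : List (List ℕ)) :
    J al c (Pg K γ Cs) = spl (fun A z B => Pg K γ (A ++ B) • opn al c (z.map γ)) Cs := by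
  induction Cs with
  | nil =>
    unfold Pg
    rw [List.map_nil, List.prod_nil, Derivation.map_one_eq_zero]
    rfl
  | cons z Cs ih =>
    rw [Pg_cons, Derivation.leibniz, ih, J_cy, spl_cons, List.nil_append, add_comm]
    congr 1
    have h := spl_hom (DistribSMul.toAddMonoidHom (RW K) (cy K (z.map γ)))
      (fun A z B => Pg K γ (A ++ B) • opn al c (z.map γ)) Cs
    refine Eq.trans h ?_
    apply spl_congr
    intro A z' B
    change cy K (z.map γ) • (Pg K γ (A ++ B) • opn al c (z'.map γ)) = _
    rw [List.cons_append, Pg_cons, smul_smul]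

/-- touches of the cycles -/
theorem touch_cyc (al s : K) (γ : ℕ → Bool) (W : List ℕ) (Cs : List (List ℕ)) :
    Pr s false (app (W.map γ) (J al false (Pg K γ Cs))) +
      Pr s true (app (W.map γ) (J al true (Pg K γ Cs))) =
    spl (fun A z B => spl (fun X l Y =>
      sw s (γ l) • (Eg K γ (l :: (Y ++ X ++ l :: W)) (A ++ B) +
      (al - 1) • Eg K γ (l :: ((Y ++ X).reverse ++ l :: W)) (A ++ B))) z) Cs := by
  have h : ∀ c, Pr s c (app (W.map γ) (J al c (Pg K γ Cs))) = spl (fun A z B =>
      spl (fun X l Y => if γ l = c then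
      sw s (γ l) • (Eg K γ (l :: (Y ++ X ++ l :: W)) (A ++ B) +
      (al - 1) • Eg K γ (l :: ((Y ++ X).reverse ++ l :: W)) (A ++ B)) else 0) z) Cs := by
    intro c
    rw [J_prod]
    have h1 := spl_lin (Pr s c ∘ₗ (app (W.map γ) : RW K →ₗ[CW K] RW K).restrictScalars K)
      (fun A z B => Pg K γ (A ++ B) • opn al c (z.map γ)) Cs
    refine Eq.trans h1 ?_
    apply spl_congr
    intro A z B
    rw [opn_map]
    have h2 := spl_lin ((Pr s c ∘ₗ (app (W.map γ) : RW K →ₗ[CW K] RW K).restrictScalars K) ∘ₗ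
      (LinearMap.lsmul (CW K) (RW K) (Pg K γ (A ++ B))).restrictScalars K)
      (fun X l Y => if γ l = c then
      rw1 K (Y.map γ ++ X.map γ ++ [c]) +
        (C (al - 1) : CW K) • rw1 K ((Y.map γ ++ X.map γ).reverse ++ [c]) else 0) z
    refine Eq.trans h2 ?_
    apply spl_congr
    intro X l Y
    by_cases hc : γ l = c
    · rw [if_pos hc, if_pos hc]
      subst hc
      change Pr s (γ l) (app (W.map γ) (Pg K γ (A ++ B) • _)) = _
      rw [Pr_apply, app_smul, pre_smul, map_add, app_smul, map_add, pre_smul, app_rw1, app_rw1,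
        pre_rw1, pre_rw1, Csmul]
      refine congrArg (fun z => sw s (γ l) • z) ?_
      unfold Eg
      rw [smul_add, smul_comm (Pg K γ (A ++ B)) (al - 1)]
      simp
    · rw [if_neg hc, if_neg hc, map_zero]
  rw [h, h, ← spl_add]
  apply spl_congr
  intro A z B
  rw [← spl_add]
  apply spl_congr
  intro X l Y
  cases γ l <;> simp

/-- one step for one colouring -/
theorem step_gamma (al u u2 s : K) (γ : ℕ → Bool) (W : List ℕ) (Cs : List (List ℕ)) :
    Aw al u u2 s (Eg K γ W Cs) =
      wc u u2 s false 1 • (Pg K γ Cs • rw1 K (false :: W.map γ)) +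
      wc u u2 s true 1 • (Pg K γ Cs • rw1 K (true :: W.map γ)) +
      spl (fun X l Y => sw s (γ l) • (Eg K γ (l :: Y) ((X ++ [l]) :: Cs) +
        (al - 1) • Eg K γ (l :: (X.reverse ++ l :: Y)) Cs)) W +
      spl (fun A z B => spl (fun X l Y =>
        sw s (γ l) • (Eg K γ (l :: (Y ++ X ++ l :: W)) (A ++ B) +
        (al - 1) • Eg K γ (l :: ((Y ++ X).reverse ++ l :: W)) (A ++ B))) z) Cs := by
  have h : ∀ c, T al c (Eg K γ W Cs) = Pg K γ Cs • tch al c (W.map γ) +
      app (W.map γ) (J al c (Pg K γ Cs)) := by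
    intro c
    unfold Eg
    rw [T_smul, T_rw1, cat_rw1]
  rw [Aw_eq, h, h, map_add, map_add, ← touch_root, ← touch_cyc]
  unfold Eg
  rw [pre_smul, pre_smul, pre_rw1, pre_rw1, List.singleton_append, List.singleton_append]
  abel

/-- The labelled state as a sum over the colourings. -/
def Ps (u u2 s : K) (S : Stt) : RW K :=
  sumB S.1.length fun γ => wt u u2 s γ S.1 • Eg K γ S.2.1 S.2.2

theorem map_upd (γ : ℕ → Bool) (N : ℕ) (c : Bool) (z : List ℕ) (h : ∀ x ∈ z, x < N) :
    z.map (Function.update γ N c) = z.map γ := by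
  apply List.map_congr_left
  intro x hx
  rw [Function.update_of_ne (h x hx).ne]

theorem Pg_upd (γ : ℕ → Bool) (N : ℕ) (c : Bool) (Cs : List (List ℕ))
    (h : ∀ z ∈ Cs, ∀ x ∈ z, x < N) : Pg K (Function.update γ N c) Cs = Pg K γ Cs := by
  unfold Pg
  congr 1
  apply List.map_congr_left
  intro z hz
  rw [map_upd γ N c z (h z hz)]

theorem Ps_inc (u u2 s : K) (σ W : List ℕ) (Cs : List (List ℕ)) (l : ℕ) (hl : l < σ.length) :
    Ps u u2 s (inc σ l, W, Cs) =
      sumB σ.length fun γ => wt u u2 s γ σ • (sw s (γ l) • Eg K γ W Cs) := by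
  unfold Ps
  change sumB (inc σ l).length _ = _
  rw [inc_length]
  congr 1
  funext γ
  rw [wt_inc _ _ _ _ _ _ hl, smul_smul]

theorem Ps_touch (al u u2 s : K) (σ W W' : List ℕ) (Cs Cs' : List (List ℕ)) (l : ℕ)
    (hl : l < σ.length) :
    Ps u u2 s (inc σ l, W, Cs) + (al - 1) • Ps u u2 s (inc σ l, W', Cs') =
      sumB σ.length fun γ => wt u u2 s γ σ •
        (sw s (γ l) • (Eg K γ W Cs + (al - 1) • Eg K γ W' Cs')) := by
  rw [Ps_inc _ _ _ _ _ _ _ hl, Ps_inc _ _ _ _ _ _ _ hl, sumB_smul, ← sumB_add]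
  congr 1
  funext γ
  rw [smul_add, smul_add, smul_comm (al - 1), smul_comm (al - 1)]

theorem spl_smul {α V : Type} [AddCommGroup V] [Module K V] (c : K)
    (φ : List α → α → List α → V) (L : List α) :
    spl (fun X x Y => c • φ X x Y) L = c • spl φ L :=
  (spl_hom (DistribSMul.toAddMonoidHom V c) φ L).symm

theorem stp_Ps (al u u2 s : K) {t : ℕ} {S : Stt} (hS : Inv t S) :
    stp al (Ps u u2 s) S = Aw al u u2 s (Ps u u2 s S) := by
  obtain ⟨σ, W, Cs⟩ := S
  obtain ⟨h1, h2, h3, h4⟩ := hS
  simp only at h1 h2 h3 h4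
  have e1 : Ps u u2 s (σ ++ [1], σ.length :: W, Cs) = sumB σ.length fun γ =>
      wt u u2 s γ σ • (wc u u2 s false 1 • (Pg K γ Cs • rw1 K (false :: W.map γ)) +
      wc u u2 s true 1 • (Pg K γ Cs • rw1 K (true :: W.map γ))) := by
    unfold Ps
    change sumB (σ ++ [1]).length (fun γ => wt u u2 s γ (σ ++ [1]) •
      Eg K γ (σ.length :: W) Cs) = _
    rw [List.length_append, List.length_singleton, sumB_succ]
    congr 1
    funext γ
    rw [wt_stay, wt_stay]
    unfold Eg
    rw [Pg_upd _ _ _ _ h2, Pg_upd _ _ _ _ h2, List.map_cons, List.map_cons, map_upd _ _ _ _ h1,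
      map_upd _ _ _ _ h1, Function.update_self, Function.update_self, smul_add, smul_smul,
      smul_smul]
  have e2 : spl (fun X l Y => Ps u u2 s (inc σ l, l :: Y, (X ++ [l]) :: Cs) +
      (al - 1) • Ps u u2 s (inc σ l, l :: (X.reverse ++ l :: Y), Cs)) W =
      sumB σ.length fun γ => wt u u2 s γ σ •
        spl (fun X l Y => sw s (γ l) • (Eg K γ (l :: Y) ((X ++ [l]) :: Cs) +
        (al - 1) • Eg K γ (l :: (X.reverse ++ l :: Y)) Cs)) W := by
    have e : ∀ X l Y, W = X ++ l :: Y → Ps u u2 s (inc σ l, l :: Y, (X ++ [l]) :: Cs) +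
        (al - 1) • Ps u u2 s (inc σ l, l :: (X.reverse ++ l :: Y), Cs) =
        sumB σ.length fun γ => wt u u2 s γ σ •
          (sw s (γ l) • (Eg K γ (l :: Y) ((X ++ [l]) :: Cs) +
          (al - 1) • Eg K γ (l :: (X.reverse ++ l :: Y)) Cs)) := by
      intro X l Y hW
      exact Ps_touch al u u2 s σ _ _ _ _ l (h1 l (by rw [hW]; simp))
    rw [spl_congr' e, spl_sumB]
    congr 1
    funext γ
    exact spl_smul _ _ _
  have e3 : spl (fun A z B => spl (fun X l Y =>
      Ps u u2 s (inc σ l, l :: (Y ++ X ++ l :: W), A ++ B) +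
      (al - 1) • Ps u u2 s (inc σ l, l :: ((Y ++ X).reverse ++ l :: W), A ++ B)) z) Cs =
      sumB σ.length fun γ => wt u u2 s γ σ • spl (fun A z B => spl (fun X l Y =>
        sw s (γ l) • (Eg K γ (l :: (Y ++ X ++ l :: W)) (A ++ B) +
        (al - 1) • Eg K γ (l :: ((Y ++ X).reverse ++ l :: W)) (A ++ B))) z) Cs := by
    have e : ∀ A z B, Cs = A ++ z :: B → spl (fun X l Y =>
        Ps u u2 s (inc σ l, l :: (Y ++ X ++ l :: W), A ++ B) +
        (al - 1) • Ps u u2 s (inc σ l, l :: ((Y ++ X).reverse ++ l :: W), A ++ B)) z =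
        sumB σ.length fun γ => wt u u2 s γ σ • spl (fun X l Y =>
          sw s (γ l) • (Eg K γ (l :: (Y ++ X ++ l :: W)) (A ++ B) +
          (al - 1) • Eg K γ (l :: ((Y ++ X).reverse ++ l :: W)) (A ++ B))) z := by
      intro A z B hC
      have e' : ∀ X l Y, z = X ++ l :: Y →
          Ps u u2 s (inc σ l, l :: (Y ++ X ++ l :: W), A ++ B) +
          (al - 1) • Ps u u2 s (inc σ l, l :: ((Y ++ X).reverse ++ l :: W), A ++ B) =
          sumB σ.length fun γ => wt u u2 s γ σ •
            (sw s (γ l) • (Eg K γ (l :: (Y ++ X ++ l :: W)) (A ++ B) +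
            (al - 1) • Eg K γ (l :: ((Y ++ X).reverse ++ l :: W)) (A ++ B))) := by
        intro X l Y hz
        exact Ps_touch al u u2 s σ _ _ _ _ l (h2 z (by rw [hC]; simp) l (by rw [hz]; simp))
      rw [spl_congr' e', spl_sumB]
      congr 1
      funext γ
      exact spl_smul _ _ _
    rw [spl_congr' e, spl_sumB]
    congr 1
    funext γ
    exact spl_smul _ _ _
  have e4 : Aw al u u2 s (Ps u u2 s (σ, W, Cs)) =
      sumB σ.length fun γ => wt u u2 s γ σ • Aw al u u2 s (Eg K γ W Cs) := by
    unfold Ps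
    have h := sumB_hom (Aw al u u2 s).toAddMonoidHom σ.length
      (fun γ => wt u u2 s γ σ • Eg K γ W Cs)
    refine Eq.trans h ?_
    congr 1
    funext γ
    change Aw al u u2 s (wt u u2 s γ σ • Eg K γ W Cs) = _
    rw [map_smul]
  have e0 : stp al (Ps u u2 s) (σ, W, Cs) =
      Ps u u2 s (σ ++ [1], σ.length :: W, Cs) +
      spl (fun X l Y => Ps u u2 s (inc σ l, l :: Y, (X ++ [l]) :: Cs) +
      (al - 1) • Ps u u2 s (inc σ l, l :: (X.reverse ++ l :: Y), Cs)) W +
      spl (fun A z B => spl (fun X l Y =>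
      Ps u u2 s (inc σ l, l :: (Y ++ X ++ l :: W), A ++ B) +
      (al - 1) • Ps u u2 s (inc σ l, l :: ((Y ++ X).reverse ++ l :: W), A ++ B)) z) Cs := rfl
  rw [e0, e1, e2, e3, e4, ← sumB_add, ← sumB_add]
  congr 1
  funext γ
  rw [step_gamma, smul_add (wt u u2 s γ σ) (_ + _) (spl _ Cs),
    smul_add (wt u u2 s γ σ) (_ + _) (spl _ W)]

theorem iter_Ps (al u u2 s : K) (k : ℕ) {t : ℕ} {S : Stt} (hS : Inv t S) :
    (stp al)^[k] (Ps u u2 s) S = (Aw al u u2 s ^ k) (Ps u u2 s S) := by
  induction k generalizing t with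
  | zero => rfl
  | succ k ih =>
    rw [Function.iterate_succ_apply, iter_congr k (fun S hS => stp_Ps al u u2 s hS) hS,
      ← iter_map, ih hS, pow_succ', Module.End.mul_apply]

/-- closing and adding the empty root word -/
def Oc (K : Type) [Field K] : RW K →ₗ[K] RW K := iw K ∘ₗ (clw K).restrictScalars K

theorem cls_Ps (u u2 s : K) (S : Stt) : cls (Ps u u2 s) S = Oc K (Ps u u2 s S) := by
  obtain ⟨σ, W, Cs⟩ := S
  unfold cls Ps
  have h := sumB_hom (Oc K).toAddMonoidHom σ.length
    (fun γ => wt u u2 s γ σ • Eg K γ W Cs)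
  refine Eq.trans ?_ h.symm
  congr 1
  funext γ
  change _ = Oc K (wt u u2 s γ σ • Eg K γ W Cs)
  rw [map_smul]
  refine congrArg (fun z => wt u u2 s γ σ • z) ?_
  change Pg K γ (W :: Cs) • rw1 K [] = iw K (clw K (Pg K γ Cs • rw1 K (W.map γ)))
  rw [map_smul, clw_rw1, Pg_cons, smul_eq_mul, mul_comm]
  exact (single_eq [] _).symm

theorem Ep_Ps (al u u2 s : K) (p : List ℕ) :
    Ep al p (Ps u u2 s) = iw K (Kw al u u2 s p) := by
  induction p with
  | nil =>
    change Ps u u2 s ([], [], []) = iw K 1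
    unfold Ps wt Eg Pg
    change (∏ i ∈ Finset.range 0, _) • ((1 : CW K) • rw1 K []) = _
    rw [Finset.range_zero, Finset.prod_empty, one_smul]
    exact (single_eq [] _).symm
  | cons k p ih =>
    change Ep al p ((stp al)^[k] (cls (Ps u u2 s))) = _
    have h1 : cls (Ps u u2 s) = fun S => Oc K (Ps u u2 s S) := by
      funext S
      exact cls_Ps u u2 s S
    have h2 : ∀ S, Inv p.sum S → (stp al)^[k] (cls (Ps u u2 s)) S =
        (Oc K ∘ₗ (Aw al u u2 s ^ k)) (Ps u u2 s S) := by
      intro S hS
      rw [h1, ← iter_map, iter_Ps al u u2 s k hS]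
      rfl
    rw [Ep_congr p h2, ← Ep_map, ih]
    rfl

/-- forgetting the root word and the colours -/
def Fg (K : Type) [Field K] : RW K →ₗ[K] Lam K := Finsupp.lsum K fun _ => (fgt K).toLinearMap

theorem fgt_Pg (γ : ℕ → Bool) (Cs : List (List ℕ)) :
    fgt K (Pg K γ Cs) = (Cs.map fun z => (X z.length : Lam K)).prod := by
  unfold Pg
  rw [map_list_prod, List.map_map]
  congr 1
  apply List.map_congr_left
  intro z _
  change fgt K (X ((z.map γ : List Bool) : Cycle Bool)) = _
  unfold fgt
  rw [aeval_X, Cycle.length_coe, List.length_map]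

end Lbx

/-- (L2) -/
theorem lab (K : Type) [Field K] : St_lab K := by
  intro al u u2 s p
  have h1 : fgt K (Kw al u u2 s p) = Lbx.Fg K (iw K (Kw al u u2 s p)) := by
    unfold Lbx.Fg iw
    rw [Finsupp.lsingle_apply, Finsupp.lsum_single]
    rfl
  rw [h1, ← Lbx.Ep_Ps, Lbx.Ep_map]
  refine congrArg (Ep al p) ?_
  funext S
  obtain ⟨σ, W, Cs⟩ := S
  unfold Lbx.Ps
  have h2 := Lbx.sumB_hom (Lbx.Fg K).toAddMonoidHom σ.length
    (fun γ => Lbx.wt u u2 s γ σ • Lbx.Eg K γ W Cs)
  refine Eq.trans h2 ?_
  have h3 : ∀ γ, (Lbx.Fg K).toAddMonoidHom (Lbx.wt u u2 s γ σ • Lbx.Eg K γ W Cs) =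
      C (Lbx.wt u u2 s γ σ) * (Cs.map fun z => (X z.length : Lam K)).prod := by
    intro γ
    change Lbx.Fg K (Lbx.wt u u2 s γ σ • Lbx.Eg K γ W Cs) = _
    rw [map_smul, ← smul_eq_C_mul, ← Lbx.fgt_Pg γ Cs]
    refine congrArg (fun z => Lbx.wt u u2 s γ σ • z) ?_
    unfold Lbx.Eg Lbx.Fg
    rw [← single_eq, Finsupp.lsum_single]
    rfl
  simp only [h3]
  have h4 := Lbx.sumB_hom (AddMonoidHom.mulRight (Cs.map fun z => (X z.length : Lam K)).prod)
    σ.length (fun γ => (C (Lbx.wt u u2 s γ σ) : Lam K))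
  have h5 := Lbx.sumB_hom ((C : K →+* Lam K).toAddMonoidHom) σ.length
    (fun γ => Lbx.wt u u2 s γ σ)
  rw [Lbx.sumB_wt] at h5
  refine Eq.trans h4.symm ?_
  change Lbx.sumB σ.length (fun γ => (C (Lbx.wt u u2 s γ σ) : Lam K)) * _ = _
  refine congrArg (fun z => z * _) ?_
  exact h5.symm

end

end Pool.Agent.MJF
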