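import Pool.Agent.MJF.TIIc

/-!
The values of the touches on the words with at most one mark.
-/

namespace Pool.Agent.MJF

open MvPolynomial Pool.Agent.MJR

noncomputable section

variable {K : Type} [Field K]

theorem zs_add (i j : ℕ) : zs i ++ zs j = zs (i + j) := by
  rw [← List.replicate_add]

theorem zs_rev (i : ℕ) : (zs i).reverse = zs i := List.reverse_replicate

theorem bC_smul (al : K) (x : RW K) : bC al • x = (al - 1) • x := by
  rw [← one_smul (CW K) x, ← smul_assoc, ← smul_assoc, smul_eq_mul, Algebra.smul_def, mul_one,
    mul_one]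
  rfl

theorem smul_rw1_add (al : K) (x : RW K) : x + bC al • x = al • x := by
  rw [bC_smul, sub_smul, one_smul]
  abel

theorem opn_zs (al : K) (k : ℕ) : opn al false (zs k) = (al * k) • rw1 K (zs k) := by
  rw [opn_Om, spl_replicate]
  have h : ∀ i ∈ Finset.range k, (if false = false then
      Om al (rw1 K (List.replicate (k - 1 - i) false ++ List.replicate i false)) else 0) =
      al • rw1 K (zs k) := by
    intro i hi
    rw [Finset.mem_range] at hi
    rw [if_pos rfl, Om_rw1]
    have e : List.replicate (k - 1 - i) false ++ List.replicate i false = zs (k - 1) := by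
      rw [zs_add]
      congr 1
      omega
    have e2 : k - 1 + 1 = k := by omega
    rw [e, zs_rev, zs_snoc, e2, smul_rw1_add]
  rw [Finset.sum_congr rfl h, Finset.sum_const, Finset.card_range, ← Nat.cast_smul_eq_nsmul K,
    smul_smul, mul_comm]

theorem cat_smulL (c : K) (y x : RW K) : cat (c • y) x = c • cat y x := by
  have h : c • y = (C c : CW K) • y := by
    rw [← one_smul (CW K) y, ← smul_assoc, ← smul_assoc, smul_eq_mul, Algebra.smul_def, mul_one,
      mul_one]
    rfl
  have h2 : ∀ z : RW K, (C c : CW K) • z = c • z := by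
    intro z
    rw [← one_smul (CW K) z, ← smul_assoc, ← smul_assoc, smul_eq_mul, Algebra.smul_def, mul_one,
      mul_one]
    rfl
  rw [h, cat_smul, h2]

theorem tp (K : Type) [Field K] : St_Tp K := by
  intro al k x
  rw [T_smul, J_cy]
  change _ + cat (opn al false (zs k)) x = _
  rw [opn_zs, cat_smulL, cat_rw1_left]

theorem tch_zs (al : K) (a : ℕ) : tch al false (zs a) = ((al - 1) * a) • rw1 K (zs a) +
    ∑ i ∈ Finset.range a, cy K (zs (i + 1)) • rw1 K (zs (a - 1 - i)) := by
  unfold tch
  rw [spl_replicate]
  have h : ∀ i ∈ Finset.range a, (if false = false then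
      cy K (List.replicate i false ++ [false]) • rw1 K (List.replicate (a - 1 - i) false) +
        (C (al - 1) : CW K) • rw1 K ((List.replicate i false).reverse ++
          false :: List.replicate (a - 1 - i) false) else 0) =
      cy K (zs (i + 1)) • rw1 K (zs (a - 1 - i)) + (al - 1) • rw1 K (zs a) := by
    intro i hi
    rw [Finset.mem_range] at hi
    rw [if_pos rfl]
    have e : (List.replicate i false).reverse ++ false :: List.replicate (a - 1 - i) false =
        zs a := by
      rw [zs_rev]
      change zs i ++ zs (a - 1 - i + 1) = zs a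
      rw [zs_add]
      congr 1
      omega
    rw [e, zs_snoc]
    congr 1
    exact bC_smul al _
  rw [Finset.sum_congr rfl h, Finset.sum_add_distrib, Finset.sum_const, Finset.card_range,
    ← Nat.cast_smul_eq_nsmul K, smul_smul, mul_comm, add_comm]

theorem tch_one (al : K) (a d : ℕ) : tch al false (zs a ++ true :: zs d) =
    ((al - 1) * a) • rw1 K (zs a ++ true :: zs d) +
    ∑ i ∈ Finset.range a, cy K (zs (i + 1)) • rw1 K (zs (a - 1 - i) ++ true :: zs d) +
    ∑ i ∈ Finset.range d, (cy K (arc (a + i + 1)) • rw1 K (zs (d - 1 - i)) +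
      (al - 1) • rw1 K (zs i ++ true :: zs (a + 1 + (d - 1 - i)))) := by
  rw [tch_append, tch_zs, spl_cons, if_neg (by simp), zero_add, spl_replicate]
  congr 1
  · rw [map_add, map_sum]
    have h : app (true :: zs d) (((al - 1) * (a : K)) • rw1 K (zs a)) =
        ((al - 1) * (a : K)) • app (true :: zs d) (rw1 K (zs a)) :=
      LinearMap.map_smul_of_tower (app (true :: zs d)) _ _
    rw [h, app_rw1]
    congr 1
    refine Finset.sum_congr rfl fun i _ => ?_
    rw [app_smul, app_rw1]
  · refine Finset.sum_congr rfl fun i _ => ?_
    rw [if_pos rfl]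
    have e1 : cy K (zs a ++ true :: List.replicate i false ++ [false]) =
        cy K (arc (a + i + 1)) := by
      have h1 : zs a ++ true :: List.replicate i false ++ [false] =
          zs a ++ (true :: zs (i + 1)) := by
        rw [← zs_snoc]
        simp
      rw [h1, cy_rot]
      congr 1
      change true :: (zs (i + 1) ++ zs a) = true :: zs (a + i + 1)
      rw [zs_add]
      congr 2
      omega
    have e2 : (zs a ++ true :: List.replicate i false).reverse ++
        false :: List.replicate (d - 1 - i) false =
        zs i ++ true :: zs (a + 1 + (d - 1 - i)) := by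
      have h1 : (zs a ++ true :: List.replicate i false).reverse = zs i ++ true :: zs a := by
        rw [List.reverse_append, List.reverse_cons, zs_rev, zs_rev]
        simp
      rw [h1]
      change zs i ++ true :: zs a ++ zs (d - 1 - i + 1) = _
      have h2 : zs i ++ true :: zs a ++ zs (d - 1 - i + 1) =
          zs i ++ true :: (zs a ++ zs (d - 1 - i + 1)) := by simp
      rw [h2, zs_add]
      congr 3
      omega
    rw [e1, e2]
    congr 1
    exact bC_smul al _

theorem gg_zs (al : K) (c a : ℕ) : gg al c (zs a) = 0 := by
  unfold gg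
  rw [spl_replicate]
  exact Finset.sum_eq_zero fun i _ => if_neg (by simp)

theorem gg_one (al : K) (c a d : ℕ) : gg al c (zs a ++ true :: zs d) =
    ∑ i ∈ Finset.range c, (cy K (arc (a + i + 1)) • rw1 K (zs (c - 1 - i) ++ true :: zs d) +
      (al - 1) • rw1 K (zs i ++ true :: (zs (a + (c - 1 - i + 1)) ++ true :: zs d))) := by
  unfold gg
  rw [spl_append, spl_replicate]
  have h : ∀ i ∈ Finset.range a, (if false = true then ∑ i1 ∈ Finset.range c,
      (cy K (List.replicate i false ++ arc (i1 + 1)) •
        rw1 K (zs (c - 1 - i1) ++ true :: (List.replicate (a - 1 - i) false ++ true :: zs d)) +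
      bC al • rw1 K (zs i1 ++ true :: ((List.replicate i false).reverse ++
        (zs (c - 1 - i1 + 1) ++ true :: (List.replicate (a - 1 - i) false ++ true :: zs d)))))
      else 0) = 0 := fun i _ => if_neg (by simp)
  rw [Finset.sum_eq_zero h, zero_add, spl_cons, if_pos rfl, spl_replicate]
  have h2 : ∀ i ∈ Finset.range d, (if false = true then ∑ i1 ∈ Finset.range c,
      (cy K (zs a ++ true :: List.replicate i false ++ arc (i1 + 1)) •
        rw1 K (zs (c - 1 - i1) ++ true :: List.replicate (d - 1 - i) false) +
      bC al • rw1 K (zs i1 ++ true :: ((zs a ++ true :: List.replicate i false).reverse ++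
        (zs (c - 1 - i1 + 1) ++ true :: List.replicate (d - 1 - i) false))))
      else 0) = 0 := fun i _ => if_neg (by simp)
  rw [Finset.sum_eq_zero h2, add_zero]
  refine Finset.sum_congr rfl fun i _ => ?_
  have e1 : cy K (zs a ++ [] ++ arc (i + 1)) = cy K (arc (a + i + 1)) := by
    rw [List.append_nil, cy_rot]
    congr 1
    change true :: (zs (i + 1) ++ zs a) = true :: zs (a + i + 1)
    rw [zs_add]
    congr 2
    omega
  have e2 : zs i ++ true :: ((zs a ++ []).reverse ++ (zs (c - 1 - i + 1) ++ true :: zs d)) =
      zs i ++ true :: (zs (a + (c - 1 - i + 1)) ++ true :: zs d) := by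
    rw [List.append_nil, zs_rev, ← List.append_assoc, zs_add]
  rw [e1, e2, bC_smul]

theorem cat_arc (al : K) (c : ℕ) (S : List Bool) : cat (opn al false (arc c)) (rw1 K S) =
    al • ∑ i ∈ Finset.range c, rw1 K (zs (c - 1 - i) ++ true :: (zs (i + 1) ++ S)) := by
  rw [cat_rw1, opn_arc, map_sum]
  have h : ∀ i ∈ Finset.range c, app S (Om al (rw1 K (zs (c - 1 - i) ++ true :: zs i))) =
      rw1 K (zs (c - 1 - i) ++ true :: (zs (i + 1) ++ S)) +
      (al - 1) • rw1 K (zs i ++ true :: (zs (c - 1 - i + 1) ++ S)) := by
    intro i _
    rw [Om_rw1, map_add, app_smul, app_rw1, app_rw1, bC_smul]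
    have e1 : zs (c - 1 - i) ++ true :: zs i ++ [false] ++ S =
        zs (c - 1 - i) ++ true :: (zs (i + 1) ++ S) := by
      rw [← zs_snoc]
      simp
    have e2 : (zs (c - 1 - i) ++ true :: zs i).reverse ++ [false] ++ S =
        zs i ++ true :: (zs (c - 1 - i + 1) ++ S) := by
      rw [List.reverse_append, List.reverse_cons, zs_rev, zs_rev, ← zs_snoc]
      simp
    rw [e1, e2]
  rw [Finset.sum_congr rfl h, Finset.sum_add_distrib]
  have h2 : ∑ i ∈ Finset.range c, (al - 1) • rw1 K (zs i ++ true :: (zs (c - 1 - i + 1) ++ S)) =
      (al - 1) • ∑ i ∈ Finset.range c, rw1 K (zs (c - 1 - i) ++ true :: (zs (i + 1) ++ S)) := by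
    rw [Finset.smul_sum, ← Finset.sum_range_reflect]
    refine Finset.sum_congr rfl fun i hi => ?_
    rw [Finset.mem_range] at hi
    have e : c - 1 - (c - 1 - i) = i := by omega
    rw [e]
  rw [h2]
  module

theorem t_one (al tau : K) (a c d : ℕ) (ht : tau ^ 2 = (al - 1) * tau + al) :
    cat (opn al false (arc c)) (rw1 K (zs a ++ true :: zs d)) +
      tau • G1 al c (rw1 K (zs a ++ true :: zs d)) =
    tau • ∑ i ∈ Finset.range c, IR tau (a + i + 1) (rw1 K (zs (c - 1 - i) ++ true :: zs d)) := by
  rw [cat_arc, G1_rw1, gg_one, Finset.sum_add_distrib]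
  have h1 : ∑ i ∈ Finset.range c,
      (al - 1) • rw1 K (zs i ++ true :: (zs (a + (c - 1 - i + 1)) ++ true :: zs d)) =
      (al - 1) • ∑ i ∈ Finset.range c,
        rw1 K (zs (c - 1 - i) ++ true :: (zs (a + i + 1) ++ true :: zs d)) := by
    rw [Finset.smul_sum, ← Finset.sum_range_reflect]
    refine Finset.sum_congr rfl fun i hi => ?_
    rw [Finset.mem_range] at hi
    have e : a + (c - 1 - (c - 1 - i) + 1) = a + i + 1 := by omega
    rw [e]
  have h2 : ∑ i ∈ Finset.range c,
      rw1 K (zs (c - 1 - i) ++ true :: (zs (i + 1) ++ (zs a ++ true :: zs d))) =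
      ∑ i ∈ Finset.range c,
        rw1 K (zs (c - 1 - i) ++ true :: (zs (a + i + 1) ++ true :: zs d)) := by
    refine Finset.sum_congr rfl fun i _ => ?_
    rw [← List.append_assoc, zs_add]
    have e : i + 1 + a = a + i + 1 := by omega
    rw [e]
  have h3 : ∀ i ∈ Finset.range c, IR tau (a + i + 1) (rw1 K (zs (c - 1 - i) ++ true :: zs d)) =
      cy K (arc (a + i + 1)) • rw1 K (zs (c - 1 - i) ++ true :: zs d) +
      tau • rw1 K (zs (c - 1 - i) ++ true :: (zs (a + i + 1) ++ true :: zs d)) := by
    intro i _
    rw [IR_apply, dR_rw1, dl_append, dl_replicate, map_zero, zero_add, dl_cons_true, dl_replicate,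
      map_zero, add_zero, pre_rw1]
  rw [h1, h2, Finset.sum_congr rfl h3, Finset.sum_add_distrib, ← Finset.smul_sum]
  simp only [smul_add, smul_smul]
  have e : al = tau * tau - tau * (al - 1) := by linear_combination (-1 : K) * ht
  rw [add_comm (tau • _) ((tau * (al - 1)) • _), ← add_assoc, ← add_smul]
  have e2 : al + tau * (al - 1) = tau * tau := by linear_combination (-1 : K) * ht
  rw [e2, add_comm]

theorem base (K : Type) [Field K] : St_base K where
  t0 := by
    intro al a
    rw [T_rw1]
    exact tch_zs al a
  t1 := by
    intro al a d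
    rw [T_rw1]
    exact tch_one al a d
  ti0 := by
    intro al tau a c
    rw [T_IR, G1_rw1]
    change IR tau c (T al false (rw1 K (zs a))) + cat (opn al false (arc c)) (rw1 K (zs a)) +
      tau • gg al c (zs a) = _
    rw [gg_zs, smul_zero, add_zero, cat_arc]
    congr 2
    refine Finset.sum_congr rfl fun i _ => ?_
    rw [zs_add]
    have e : i + 1 + a = a + i + 1 := by omega
    rw [e]
  ti1 := by
    intro al tau a c d ht
    rw [T_IR, add_assoc]
    congr 1
    exact t_one al tau a c d ht
  a0 := by
    intro al u2 a
    rw [T_rw1]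
    have h : tch al true (List.replicate a false) = 0 := by
      unfold tch
      rw [spl_replicate]
      exact Finset.sum_eq_zero fun i _ => if_neg (by simp)
    rw [h, add_zero]
    have h2 : pre [true] (u2 • rw1 K (List.replicate a false)) =
        u2 • pre [true] (rw1 K (List.replicate a false)) :=
      LinearMap.map_smul_of_tower (pre [true]) _ _
    rw [h2, pre_rw1]
    rfl
  a1 := by
    intro al tau u2 a d ht
    rw [T_rw1]
    have h : tch al true (List.replicate a false ++ true :: List.replicate d false) =
        cy K (arc a) • rw1 K (zs d) + (al - 1) • rw1 K (zs a ++ true :: zs d) := by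
      unfold tch
      rw [spl_append, spl_replicate]
      have h1 : ∀ i ∈ Finset.range a, (if false = true then
          cy K (List.replicate i false ++ [true]) •
            rw1 K (List.replicate (a - 1 - i) false ++ true :: List.replicate d false) +
          (C (al - 1) : CW K) • rw1 K ((List.replicate i false).reverse ++
            true :: (List.replicate (a - 1 - i) false ++ true :: List.replicate d false))
          else 0) = 0 := fun i _ => if_neg (by simp)
      rw [Finset.sum_eq_zero h1, zero_add, spl_cons, if_pos rfl, spl_replicate]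
      have h2 : ∀ i ∈ Finset.range d, (if false = true then
          cy K (List.replicate a false ++ true :: List.replicate i false ++ [true]) •
            rw1 K (List.replicate (d - 1 - i) false) +
          (C (al - 1) : CW K) • rw1 K ((List.replicate a false ++
            true :: List.replicate i false).reverse ++
            true :: List.replicate (d - 1 - i) false)
          else 0) = 0 := fun i _ => if_neg (by simp)
      rw [Finset.sum_eq_zero h2, add_zero, List.append_nil, cy_rot, List.reverse_replicate]
      congr 1
      exact bC_smul al _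
    rw [h]
    have h3 : ∀ (k : K) (x : RW K), pre [true] (k • x) = k • pre [true] x := fun k x =>
      LinearMap.map_smul_of_tower (pre [true]) k x
    rw [map_add, map_add, h3, h3, map_smul, pre_rw1, pre_rw1, IR_apply, dR_rw1, dl_cons_true,
      dl_replicate, map_zero, add_zero]
    rw [ht, add_smul]
    have e : ([true] : List Bool) ++ zs d = true :: zs d := rfl
    have e2 : ([true] : List Bool) ++ (zs a ++ true :: zs d) = true :: (zs a ++ true :: zs d) := rfl
    have e3 : ([true] : List Bool) ++ (List.replicate a false ++ true :: List.replicate d false) =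
        true :: (zs a ++ true :: zs d) := rfl
    rw [e, e2]
    abel

end

end Pool.Agent.MJF
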