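import Pool.Agent.MJF.Spl

/-!
The insertions of arcs commute.
-/

namespace Pool.Agent.MJF

open MvPolynomial Pool.Agent.MJR

noncomputable section

variable {K : Type} [Field K]

theorem clw_dl (a : ℕ) (L : List Bool) : clw K (dl K a L) = dlc K a L := by
  unfold dl dlc
  have h := spl_hom (clw K : RW K →ₗ[CW K] CW K).toAddMonoidHom (fun X x Y =>
      if x = true then rw1 K (X ++ true :: (List.replicate a false ++ true :: Y)) else 0) L
  refine Eq.trans h ?_
  apply spl_congr
  intro X x Y
  change clw K _ = _
  split_ifs
  · rw [clw_rw1]
  · rw [map_zero]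

theorem clw_smul (f : CW K) (x : RW K) : clw K (f • x) = f * clw K x := by
  rw [map_smul, smul_eq_mul]

theorem clw_dR (a : ℕ) (x : RW K) : clw K (dR K a x) = dC K a (clw K x) := by
  induction x using Finsupp.induction_linear with
  | zero => simp
  | add p q hp hq => rw [map_add, map_add, hp, hq, map_add, map_add]
  | single L f =>
    rw [single_eq, dR_smul, dR_rw1, map_add, clw_smul, clw_smul, clw_smul, clw_rw1, clw_dl,
      Derivation.leibniz, dC_cy, smul_eq_mul, smul_eq_mul]
    ring

theorem dl_replicate (a k : ℕ) : dl K a (List.replicate k false) = 0 := by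
  unfold dl
  rw [spl_replicate]
  exact Finset.sum_eq_zero fun i _ => if_neg (by simp)

theorem dlc_replicate (a k : ℕ) : dlc K a (List.replicate k false) = 0 := by
  unfold dlc
  rw [spl_replicate]
  exact Finset.sum_eq_zero fun i _ => if_neg (by simp)

theorem dC_zero (a k : ℕ) : dC K a (cy K (List.replicate k false)) = 0 := by
  rw [dC_cy, dlc_replicate]

theorem dl_true (a : ℕ) : dl K a [true] = rw1 K (true :: (List.replicate a false ++ [true])) := by
  unfold dl
  rw [spl_single, if_pos rfl]
  rfl

theorem dl_false (a : ℕ) : dl K a [false] = 0 := dl_replicate a 1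

theorem dl_nil (a : ℕ) : dl K a [] = 0 := rfl

theorem dl_cons_true (a : ℕ) (L : List Bool) : dl K a (true :: L) =
    rw1 K (true :: (List.replicate a false ++ true :: L)) + pre [true] (dl K a L) := by
  have h := dl_append (K := K) a [true] L
  rw [List.singleton_append] at h
  rw [h, dl_true, app_rw1]
  simp

theorem dl_cons_false (a : ℕ) (L : List Bool) : dl K a (false :: L) = pre [false] (dl K a L) := by
  have h := dl_append (K := K) a [false] L
  rw [List.singleton_append] at h
  rw [h, dl_false, map_zero, zero_add]

theorem dR_pre (a : ℕ) (L : List Bool) (x : RW K) :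
    dR K a (pre L x) = pre L (dR K a x) + cat (dl K a L) x := by
  rw [← cat_rw1_left, dR_cat, dR_rw1, cat_rw1_left, add_comm]

theorem dl_arc (a c : ℕ) : dl K a (true :: (List.replicate c false ++ [true])) =
    rw1 K (true :: (List.replicate a false ++ true :: (List.replicate c false ++ [true]))) +
    rw1 K (true :: (List.replicate c false ++ true :: (List.replicate a false ++ [true]))) := by
  rw [dl_cons_true, dl_append, dl_replicate, dl_true, map_zero, zero_add, pre_rw1, pre_rw1]
  rfl

/-- the commutator of two insertions vanishes on lists -/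
theorem dR_dl_comm (a c : ℕ) (L : List Bool) :
    dR K a (dl K c L) = dR K c (dl K a L) := by
  induction L with
  | nil => rw [dl_nil, dl_nil, map_zero, map_zero]
  | cons l L ih =>
    cases l with
    | false =>
      rw [dl_cons_false, dl_cons_false, dR_pre, dR_pre, ih, dl_false, dl_false, cat_zero, cat_zero]
    | true =>
      rw [dl_cons_true, dl_cons_true, map_add, map_add, dR_pre, dR_pre, ih, dR_rw1, dR_rw1,
        dl_true, dl_true, cat_rw1_left, cat_rw1_left]
      have h : ∀ a c : ℕ, dl K a (true :: (List.replicate c false ++ true :: L)) =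
          app L (dl K a (true :: (List.replicate c false ++ [true]))) +
          pre (true :: (List.replicate c false ++ [true])) (dl K a L) := by
        intro a c
        rw [← dl_append]
        simp
      rw [h, h, dl_arc, dl_arc]
      simp only [map_add]
      abel

theorem dC_dlc_comm (a c : ℕ) (L : List Bool) :
    dC K a (dlc K c L) = dC K c (dlc K a L) := by
  rw [← clw_dl, ← clw_dl, ← clw_dR, ← clw_dR, dR_dl_comm]

theorem dC_comm (a c : ℕ) (f : CW K) : dC K a (dC K c f) = dC K c (dC K a f) := by
  induction f using cw_induction with
  | hC x =>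
    have h : ∀ n, dC K n (C x) = 0 := fun n => derivation_C _ _
    rw [h, h, map_zero, map_zero]
  | hadd f g hf hg => simp only [map_add, hf, hg]
  | hX f L hf =>
    simp only [Derivation.leibniz, dC_cy, smul_eq_mul, map_add, hf, dC_dlc_comm a c L]
    ring

theorem dR_comm (a c : ℕ) (x : RW K) : dR K a (dR K c x) = dR K c (dR K a x) := by
  induction x using Finsupp.induction_linear with
  | zero => simp
  | add p q hp hq => simp only [map_add, hp, hq]
  | single L f =>
    rw [single_eq]
    simp only [dR_smul, dR_rw1, map_add, dC_comm a c f, dR_dl_comm a c L]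
    abel

theorem dlc_arc (a c : ℕ) : dlc K a (arc c) =
    cy K (true :: (List.replicate a false ++ true :: List.replicate c false)) := by
  rw [← clw_dl]
  unfold arc
  rw [dl_cons_true, dl_replicate, map_zero, add_zero, clw_rw1]

theorem dC_arc_comm (a c : ℕ) : dC K a (cy K (arc c)) = dC K c (cy K (arc a)) := by
  rw [dC_cy, dC_cy, dlc_arc, dlc_arc]
  have h := cy_rot (K := K) (true :: List.replicate a false) (true :: List.replicate c false)
  simpa using h

theorem comm (K : Type) [Field K] : St_comm K where
  c := by
    intro tau a c f
    simp only [IC_apply, map_add, Derivation.leibniz, Derivation.map_smul, smul_eq_mul,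
      dC_arc_comm a c, dC_comm a c f, smul_add, mul_smul_comm]
    have h : cy K (arc a) * (cy K (arc c) * f) = cy K (arc c) * (cy K (arc a) * f) := by ring
    rw [h]
    abel
  r := by
    intro tau a c x
    simp only [IR_apply, map_add, map_smul, dR_smul, dC_arc_comm a c, dR_comm a c x, smul_add]
    rw [smul_comm (cy K (arc a)) (cy K (arc c)) x]
    abel
  cl := by
    intro tau a x
    rw [IR_apply, IC_apply, map_add, clw_smul]
    have h : clw K (tau • dR K a x) = tau • clw K (dR K a x) :=
      LinearMap.map_smul_of_tower (clw K) tau _
    rw [h, clw_dR]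
  i := by
    intro tau a f
    change IR tau a (Finsupp.single [] f) = Finsupp.single [] (IC tau a f)
    rw [single_eq, single_eq, IR_apply, IC_apply, dR_smul, dR_rw1, dl_nil, smul_zero, zero_add,
      add_smul, smul_smul, smul_assoc]
  p := by
    intro tau a k f
    rw [IC_apply, IC_apply, Derivation.leibniz, dC_zero, smul_zero, add_zero, smul_eq_mul,
      mul_add, mul_smul_comm]
    ring
  pr := by
    intro tau a k x
    rw [IR_apply, IR_apply, dR_smul, dC_zero, zero_smul, add_zero, smul_add]
    rw [smul_comm (cy K (arc a)) (cy K (List.replicate k false)) x,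
      smul_comm (cy K (List.replicate k false)) tau]

end

end Pool.Agent.MJF
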