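import Pool.Agent.MJR.Defs

/-!
Words for the rank five theorem.

Two colours, `false` (first colour) and `true` (the mark).  Closed words are polynomials in
cyclic words, a state with a root is a list (the root word) with coefficients in the closed
words.

The labelled process: letters are labels of parts.
-/

namespace Pool.Agent.MJF

open MvPolynomial Pool.Agent.MJR

noncomputable section

/-! ### Splits of lists -/

/-- The sum over all splits `L = X ++ x :: Y` of `φ X x Y`. -/
def spl {α V : Type} [AddCommMonoid V] (φ : List α → α → List α → V) : List α → V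
  | [] => 0
  | (l :: L) => φ [] l L + spl (fun X x Y => φ (l :: X) x Y) L

/-! ### Words in two colours -/

/-- Closed words. -/
abbrev CW (K : Type) [Field K] := MvPolynomial (Cycle Bool) K

/-- Words with a root. -/
abbrev RW (K : Type) [Field K] := List Bool →₀ CW K

variable {K : Type} [Field K]

/-- the cyclic word of a list -/
def cy (K : Type) [Field K] (L : List Bool) : CW K := X (L : Cycle Bool)

/-- the root word `L` -/
def rw1 (K : Type) [Field K] (L : List Bool) : RW K := Finsupp.single L 1

/-- `x ↦ x L` -/
def app (L : List Bool) : RW K →ₗ[CW K] RW K := Finsupp.lmapDomain _ _ fun X => X ++ L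

/-- `x ↦ L x` -/
def pre (L : List Bool) : RW K →ₗ[CW K] RW K := Finsupp.lmapDomain _ _ fun X => L ++ X

/-- Touches of the letters `t` of the root word:
`∑ over L = X t Y of [X t] Y + b X^r t Y`. -/
def tch (al : K) (t : Bool) (L : List Bool) : RW K :=
  spl (fun X x Y => if x = t then
    cy K (X ++ [t]) • rw1 K Y + (C (al - 1) : CW K) • rw1 K (X.reverse ++ t :: Y) else 0) L

/-- Openings of a cycle at the letters `t`:
`∑ over L = X t Y of Y X t + b (Y X)^r t`. -/
def opn (al : K) (t : Bool) (L : List Bool) : RW K :=
  spl (fun X x Y => if x = t then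
    rw1 K (Y ++ X ++ [t]) + (C (al - 1) : CW K) • rw1 K ((Y ++ X).reverse ++ [t]) else 0) L

/-- insertion of the arc `1^a` at the marks of a root word: `∑ over L = X 2 Y of X 2 1^a 2 Y` -/
def dl (K : Type) [Field K] (a : ℕ) (L : List Bool) : RW K :=
  spl (fun X x Y => if x = true then
    rw1 K (X ++ true :: (List.replicate a false ++ true :: Y)) else 0) L

/-- insertion of the arc `1^a` at the marks of a cycle -/
def dlc (K : Type) [Field K] (a : ℕ) (L : List Bool) : CW K :=
  spl (fun X x Y => if x = true then
    cy K (X ++ true :: (List.replicate a false ++ true :: Y)) else 0) L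

/-- insertion of `1^n` behind the marks of a cycle -/
def dpc (K : Type) [Field K] (n : ℕ) (L : List Bool) : CW K :=
  spl (fun X x Y => if x = true then
    cy K (X ++ true :: (List.replicate n false ++ Y)) else 0) L

/-- The operator `f L ↦ f g(L) + d(f) L`. -/
def opr (d : Derivation K (CW K) (RW K)) (g : List Bool → RW K) : RW K →ₗ[K] RW K :=
  Finsupp.lsum K fun L =>
    { toFun := fun f => f • g L + app L (d f)
      map_add' := by
        intro f h
        rw [add_smul, map_add, map_add]
        abel
      map_smul' := by
        intro c f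
        have h1 : d (c • f) = c • d f := d.map_smul c f
        have h2 : app L (c • d f) = c • app L (d f) :=
          LinearMap.map_smul_of_tower (app L : RW K →ₗ[CW K] RW K) c (d f)
        rw [h1, h2, RingHom.id_apply, smul_add, smul_assoc] }

/-- Openings at the letters `t` as a derivation (see `St_opn`). -/
def J (al : K) (t : Bool) : Derivation K (CW K) (RW K) :=
  mkDerivation K fun z => opn al t (Quotient.out z)

/-- The touches of the letters `t`. -/
def T (al : K) (t : Bool) : RW K →ₗ[K] RW K := opr (J al t) (tch al t)

/-- insertion of the arc `1^a` at the marks, closed words -/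
def dC (K : Type) [Field K] (a : ℕ) : Derivation K (CW K) (CW K) :=
  mkDerivation K fun z => dlc K a (Quotient.out z)

/-- the same with values in the words with a root -/
def dCR (K : Type) [Field K] (a : ℕ) : Derivation K (CW K) (RW K) :=
  mkDerivation K fun z => dlc K a (Quotient.out z) • rw1 K []

/-- insertion of the arc `1^a` at the marks, words with a root -/
def dR (K : Type) [Field K] (a : ℕ) : RW K →ₗ[K] RW K := opr (dCR K a) (dl K a)

/-- insertion of `1^n` behind the marks, closed words -/
def dP (K : Type) [Field K] (n : ℕ) : Derivation K (CW K) (CW K) :=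
  mkDerivation K fun z => dpc K n (Quotient.out z)

/-- the arc `2 1^a` as a list -/
def arc (a : ℕ) : List Bool := true :: List.replicate a false

/-- `I_a` on closed words: new cycle `2 1^a`, or insertion at a mark with weight `tau` -/
def IC (tau : K) (a : ℕ) : CW K →ₗ[K] CW K :=
  LinearMap.mulLeft K (cy K (arc a)) + tau • (dC K a : CW K →ₗ[K] CW K)

/-- `I_a` on words with a root -/
def IR (tau : K) (a : ℕ) : RW K →ₗ[K] RW K :=
  (LinearMap.lsmul (CW K) (RW K) (cy K (arc a))).restrictScalars K + tau • dR K a

/-- The insertion of a letter: weights `u`, `1` for the first colour, `u2`, `s` for the mark. -/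
def Aw (al u u2 s : K) : RW K →ₗ[K] RW K :=
  (pre [false] : RW K →ₗ[CW K] RW K).restrictScalars K ∘ₗ (u • LinearMap.id + T al false) +
    s • ((pre [true] : RW K →ₗ[CW K] RW K).restrictScalars K ∘ₗ (u2 • LinearMap.id + T al true))

/-- closing the root word -/
def clw (K : Type) [Field K] : RW K →ₗ[CW K] CW K :=
  Finsupp.linearCombination (CW K) fun L => cy K L

/-- adding the empty root word -/
def iw (K : Type) [Field K] : CW K →ₗ[K] RW K := Finsupp.lsingle []

/-- forgetting the colours -/
def fgt (K : Type) [Field K] : CW K →ₐ[K] Lam K := aeval fun z => X z.length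

/-- The process on words: the parts are inserted one after the other, the head is the last. -/
def Kw (al u u2 s : K) : List ℕ → CW K
  | [] => 1
  | (k :: p) => clw K ((Aw al u u2 s ^ k) (iw K (Kw al u u2 s p)))

/-! ### The labelled process -/

/-- `(sizes, root word, cycles)`; the letters are labels, `sizes[l]` is the number of letters
inserted with label `l` -/
abbrev Stt := List ℕ × List ℕ × List (List ℕ)

/-- one more letter with label `l` -/
def inc (s : List ℕ) (l : ℕ) : List ℕ := s.modify l (· + 1)

section
variable {V : Type} [AddCommGroup V] [Module K V]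

/-- One step of the labelled process (acting on functions of the state). -/
def stp (al : K) (φ : Stt → V) (S : Stt) : V :=
  φ (S.1 ++ [1], S.1.length :: S.2.1, S.2.2) +
  spl (fun X l Y => φ (inc S.1 l, l :: Y, (X ++ [l]) :: S.2.2) +
    (al - 1) • φ (inc S.1 l, l :: (X.reverse ++ l :: Y), S.2.2)) S.2.1 +
  spl (fun A z B => spl (fun X l Y =>
    φ (inc S.1 l, l :: (Y ++ X ++ l :: S.2.1), A ++ B) +
    (al - 1) • φ (inc S.1 l, l :: ((Y ++ X).reverse ++ l :: S.2.1), A ++ B)) z) S.2.2

/-- closing -/
def cls (φ : Stt → V) (S : Stt) : V := φ (S.1, [], S.2.1 :: S.2.2)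

/-- The value of the function `φ` of the final state for the parts `p`. -/
def Ep (al : K) : List ℕ → (Stt → V) → V
  | [], φ => φ ([], [], [])
  | (k :: p), φ => Ep al p ((stp al)^[k] (cls φ))

end

/-- The naive coefficient: parts with sizes `v`, cycle type `m`. -/
def Kn (al : K) {n : ℕ} (p : List ℕ) (m v : n.Partition) : K :=
  open Classical in
  Ep al p fun S => if (S.1 : Multiset ℕ) = v.parts ∧
    ((S.2.2.map List.length : List ℕ) : Multiset ℕ) = m.parts then (1 : K) else 0

end

end Pool.Agent.MJF
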