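import Pool.Agent.MJF.AI

/-!
Forgetting the colours: the insertion of `1^n` behind the marks.
-/

namespace Pool.Agent.MJF

open MvPolynomial Pool.Agent.MJR

noncomputable section

variable {K : Type} [Field K]

/-- insertion of `1^n` behind the marks of a root word -/
def dpl (K : Type) [Field K] (n : ℕ) (L : List Bool) : RW K :=
  spl (fun X x Y => if x = true then
    rw1 K (X ++ true :: (List.replicate n false ++ Y)) else 0) L

/-- `dP` with values in the words with a root -/
def dPR (K : Type) [Field K] (n : ℕ) : Derivation K (CW K) (RW K) :=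
  mkDerivation K fun z => dpc K n (Quotient.out z) • rw1 K []

/-- insertion of `1^n` behind the marks, words with a root -/
def dpR (K : Type) [Field K] (n : ℕ) : RW K →ₗ[K] RW K := opr (dPR K n) (dpl K n)

theorem dPR_eq (n : ℕ) (f : CW K) : dPR K n f = dP K n f • rw1 K [] := by
  induction f using MvPolynomial.induction_on with
  | C c =>
    have h1 : dPR K n (C c) = 0 := by
      unfold dPR
      exact derivation_C _ _
    have h2 : dP K n (C c) = 0 := by
      unfold dP
      exact derivation_C _ _
    rw [h1, h2, zero_smul]
  | add f g hf hg => rw [map_add, map_add, hf, hg, add_smul]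
  | mul_X f z hf =>
    have h1 : dPR K n (X z) = dpc K n (Quotient.out z) • rw1 K [] := by
      unfold dPR
      rw [mkDerivation_X]
    have h2 : dP K n (X z) = dpc K n (Quotient.out z) := by
      unfold dP
      rw [mkDerivation_X]
    rw [Derivation.leibniz, Derivation.leibniz, hf, h1, h2]
    simp only [smul_smul, add_smul, smul_eq_mul]

theorem dpR_rw1 (n : ℕ) (L : List Bool) : dpR K n (rw1 K L) = dpl K n L := opr_rw1 _ _ _

theorem dpR_smul (n : ℕ) (f : CW K) (x : RW K) :
    dpR K n (f • x) = f • dpR K n x + dP K n f • x := by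
  have h : dpR K n (f • x) = f • dpR K n x + cat (dPR K n f) x := opr_smul _ _ _ _
  rw [h, dPR_eq, cat_smul, cat_rw1_nil]

theorem clw_dpl (n : ℕ) (L : List Bool) : clw K (dpl K n L) = dpc K n L := by
  unfold dpl dpc
  have h := spl_ite_hom (clw K : RW K →ₗ[CW K] CW K).toAddMonoidHom true
    (fun X Y => rw1 K (X ++ true :: (List.replicate n false ++ Y))) L
  refine Eq.trans h ?_
  apply spl_congr
  intro X x Y
  change (if x = true then clw K _ else 0) = _
  rw [clw_rw1]

theorem clw_dpR (n : ℕ) (x : RW K) : clw K (dpR K n x) = dP K n (clw K x) := by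
  induction x using Finsupp.induction_linear with
  | zero => simp
  | add p q hp hq => rw [map_add, map_add, hp, hq, map_add, map_add]
  | single L f =>
    rw [single_eq, dpR_smul, dpR_rw1, map_add, clw_smul, clw_smul, clw_smul, clw_rw1, clw_dpl,
      Derivation.leibniz, dP_cy, smul_eq_mul, smul_eq_mul]
    ring

theorem dpl_append (n : ℕ) (L L' : List Bool) :
    dpl K n (L ++ L') = app L' (dpl K n L) + pre L (dpl K n L') := by
  unfold dpl
  rw [spl_append]
  congr 1
  · have h := spl_ite_hom (app L' : RW K →ₗ[CW K] RW K).toAddMonoidHom true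
      (fun X Y => rw1 K (X ++ true :: (List.replicate n false ++ Y))) L
    refine Eq.trans ?_ h.symm
    apply spl_congr
    intro X x Y
    change _ = if x = true then app L' _ else 0
    rw [app_rw1]
    simp
  · have h := spl_ite_hom (pre L : RW K →ₗ[CW K] RW K).toAddMonoidHom true
      (fun X Y => rw1 K (X ++ true :: (List.replicate n false ++ Y))) L'
    refine Eq.trans ?_ h.symm
    apply spl_congr
    intro X x Y
    change _ = if x = true then pre L _ else 0
    rw [pre_rw1]
    simp

theorem dpl_zs (n k : ℕ) : dpl K n (zs k) = 0 := by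
  unfold dpl
  rw [spl_replicate]
  exact Finset.sum_eq_zero fun i _ => if_neg (by simp)

theorem dpc_zs (n k : ℕ) : dpc K n (zs k) = 0 := by
  rw [← clw_dpl, dpl_zs, map_zero]

theorem dpl_nil (n : ℕ) : dpl K n [] = 0 := rfl

theorem dpl_true (n : ℕ) : dpl K n [true] = rw1 K (true :: zs n) := by
  unfold dpl
  rw [spl_single, if_pos rfl, List.append_nil]
  rfl

theorem dpl_cons_true (n : ℕ) (L : List Bool) : dpl K n (true :: L) =
    rw1 K (true :: (zs n ++ L)) + pre [true] (dpl K n L) := by
  have h := dpl_append (K := K) n [true] L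
  rw [List.singleton_append] at h
  rw [h, dpl_true, app_rw1]
  rfl

theorem dpl_cons_false (n : ℕ) (L : List Bool) : dpl K n (false :: L) = pre [false] (dpl K n L) := by
  have h := dpl_append (K := K) n [false] L
  rw [List.singleton_append] at h
  have h2 : dpl K n [false] = 0 := dpl_zs n 1
  rw [h, h2, map_zero, zero_add]

theorem dpR_pre (n : ℕ) (L : List Bool) (x : RW K) :
    dpR K n (pre L x) = pre L (dpR K n x) + cat (dpl K n L) x := by
  induction x using Finsupp.induction_linear with
  | zero => simp
  | add p q hp hq =>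
    simp only [map_add, hp, hq]
    abel
  | single X f =>
    rw [single_eq, map_smul, pre_rw1, dpR_smul, dpR_rw1, dpR_smul, dpR_rw1, map_smul, cat_rw1,
      dpl_append, map_add, map_smul, map_smul, pre_rw1, smul_add]
    abel

theorem dpR_app (n : ℕ) (L : List Bool) (y : RW K) :
    dpR K n (app L y) = app L (dpR K n y) + cat y (dpl K n L) := by
  induction y using Finsupp.induction_linear with
  | zero => simp [cat_zero]
  | add p q hp hq =>
    rw [map_add, map_add, hp, hq, map_add, map_add, cat_add]
    abel
  | single X f =>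
    rw [single_eq, app_smul, app_rw1, dpR_smul, dpR_rw1, dpR_smul, dpR_rw1, cat_smul, cat_rw1_left,
      dpl_append, map_add, app_smul, app_smul, app_rw1, smul_add]
    abel

/-- the commutator of `dpR n` and `dR c` on lists -/
theorem dpR_dl (n c : ℕ) (L : List Bool) :
    dpR K n (dl K c L) = dR K c (dpl K n L) + dl K (n + c) L := by
  induction L with
  | nil => rw [dl_nil, dpl_nil, dl_nil, map_zero, map_zero, add_zero]
  | cons l L ih =>
    cases l with
    | false =>
      have h2 : dpl K n [false] = 0 := dpl_zs n 1
      rw [dl_cons_false, dpl_cons_false, dl_cons_false, dR_pre, dpR_pre, ih, dl_false, h2,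
        cat_zero, cat_zero, map_add, add_zero, add_zero]
    | true =>
      have h1 : dpl K n (true :: (List.replicate c false ++ true :: L)) =
          rw1 K (true :: (List.replicate (n + c) false ++ true :: L)) +
          rw1 K (true :: (zs c ++ true :: (zs n ++ L))) +
          pre (true :: (zs c ++ [true])) (dpl K n L) := by
        have e : true :: (List.replicate c false ++ true :: L) =
          [true] ++ (zs c ++ ([true] ++ L)) := rfl
        rw [e, dpl_append, dpl_append, dpl_append, dpl_zs, dpl_true]
        simp only [map_zero, zero_add, map_add, app_rw1, pre_rw1, pre_pre]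
        have e1 : true :: zs n ++ (zs c ++ ([true] ++ L)) =
            true :: (List.replicate (n + c) false ++ true :: L) := by
          rw [← List.replicate_append_replicate, List.append_assoc]
          rfl
        have e2 : [true] ++ (zs c ++ (true :: zs n ++ L)) =
          true :: (zs c ++ true :: (zs n ++ L)) := by simp
        have e3 : [true] ++ (zs c ++ [true]) = true :: (zs c ++ [true]) := rfl
        rw [e1, e2, e3]
        abel
      have h3 : dl K c (true :: (zs n ++ L)) = rw1 K (true :: (zs c ++ true :: (zs n ++ L))) +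
          pre (true :: zs n) (dl K c L) := by
        rw [dl_cons_true, dl_append, dl_replicate, map_zero, zero_add, pre_pre]
        rfl
      rw [dl_cons_true, dpl_cons_true, dl_cons_true, map_add, map_add, dR_pre, dpR_pre, ih,
        dR_rw1, dpR_rw1, h1, h3, dl_true, dpl_true, cat_rw1_left, cat_rw1_left]
      simp only [map_add]
      abel

theorem dP_dlc (n c : ℕ) (L : List Bool) :
    dP K n (dlc K c L) = dC K c (dpc K n L) + dlc K (n + c) L := by
  rw [← clw_dl, ← clw_dpl, ← clw_dR, ← clw_dpR, dpR_dl, map_add, clw_dl]

theorem dP_dC (n c : ℕ) (f : CW K) :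
    dP K n (dC K c f) = dC K c (dP K n f) + dC K (n + c) f := by
  induction f using cw_induction with
  | hC x =>
    have h1 : ∀ n, dC K n (C x) = 0 := fun n => derivation_C _ _
    have h2 : dP K n (C x) = 0 := derivation_C _ _
    rw [h1, h1, h2, map_zero, map_zero, add_zero]
  | hadd f g hf hg =>
    simp only [map_add, hf, hg]
    abel
  | hX f L hf =>
    simp only [Derivation.leibniz, dC_cy, dP_cy, smul_eq_mul, map_add, hf, dP_dlc]
    ring

theorem dpR_dR (n c : ℕ) (x : RW K) :
    dpR K n (dR K c x) = dR K c (dpR K n x) + dR K (n + c) x := by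
  induction x using Finsupp.induction_linear with
  | zero => simp
  | add p q hp hq =>
    simp only [map_add, hp, hq]
    abel
  | single L f =>
    rw [single_eq]
    simp only [dR_smul, dpR_smul, dR_rw1, dpR_rw1, map_add, dP_dC, dpR_dl, smul_add, add_smul]
    abel

theorem dpc_arc (n c : ℕ) : dpc K n (arc c) = cy K (arc (n + c)) := by
  rw [← clw_dpl]
  unfold arc
  rw [dpl_cons_true, dpl_zs, map_zero, add_zero, clw_rw1, ← List.replicate_append_replicate]

theorem dpR_IR (tau : K) (n c : ℕ) (x : RW K) :
    dpR K n (IR tau c x) = IR tau c (dpR K n x) + IR tau (n + c) x := by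
  have h : dpR K n (tau • dR K c x) = tau • dpR K n (dR K c x) := map_smul _ _ _
  rw [IR_apply, IR_apply, IR_apply, map_add, dpR_smul, dP_cy, dpc_arc, h, dpR_dR, smul_add]
  abel

theorem dP_IC (tau : K) (n c : ℕ) (f : CW K) :
    dP K n (IC tau c f) = IC tau c (dP K n f) + IC tau (n + c) f := by
  rw [IC_apply, IC_apply, IC_apply, map_add, Derivation.leibniz, Derivation.map_smul, dP_dC,
    dP_cy, dpc_arc, smul_eq_mul, smul_eq_mul, smul_add]
  ring

theorem dP_zs (n k : ℕ) (f : CW K) : dP K n (cy K (zs k) * f) = cy K (zs k) * dP K n f := by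
  rw [Derivation.leibniz, dP_cy, dpc_zs, smul_zero, add_zero, smul_eq_mul]

theorem fgt_cy' (L : List Bool) : fgt K (cy K L) = X L.length := by
  unfold fgt cy
  rw [aeval_X]
  rfl

theorem fgt_dlc (a : ℕ) (L : List Bool) : fgt K (dlc K a L) = fgt K (dpc K (a + 1) L) := by
  unfold dlc dpc
  have h1 := spl_ite_hom (fgt K).toLinearMap.toAddMonoidHom true
    (fun X Y => cy K (X ++ true :: (List.replicate a false ++ true :: Y))) L
  have h2 := spl_ite_hom (fgt K).toLinearMap.toAddMonoidHom true
    (fun X Y => cy K (X ++ true :: (List.replicate (a + 1) false ++ Y))) L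
  refine Eq.trans h1 (Eq.trans ?_ h2.symm)
  apply spl_congr
  intro X x Y
  change (if x = true then fgt K _ else 0) = if x = true then fgt K _ else 0
  rw [fgt_cy', fgt_cy']
  have e : (X ++ true :: (List.replicate a false ++ true :: Y)).length =
      (X ++ true :: (List.replicate (a + 1) false ++ Y)).length := by
    simp
    omega
  rw [e]

theorem fgt_dC (a : ℕ) (f : CW K) : fgt K (dC K a f) = fgt K (dP K (a + 1) f) := by
  induction f using cw_induction with
  | hC x =>
    have h1 : dC K a (C x) = 0 := derivation_C _ _
    have h2 : dP K (a + 1) (C x) = 0 := derivation_C _ _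
    rw [h1, h2]
  | hadd f g hf hg => simp only [map_add, hf, hg]
  | hX f L hf =>
    simp only [Derivation.leibniz, dC_cy, dP_cy, smul_eq_mul, map_add, map_mul, hf, fgt_dlc]

theorem fgt_st (K : Type) [Field K] : St_fgt K where
  d := fgt_dC
  pI := dP_IC
  pp := dP_zs

end

end Pool.Agent.MJF
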