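import Pool.Agent.MJF.Spl

/-!
Forgetting the colours.
-/

namespace Pool.Agent.MJF

open MvPolynomial Pool.Agent.MJR

noncomputable section

variable {K : Type} [Field K]

namespace FgtM

/-- A sum over the splits of a word without marks vanishes. -/
theorem spl_rep_zero {V : Type} [AddCommMonoid V] (φ : List Bool → Bool → List Bool → V)
    (h : ∀ X Y, φ X false Y = 0) (n : ℕ) : spl φ (List.replicate n false) = 0 := by
  rw [spl_replicate]
  exact Finset.sum_eq_zero fun i _ => h _ _

/-- Splits of `X 2 1^c 2 Y`. -/
theorem spl_ins {V : Type} [AddCommMonoid V] (φ : List Bool → Bool → List Bool → V)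
    (h : ∀ X Y, φ X false Y = 0) (c : ℕ) (X Y : List Bool) :
    spl φ (X ++ true :: (List.replicate c false ++ true :: Y)) =
      spl (fun X1 x X2 => φ X1 x (X2 ++ true :: (List.replicate c false ++ true :: Y))) X +
      (φ X true (List.replicate c false ++ true :: Y) +
        (φ (X ++ true :: List.replicate c false) true Y +
          spl (fun Y1 x Y2 => φ (X ++ true :: (List.replicate c false ++ true :: Y1)) x Y2) Y)) := by
  rw [spl_append, spl_cons, spl_append, spl_cons,
    spl_rep_zero (fun X_1 x Y_1 => φ (X ++ true :: X_1) x (Y_1 ++ true :: Y)) (fun P Q => h _ _)]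
  simp

/-- Splits of `X 2 1^n Y`. -/
theorem spl_insp {V : Type} [AddCommMonoid V] (φ : List Bool → Bool → List Bool → V)
    (h : ∀ X Y, φ X false Y = 0) (n : ℕ) (X Y : List Bool) :
    spl φ (X ++ true :: (List.replicate n false ++ Y)) =
      spl (fun X1 x X2 => φ X1 x (X2 ++ true :: (List.replicate n false ++ Y))) X +
      (φ X true (List.replicate n false ++ Y) +
          spl (fun Y1 x Y2 => φ (X ++ true :: (List.replicate n false ++ Y1)) x Y2) Y) := by
  rw [spl_append, spl_cons, spl_append,
    spl_rep_zero (fun X_1 x Y_1 => φ (X ++ true :: X_1) x (Y_1 ++ Y)) (fun P Q => h _ _)]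
  simp

theorem dC_mul (c : ℕ) (f g : CW K) : dC K c (f * g) = f * dC K c g + g * dC K c f :=
  (dC K c).leibniz f g

theorem dP_mul (n : ℕ) (f g : CW K) : dP K n (f * g) = f * dP K n g + g * dP K n f :=
  (dP K n).leibniz f g

theorem dC_C (c : ℕ) (x : K) : dC K c (C x) = 0 := by
  unfold dC
  exact derivation_C _ _

theorem dP_C (c : ℕ) (x : K) : dP K c (C x) = 0 := by
  unfold dP
  exact derivation_C _ _

theorem fgt_cy (L : List Bool) : fgt K (cy K L) = X L.length := by
  unfold fgt cy
  rw [aeval_X]
  rfl

theorem fgt_d (a : ℕ) (f : CW K) : fgt K (dC K a f) = fgt K (dP K (a + 1) f) := by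
  refine cw_induction (P := fun f => fgt K (dC K a f) = fgt K (dP K (a + 1) f)) f ?_ ?_ ?_
  · intro x
    rw [dC_C, dP_C]
  · intro f g hf hg
    simp only [map_add, hf, hg]
  · intro f L hf
    rw [dC_mul, dP_mul, map_add, map_add, map_mul, map_mul, map_mul, map_mul, hf, dC_cy, dP_cy]
    congr 2
    unfold dlc dpc
    have h := spl_hom (fgt K : CW K →ₐ[K] Lam K).toLinearMap.toAddMonoidHom (fun X x Y =>
      if x = true then cy K (X ++ true :: (List.replicate a false ++ true :: Y)) else 0) L
    have h' := spl_hom (fgt K : CW K →ₐ[K] Lam K).toLinearMap.toAddMonoidHom (fun X x Y =>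
      if x = true then cy K (X ++ true :: (List.replicate (a + 1) false ++ Y)) else 0) L
    refine Eq.trans h (Eq.trans ?_ h'.symm)
    apply spl_congr
    intro X x Y
    change fgt K _ = fgt K _
    split_ifs
    · rw [fgt_cy, fgt_cy]
      congr 1
      simp
      omega
    · rfl

/-- Behind the marks and at the marks. -/
theorem dP_dlc (n c : ℕ) (L : List Bool) :
    dP K n (dlc K c L) = dC K c (dpc K n L) + dlc K (n + c) L := by
  have h1 : dP K n (dlc K c L) = spl (fun X x Y => if x = true then
      dpc K n (X ++ true :: (List.replicate c false ++ true :: Y)) else 0) L := by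
    have h := spl_hom (dP K n : Derivation K (CW K) (CW K)).toLinearMap.toAddMonoidHom
      (fun X x Y => if x = true then
      cy K (X ++ true :: (List.replicate c false ++ true :: Y)) else 0) L
    refine Eq.trans h ?_
    apply spl_congr
    intro X x Y
    change dP K n _ = _
    split_ifs
    · rw [dP_cy]
    · rw [map_zero]
  have h2 : dC K c (dpc K n L) = spl (fun X x Y => if x = true then
      dlc K c (X ++ true :: (List.replicate n false ++ Y)) else 0) L := by
    have h := spl_hom (dC K c : Derivation K (CW K) (CW K)).toLinearMap.toAddMonoidHom
      (fun X x Y => if x = true then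
      cy K (X ++ true :: (List.replicate n false ++ Y)) else 0) L
    refine Eq.trans h ?_
    apply spl_congr
    intro X x Y
    change dC K c _ = _
    split_ifs
    · rw [dC_cy]
    · rw [map_zero]
  have h3 : spl (fun X x Y => if x = true then
      spl (fun X1 x1 X2 => if x1 = true then cy K (X1 ++ true :: (List.replicate n false ++
        (X2 ++ true :: (List.replicate c false ++ true :: Y)))) else 0) X else 0) L =
      spl (fun X x Y => if x = true then
      spl (fun Y1 y Y2 => if y = true then cy K (X ++ true :: (List.replicate n false ++
        (Y1 ++ true :: (List.replicate c false ++ true :: Y2)))) else 0) Y else 0) L := by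
    have h := spl_spl (fun X1 x1 X2 x Y => if x = true ∧ x1 = true then
      cy K (X1 ++ true :: (List.replicate n false ++
        (X2 ++ true :: (List.replicate c false ++ true :: Y)))) else 0) L
    refine Eq.trans ?_ (h.trans ?_)
    · apply spl_congr
      intro X x Y
      cases x
      · simp [spl_zero]
      · simp
    · apply spl_congr
      intro X x Y
      cases x
      · simp [spl_zero]
      · simp
  have h4 : spl (fun X x Y => if x = true then
      spl (fun Y1 y Y2 => if y = true then cy K (X ++ true :: (List.replicate c false ++
        true :: (Y1 ++ true :: (List.replicate n false ++ Y2)))) else 0) Y else 0) L =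
      spl (fun X x Y => if x = true then
      spl (fun X1 x1 X2 => if x1 = true then cy K (X1 ++ true :: (List.replicate c false ++
        true :: (X2 ++ true :: (List.replicate n false ++ Y)))) else 0) X else 0) L := by
    have h := spl_spl (fun X1 x1 X2 x Y => if x = true ∧ x1 = true then
      cy K (X1 ++ true :: (List.replicate c false ++
        true :: (X2 ++ true :: (List.replicate n false ++ Y)))) else 0) L
    refine Eq.trans ?_ (h.symm.trans ?_)
    · apply spl_congr
      intro X x Y
      cases x
      · simp [spl_zero]
      · simp
    · apply spl_congr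
      intro X x Y
      cases x
      · simp [spl_zero]
      · simp
  have h5 : spl (fun X x Y => if x = true then
      dpc K n (X ++ true :: (List.replicate c false ++ true :: Y)) else 0) L =
      spl (fun X x Y => if x = true then
      spl (fun X1 x1 X2 => if x1 = true then cy K (X1 ++ true :: (List.replicate n false ++
        (X2 ++ true :: (List.replicate c false ++ true :: Y)))) else 0) X else 0) L +
      spl (fun X x Y => if x = true then
      spl (fun Y1 y Y2 => if y = true then cy K (X ++ true :: (List.replicate c false ++
        true :: (Y1 ++ true :: (List.replicate n false ++ Y2)))) else 0) Y else 0) L +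
      spl (fun X x Y => if x = true then
        cy K (X ++ true :: (List.replicate n false ++ (List.replicate c false ++ true :: Y))) +
        cy K (X ++ true :: (List.replicate c false ++ true :: (List.replicate n false ++ Y)))
          else 0) L := by
    rw [← spl_add, ← spl_add]
    apply spl_congr
    intro X x Y
    split_ifs
    · unfold dpc
      rw [spl_ins (fun X x Y => if x = true then
        cy K (X ++ true :: (List.replicate n false ++ Y)) else 0) (fun P Q => if_neg (by simp))]
      simp only [if_true, List.append_assoc, List.cons_append]
      abel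
    · rw [add_zero, add_zero]
  have h6 : spl (fun X x Y => if x = true then
      dlc K c (X ++ true :: (List.replicate n false ++ Y)) else 0) L =
      spl (fun X x Y => if x = true then
      spl (fun X1 x1 X2 => if x1 = true then cy K (X1 ++ true :: (List.replicate c false ++
        true :: (X2 ++ true :: (List.replicate n false ++ Y)))) else 0) X else 0) L +
      spl (fun X x Y => if x = true then
      spl (fun Y1 y Y2 => if y = true then cy K (X ++ true :: (List.replicate n false ++
        (Y1 ++ true :: (List.replicate c false ++ true :: Y2)))) else 0) Y else 0) L +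
      spl (fun X x Y => if x = true then
        cy K (X ++ true :: (List.replicate c false ++ true :: (List.replicate n false ++ Y)))
          else 0) L := by
    rw [← spl_add, ← spl_add]
    apply spl_congr
    intro X x Y
    split_ifs
    · unfold dlc
      rw [spl_insp (fun X x Y => if x = true then
        cy K (X ++ true :: (List.replicate c false ++ true :: Y)) else 0)
        (fun P Q => if_neg (by simp))]
      simp only [if_true, List.append_assoc, List.cons_append]
      abel
    · rw [add_zero, add_zero]
  have h7 : dlc K (n + c) L = spl (fun X x Y => if x = true then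
        cy K (X ++ true :: (List.replicate n false ++ (List.replicate c false ++ true :: Y)))
          else 0) L := by
    unfold dlc
    apply spl_congr
    intro X x Y
    rw [List.replicate_add]
    simp only [List.append_assoc]
  rw [h1, h2, h5, h6, h3, h4, h7, ← spl_add, ← spl_add, ← spl_add, ← spl_add, ← spl_add]
  apply spl_congr
  intro X x Y
  split_ifs
  · abel
  · simp

theorem dP_dC (n c : ℕ) (f : CW K) : dP K n (dC K c f) = dC K c (dP K n f) + dC K (n + c) f := by
  refine cw_induction (P := fun f => dP K n (dC K c f) =
    dC K c (dP K n f) + dC K (n + c) f) f ?_ ?_ ?_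
  · intro x
    rw [dC_C, dP_C, dC_C, map_zero, map_zero, add_zero]
  · intro f g hf hg
    simp only [map_add, hf, hg]
    abel
  · intro f L hf
    rw [dC_mul, dC_mul, dP_mul, map_add, map_add, dP_mul, dP_mul, dC_mul, dC_mul, hf, dC_cy,
      dP_cy, dC_cy, dP_dlc]
    ring

end FgtM

open FgtM in
theorem fgtSt (K : Type) [Field K] : St_fgt K where
  d := fgt_d
  pI := by
    intro tau n c f
    have h1 : dP K n (cy K (arc c)) = cy K (arc (n + c)) := by
      rw [dP_cy]
      unfold dpc arc
      rw [spl_cons, spl_rep_zero _ (fun P Q => if_neg (by simp)), add_zero, if_pos rfl,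
        List.nil_append, List.replicate_add]
    have h2 : dP K n (tau • dC K c f) = tau • dP K n (dC K c f) := (dP K n).map_smul tau _
    rw [IC_apply, IC_apply, IC_apply, map_add, dP_mul, h1, h2, dP_dC, smul_add]
    ring
  pp := by
    intro n k f
    have h1 : dP K n (cy K (List.replicate k false)) = 0 := by
      rw [dP_cy]
      exact spl_rep_zero (fun X x Y => if x = true then
      cy K (X ++ true :: (List.replicate n false ++ Y)) else 0) (fun P Q => if_neg (by simp)) k
    rw [dP_mul, h1, mul_zero, add_zero]

end

end Pool.Agent.MJF
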