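import Pool.Agent.MJF.Iota3
import Pool.Agent.MJF.DpR
import Pool.Agent.MJF.Lab
import Pool.Agent.MJX.Row
import Pool.Agent.MJT.QMore2
import Pool.Agent.MJR.Fin

/-!
The rank five theorem.
-/

namespace Pool.Agent.MJF

open MvPolynomial Pool.Agent.MJR Pool.Agent.MJX Pool.Agent.MJT

noncomputable section

/-- The operator forgetting the marks is unique. -/
theorem IsT_unique {K : Type} [Field K] {tau : K} {T T' : CM K →ₗ[K] Lam K} (h : IsT tau T)
    (h' : IsT tau T') : T = T' := by
  have h1 : T - T' = 0 := by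
    refine T_unique (T - T') tau ?_ ?_ ?_
    · rw [LinearMap.sub_apply, h.one, h'.one, sub_self]
    · intro k f hf
      rw [LinearMap.sub_apply] at hf ⊢
      rw [h.p, h'.p, ← mul_sub, hf, mul_zero]
    · intro a f
      rw [LinearMap.sub_apply, LinearMap.sub_apply, h.y, h'.y]
  exact sub_eq_zero.mp h1

/-- The marginals of the naive coefficients. -/
theorem marg {K : Type} [Field K] {al tau u2 kap : K} (h1 : tau = u2 + (al - 1))
    (h2 : tau * u2 = al) (h3 : u2 * kap = 1) (ht : tau = al * kap)
    (hq : tau ^ 2 = (al - 1) * tau + al) (u s : K) (Kc : Lam K →ₗ[K] CM K) (hone : Kc 1 = 1)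
    (hK : ∀ (k : ℕ) (f : Lam K), k ≠ 0 →
      Kc (X k * f) = cA ((Aop al kap u (s * u2) ^ k) (iA kap (Kc f))))
    {T : CM K →ₗ[K] Lam K} (hT : IsT tau T) {n : ℕ} (p m : n.Partition) :
    coeff (expo m) (T (Kc (pp K p))) =
      ∑ v, Kn al p.parts.toList m v * (v.parts.map fun k => u + u2 * s ^ k).prod := by
  have hpos : ∀ k ∈ p.parts.toList, k ≠ 0 := by
    intro k hk
    rw [Multiset.mem_toList] at hk
    exact (p.parts_pos hk).ne'
  have hsum : p.parts.toList.sum = n := by
    rw [Multiset.sum_toList, p.parts_sum]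
  have e1 := Kw_eq (aI K) (aP K) h1 h2 h3 ht hq u s Kc hone hK p.parts.toList hpos
  have e2 : (pp K p : Lam K) = (p.parts.toList.map fun k => (X k : Lam K)).prod := by
    unfold pp
    rw [← Multiset.prod_coe, ← Multiset.map_coe, Multiset.coe_toList]
  have e3 : T = (fgt K).toLinearMap ∘ₗ ic tau := IsT_unique hT (isT (fgt_st K) tau)
  rw [e3, LinearMap.comp_apply, e2, ← e1]
  change coeff (expo m) (fgt K (Kw al u u2 s p.parts.toList)) = _
  rw [lab K al u u2 s p.parts.toList]
  exact coef K al (fun k => u + u2 * s ^ k) n p.parts.toList m hsum hpos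

/-- The existence of the operators forgetting the marks. -/
def HatEx : Prop := ∀ kap : QA, RatFunc.X * kap ^ 2 = (RatFunc.X - 1) * kap + 1 →
  ∃ (T : CM QA →ₗ[QA] Lam QA) (That : AM QA kap →ₗ[QA] LW QA), IsT (RatFunc.X * kap) T ∧
    HatSt QA RatFunc.X kap T That

theorem X1 : (RatFunc.X : QA) + 1 ≠ 0 := by
  intro h
  have h1 : (algebraMap (Polynomial ℚ) (RatFunc ℚ)) (Polynomial.X + Polynomial.C 1) = 0 := by
    rw [map_add, RatFunc.algebraMap_X, map_one, map_one]
    exact h
  have h2 := (map_eq_zero_iff _ (RatFunc.algebraMap_injective ℚ)).mp h1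
  exact Polynomial.X_add_C_ne_zero 1 h2

/-- The marginals of `c` and of the naive coefficients agree. -/
theorem marg_eq (hat : HatEx) {n : ℕ} {J : n.Partition → n.Partition → QA}
    (hJ : IsJack RatFunc.X n J) (c : n.Partition → n.Partition → n.Partition → QA)
    (hc : ∀ l m v, ∑ p, J l p * c p m v = J l m * J l v) {tau u2 kap : QA}
    (h1 : tau = u2 + (RatFunc.X - 1)) (h2 : tau * u2 = RatFunc.X) (h3 : u2 * kap = 1)
    (ht : tau = RatFunc.X * kap) (u s : QA) (p m : n.Partition) :
    ∑ r, (r.parts.map fun k => u + u2 * s ^ k).prod * c p m r =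
      ∑ v, Kn RatFunc.X p.parts.toList m v * (v.parts.map fun k => u + u2 * s ^ k).prod := by
  have hX : (RatFunc.X : QA) ≠ 0 := RatFunc.X_ne_zero
  have hu : u2 ≠ 0 := left_ne_zero_of_mul_eq_one h3
  have hq : tau ^ 2 = (RatFunc.X - 1) * tau + RatFunc.X := by
    have e : (RatFunc.X : QA) - 1 = tau - u2 := by rw [h1]; ring
    rw [e, sub_mul, ← h2]
    ring
  have hk : RatFunc.X * kap ^ 2 = (RatFunc.X - 1) * kap + 1 := by
    have e : (RatFunc.X : QA) - 1 = tau - u2 := by rw [h1]; ring
    rw [e, sub_mul, h3, ht]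
    ring
  obtain ⟨T, That, hT, hh⟩ := hat kap hk
  rw [← ht] at hT
  obtain ⟨Kc, hone, hK, hm⟩ := thmX hJ c hc hk hT hh u (s * u2)
  have e1 := hm p m
  rw [marg h1 h2 h3 ht hq u s Kc hone hK hT p m] at e1
  rw [← e1]
  refine Finset.sum_congr rfl fun r _ => ?_
  congr 2
  refine Multiset.map_congr rfl fun k hk' => ?_
  obtain ⟨j, rfl⟩ := Nat.exists_eq_succ_of_ne_zero (r.parts_pos hk').ne'
  have e2 : s * u2 * kap = s := by rw [mul_assoc, h3, mul_one]
  rw [e2, Nat.succ_eq_add_one, Nat.add_sub_cancel]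
  ring

/-- The coefficients with good third index are the naive coefficients. -/
theorem five (hat : HatEx) {n : ℕ} {J : n.Partition → n.Partition → QA}
    (hJ : IsJack RatFunc.X n J) (c : n.Partition → n.Partition → n.Partition → QA)
    (hc : ∀ l m v, ∑ p, J l p * c p m v = J l m * J l v) (p m v : n.Partition)
    (h : Good v) : c p m v = Kn RatFunc.X p.parts.toList m v := by
  have hX : (RatFunc.X : QA) ≠ 0 := RatFunc.X_ne_zero
  have A : ∀ u v0 s : QA, v0 = 1 ∨ v0 = -RatFunc.X →
      ∑ nu : n.Partition, (c p m nu - Kn RatFunc.X p.parts.toList m nu) *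
        (nu.parts.map fun i => u + v0 * s ^ i).prod = 0 := by
    intro u v0 s hv
    have e : ∑ r, (r.parts.map fun k => u + v0 * s ^ k).prod * c p m r =
        ∑ v, Kn RatFunc.X p.parts.toList m v * (v.parts.map fun k => u + v0 * s ^ k).prod := by
      rcases hv with rfl | rfl
      · exact marg_eq hat hJ c hc (tau := RatFunc.X) (u2 := 1) (kap := 1) (by ring) (by ring)
          (by ring) (by ring) u s p m
      · exact marg_eq hat hJ c hc (tau := -1) (u2 := -RatFunc.X) (kap := -(RatFunc.X)⁻¹) (by ring)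
          (by ring) (by field_simp) (by field_simp) u s p m
    have e2 : ∑ nu : n.Partition, (c p m nu - Kn RatFunc.X p.parts.toList m nu) *
        (nu.parts.map fun i => u + v0 * s ^ i).prod =
        ∑ r, (r.parts.map fun k => u + v0 * s ^ k).prod * c p m r -
        ∑ v, Kn RatFunc.X p.parts.toList m v * (v.parts.map fun k => u + v0 * s ^ k).prod := by
      rw [← Finset.sum_sub_distrib]
      refine Finset.sum_congr rfl fun nu _ => ?_
      ring
    rw [e2, e, sub_self]
  have h1 := MJT.good (al := (RatFunc.X : QA)) hX X1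
    (fun nu : n.Partition => c p m nu - Kn RatFunc.X p.parts.toList m nu) (fun u v0 s hv => by
      rcases hv with rfl | hv | hv
      · refine Eq.trans ?_ (A u 1 0 (Or.inl rfl))
        refine Finset.sum_congr rfl fun nu _ => ?_
        congr 2
        refine Multiset.map_congr rfl fun k hk => ?_
        rw [zero_pow (nu.parts_pos hk).ne']
        ring
      · exact A u v0 s (Or.inl hv)
      · exact A u v0 s (Or.inr hv)) v h
  exact sub_eq_zero.mp h1

/-- Positivity for good third index. -/
theorem five_Nb (hat : HatEx) {n : ℕ} {J : n.Partition → n.Partition → QA}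
    (hJ : IsJack RatFunc.X n J) (c : n.Partition → n.Partition → n.Partition → QA)
    (hc : ∀ l m v, ∑ p, J l p * c p m v = J l m * J l v) (p m v : n.Partition)
    (h : Good v) : c p m v ∈ Nb (RatFunc.X : QA) := by
  rw [five hat hJ c hc p m v h]
  unfold Kn
  refine nb QA RatFunc.X p.parts.toList _ fun S => ?_
  split_ifs
  · exact one_mem _
  · exact zero_mem _

end

end Pool.Agent.MJF
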