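import Pool.Agent.MJF.Base
import Pool.Agent.MJX.TMod

/-!
The map from the arc model to the words.
-/

namespace Pool.Agent.MJF

open MvPolynomial Pool.Agent.MJR Pool.Agent.MJX

noncomputable section

/-- A commuting family of operators is the image of the variables under an algebra map. -/
theorem exists_ev {K σ N : Type} [Field K] [AddCommGroup N] [Module K N]
    (B : σ → Module.End K N) (hB : ∀ i j x, B i (B j x) = B j (B i x)) :
    ∃ ev : MvPolynomial σ K →ₐ[K] Module.End K N, ∀ i, ev (X i) = B i := by
  classical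
  have hc : ∀ a ∈ Set.range B, ∀ b ∈ Set.range B, a * b = b * a := by
    rintro _ ⟨j, rfl⟩ _ ⟨k, rfl⟩
    apply LinearMap.ext
    intro x
    exact hB j k x
  have hcm : IsMulCommutative (Algebra.adjoin K (Set.range B)) :=
    Algebra.isMulCommutative_adjoin K hc
  let _ : CommRing (Algebra.adjoin K (Set.range B)) :=
    { (inferInstance : Ring (Algebra.adjoin K (Set.range B))) with
      mul_comm := fun a b => hcm.is_comm.comm a b }
  let ev1 : MvPolynomial σ K →ₐ[K] Algebra.adjoin K (Set.range B) :=
    aeval fun k => ⟨B k, Algebra.subset_adjoin ⟨k, rfl⟩⟩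
  refine ⟨
    { toFun := fun f => (ev1 f : Module.End K N)
      map_one' := by rw [map_one]; rfl
      map_mul' := by intro f g; rw [map_mul]; rfl
      map_zero' := by rw [map_zero]; rfl
      map_add' := by intro f g; rw [map_add]; rfl
      commutes' := by intro c; rw [AlgHom.commutes]; rfl }, ?_⟩
  intro i
  change (ev1 (X i) : Module.End K N) = B i
  have : ev1 (X i) = ⟨B i, Algebra.subset_adjoin ⟨i, rfl⟩⟩ := aeval_X _ _
  rw [this]

variable {K : Type} [Field K] {kap : K}

/-- multiplication by the cycle `1^k`, insertion of the arc `1^a` -/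
def BR (tau : K) : ℕ ⊕ ℕ → Module.End K (RW K)
  | Sum.inl k => (LinearMap.lsmul (CW K) (RW K) (cy K (zs k))).restrictScalars K
  | Sum.inr a => IR tau a

theorem BR_inl (tau : K) (k : ℕ) (x : RW K) : BR tau (Sum.inl k) x = cy K (zs k) • x := rfl

theorem BR_inr (tau : K) (a : ℕ) (x : RW K) : BR tau (Sum.inr a) x = IR tau a x := rfl

theorem BR_comm (tau : K) (i j : ℕ ⊕ ℕ) (x : RW K) :
    BR tau i (BR tau j x) = BR tau j (BR tau i x) := by
  rcases i with k | a <;> rcases j with l | c
  · simp only [BR_inl]
    exact smul_comm _ _ _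
  · simp only [BR_inl, BR_inr]
    exact ((comm K).pr tau c k x).symm
  · simp only [BR_inl, BR_inr]
    exact (comm K).pr tau a l x
  · simp only [BR_inr]
    exact (comm K).r tau a c x

/-- the operators on closed words -/
def BC (tau : K) : ℕ ⊕ ℕ → Module.End K (CW K)
  | Sum.inl k => LinearMap.mulLeft K (cy K (zs k))
  | Sum.inr a => IC tau a

theorem BC_inl (tau : K) (k : ℕ) (x : CW K) : BC tau (Sum.inl k) x = cy K (zs k) * x := rfl

theorem BC_inr (tau : K) (a : ℕ) (x : CW K) : BC tau (Sum.inr a) x = IC tau a x := rfl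

theorem BC_comm (tau : K) (i j : ℕ ⊕ ℕ) (x : CW K) :
    BC tau i (BC tau j x) = BC tau j (BC tau i x) := by
  rcases i with k | a <;> rcases j with l | c
  · simp only [BC_inl]
    ring
  · simp only [BC_inl, BC_inr]
    exact ((comm K).p tau c k x).symm
  · simp only [BC_inl, BC_inr]
    exact (comm K).p tau a l x
  · simp only [BC_inr]
    exact (comm K).c tau a c x

def evR (tau : K) : CM K →ₐ[K] Module.End K (RW K) := (exists_ev (BR tau) (BR_comm tau)).choose

theorem evR_X (tau : K) (i : ℕ ⊕ ℕ) : evR tau (X i) = BR tau i :=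
  (exists_ev (BR tau) (BR_comm tau)).choose_spec i

def evC (tau : K) : CM K →ₐ[K] Module.End K (CW K) := (exists_ev (BC tau) (BC_comm tau)).choose

theorem evC_X (tau : K) (i : ℕ ⊕ ℕ) : evC tau (X i) = BC tau i :=
  (exists_ev (BC tau) (BC_comm tau)).choose_spec i

theorem evR_mul (tau : K) (f g : CM K) (x : RW K) : evR tau (f * g) x = evR tau f (evR tau g x) := by
  rw [map_mul]
  rfl

theorem evC_mul (tau : K) (f g : CM K) (x : CW K) : evC tau (f * g) x = evC tau f (evC tau g x) := by
  rw [map_mul]
  rfl

theorem evR_C (tau c : K) (x : RW K) : evR tau (C c) x = c • x := by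
  have h : evR tau (C c) = algebraMap K (Module.End K (RW K)) c := (evR tau).commutes c
  rw [h]
  rfl

theorem evC_C (tau c : K) (x : CW K) : evC tau (C c) x = c • x := by
  have h : evC tau (C c) = algebraMap K (Module.End K (CW K)) c := (evC tau).commutes c
  rw [h]
  rfl

theorem evR_one (tau : K) (x : RW K) : evR tau 1 x = x := by
  rw [map_one]
  rfl

/-- An operator which commutes with the `B_i` commutes with everything. -/
theorem ev_comm {σ N N' : Type} [AddCommGroup N] [Module K N] [AddCommGroup N'] [Module K N']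
    (ev : MvPolynomial σ K →ₐ[K] Module.End K N) (ev' : MvPolynomial σ K →ₐ[K] Module.End K N')
    (O : N →ₗ[K] N') (h : ∀ i x, O (ev (X i) x) = ev' (X i) (O x))
    (f : MvPolynomial σ K) (x : N) : O (ev f x) = ev' f (O x) := by
  induction f using MvPolynomial.induction_on generalizing x with
  | C c =>
    have h1 : ev (C c) = algebraMap K (Module.End K N) c := ev.commutes c
    have h2 : ev' (C c) = algebraMap K (Module.End K N') c := ev'.commutes c
    rw [h1, h2]
    exact map_smul O c x
  | add f g hf hg =>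
    rw [map_add, map_add]
    change O (ev f x + ev g x) = ev' f (O x) + ev' g (O x)
    rw [map_add, hf, hg]
  | mul_X f i hf =>
    rw [map_mul, map_mul]
    change O (ev f (ev (X i) x)) = ev' f (ev' (X i) (O x))
    rw [hf, h]

/-- the basis words -/
def bw (K : Type) [Field K] : Ix → RW K
  | Sum.inl j => rw1 K (zs j)
  | Sum.inr (j, a) => rw1 K (zs j ++ true :: zs a)

/-- The map on states with a root. -/
def iR (tau : K) : AM K kap →ₗ[K] RW K :=
  Finsupp.lsum K fun x =>
    { toFun := fun f => evR tau f (bw K x)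
      map_add' := by
        intro f g
        rw [map_add]
        rfl
      map_smul' := by
        intro c f
        rw [map_smul]
        rfl }

/-- The map on closed states. -/
def ic (tau : K) : CM K →ₗ[K] CW K where
  toFun f := evC tau f 1
  map_add' := by
    intro f g
    rw [map_add]
    rfl
  map_smul' := by
    intro c f
    rw [map_smul]
    rfl

theorem iR_sg (tau : K) (i : Ix) (f : CM K) :
    iR tau (sg i f : AM K kap) = evR tau f (bw K i) := by
  have h := Finsupp.lsum_single K (fun x : Ix =>
    ({ toFun := fun f => evR tau f (bw K x)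
       map_add' := by
        intro f g
        rw [map_add]
        rfl
       map_smul' := by
        intro c f
        rw [map_smul]
        rfl } : CM K →ₗ[K] RW K)) i f
  exact h

theorem iR_smul (tau : K) (f : CM K) (x : AM K kap) : iR tau (f • x) = evR tau f (iR tau x) := by
  refine sg_induction (P := fun x => iR tau (f • x) = evR tau f (iR tau x)) x ?_ ?_ ?_
  · rw [smul_zero, map_zero, map_zero]
  · intro x y hx hy
    rw [smul_add, map_add, map_add, hx, hy, map_add]
  · intro i g
    rw [smul_sg, iR_sg, iR_sg, evR_mul]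

theorem iR_ksmul (tau c : K) (x : AM K kap) : iR tau (c • x) = c • iR tau x := map_smul _ _ _

theorem iR_w_pow (tau : K) (j : ℕ) : iR tau (wA ^ j : AM K kap) = rw1 K (zs j) := by
  rw [w_pow, iR_sg, evR_one]
  rfl

theorem iR_wmw (tau : K) (j a : ℕ) :
    iR tau (wA ^ j * mA * wA ^ a : AM K kap) = rw1 K (zs j ++ true :: zs a) := by
  rw [w_m_w, iR_sg, evR_one]
  rfl

theorem iR_one (tau : K) : iR tau (1 : AM K kap) = rw1 K [] := iR_w_pow (kap := kap) tau 0

theorem IR_smulK (tau : K) (a : ℕ) (c : K) (x : RW K) : IR tau a (c • x) = c • IR tau a x :=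
  map_smul _ _ _

theorem app_smulK (L : List Bool) (c : K) (x : RW K) : app L (c • x) = c • app L x :=
  LinearMap.map_smul_of_tower (app L) c x

theorem pre_smulK (L : List Bool) (c : K) (x : RW K) : pre L (c • x) = c • pre L x :=
  LinearMap.map_smul_of_tower (pre L) c x

theorem BR_app (tau : K) (i : ℕ ⊕ ℕ) (x : RW K) :
    app [false] (BR tau i x) = BR tau i (app [false] x) := by
  rcases i with k | a
  · exact app_smul _ _ _
  · rw [BR_inr, BR_inr, IR_apply, IR_apply, map_add, app_smul, dR_app, dl_false, map_zero,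
      add_zero, app_smulK]

theorem iR_mul_w (tau : K) (x : AM K kap) : iR tau (x * wA) = app [false] (iR tau x) := by
  refine sg_induction (P := fun x => iR tau (x * wA) = app [false] (iR tau x)) x ?_ ?_ ?_
  · rw [zero_mul, map_zero, map_zero]
  · intro x y hx hy
    rw [add_mul, map_add, map_add, hx, hy, map_add]
  · intro i f
    have h : ∀ y : RW K, app [false] (evR tau f y) = evR tau f (app [false] y) := by
      intro y
      exact ev_comm (evR tau) (evR tau)
        ((app [false] : RW K →ₗ[CW K] RW K).restrictScalars K)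
        (fun i x => by rw [evR_X]; exact BR_app tau i x) f y
    rcases i with j | ⟨j, a⟩
    · rw [sg_mul_w, iR_sg, iR_sg, h]
      change _ = evR tau f (app [false] (rw1 K (zs j)))
      rw [app_rw1, zs_snoc]
      rfl
    · rw [sg1_mul_w, iR_sg, iR_sg, h]
      change _ = evR tau f (app [false] (rw1 K (zs j ++ true :: zs a)))
      rw [app_rw1, List.append_assoc, List.cons_append, zs_snoc]
      rfl

theorem BR_pre (tau : K) (i : ℕ ⊕ ℕ) (k : ℕ) (x : RW K) :
    pre (zs k) (BR tau i x) = BR tau i (pre (zs k) x) := by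
  rcases i with l | a
  · exact map_smul (pre (zs k)) (cy K (zs l)) x
  · rw [BR_inr, BR_inr, IR_apply, IR_apply, map_add, map_smul, dR_pre, dl_replicate, cat_zero,
      add_zero, pre_smulK]

theorem evR_pre (tau : K) (f : CM K) (k : ℕ) (x : RW K) :
    pre (zs k) (evR tau f x) = evR tau f (pre (zs k) x) :=
  ev_comm (evR tau) (evR tau) ((pre (zs k) : RW K →ₗ[CW K] RW K).restrictScalars K)
    (fun i x => by rw [evR_X]; exact BR_pre tau i k x) f x

theorem pow_mul_sg (k : ℕ) (i : Ix) (f : CM K) : (wA ^ k * sg i f : AM K kap) =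
    sg (match i with
      | Sum.inl j => Sum.inl (k + j)
      | Sum.inr (j, a) => Sum.inr (k + j, a)) f := by
  rw [w_pow, sg_mul_sg, one_mul]
  rcases i with j | ⟨j, a⟩
  · rw [bp, ← sg_eq]
  · rw [bp, ← sg_eq]

theorem iR_pow_mul (tau : K) (k : ℕ) (x : AM K kap) :
    iR tau (wA ^ k * x) = pre (zs k) (iR tau x) := by
  refine sg_induction (P := fun x => iR tau (wA ^ k * x) = pre (zs k) (iR tau x)) x ?_ ?_ ?_
  · rw [mul_zero, map_zero, map_zero]
  · intro x y hx hy
    rw [mul_add, map_add, map_add, hx, hy, map_add]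
  · intro i f
    rw [pow_mul_sg, iR_sg, iR_sg, evR_pre]
    rcases i with j | ⟨j, a⟩
    · change _ = evR tau f (pre (zs k) (rw1 K (zs j)))
      rw [pre_rw1, zs_add]
      rfl
    · change _ = evR tau f (pre (zs k) (rw1 K (zs j ++ true :: zs a)))
      rw [pre_rw1, ← List.append_assoc, zs_add]
      rfl

/-! ### The touches of the zeros -/

/-- marks at the end, for states without arcs -/
theorem iR_rW_mul_m (tau b : K) (j k : ℕ) :
    iR tau (rW b kap j * wA ^ k * mA) = app [true] (iR tau (rW b kap j * wA ^ k)) := by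
  induction j generalizing k with
  | zero =>
    rw [rW, zero_mul, zero_mul, map_zero, map_zero]
  | succ j ih =>
    have e1 : (rW b kap j * wA * wA ^ k : AM K kap) = rW b kap j * wA ^ (k + 1) := by
      rw [mul_assoc, pow_succ']
    have e2 : ((X (Sum.inl (j + 1)) : CM K) • (1 : AM K kap)) * wA ^ k =
        (X (Sum.inl (j + 1)) : CM K) • wA ^ k := by
      rw [smul_mul_assoc, one_mul]
    have e3 : (b • wA ^ (j + 1) : AM K kap) * wA ^ k = b • wA ^ (j + 1 + k) := by
      rw [smul_mul_assoc, ← pow_add]
    have h : ∀ n : ℕ, iR tau (wA ^ n * mA : AM K kap) = app [true] (iR tau (wA ^ n : AM K kap)) := by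
      intro n
      have h1 := iR_wmw (kap := kap) tau n 0
      rw [pow_zero, mul_one] at h1
      rw [h1, iR_w_pow, app_rw1]
      rfl
    have e4 : (rW b kap (j + 1) * wA ^ k : AM K kap) = rW b kap j * wA ^ (k + 1) +
        (X (Sum.inl (j + 1)) : CM K) • wA ^ k + b • wA ^ (j + 1 + k) := by
      rw [rW, add_mul, add_mul, e1, e2, e3]
    rw [e4, add_mul, add_mul, map_add, map_add, map_add, map_add,
      map_add, map_add, ih, smul_mul_assoc, smul_mul_assoc, iR_smul, iR_ksmul, h, h, iR_smul,
      iR_ksmul, evR_X, BR_inl, BR_inl, app_smul, app_smulK]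

theorem iR_rW (al tau : K) (j : ℕ) :
    iR tau (rW (al - 1) kap j) = T al false (rw1 K (zs j)) := by
  induction j with
  | zero =>
    rw [rW, map_zero, T_rw1]
    rfl
  | succ j ih =>
    rw [rW, map_add, map_add, iR_mul_w, ih, iR_smul, iR_one, iR_ksmul, iR_w_pow, evR_X, BR_inl]
    have h := T_app_self al false (rw1 K (zs j))
    rw [app_rw1, zs_snoc, clw_rw1, rvw_rw1, app_rw1, zs_rev, zs_snoc] at h
    rw [h, bC_smul]

theorem iR_tM (al tau : K) (j a : ℕ) :
    iR tau (tM (al - 1) kap j a) = T al false (rw1 K (zs j ++ true :: zs a)) := by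
  induction a with
  | zero =>
    have h := iR_rW_mul_m (kap := kap) tau (al - 1) j 0
    rw [pow_zero, mul_one] at h
    rw [tM, h, iR_rW, ← T_app_ne al (by simp), app_rw1]
    rfl
  | succ a ih =>
    rw [tM, map_add, map_add, iR_mul_w, ih, iR_smul, iR_one, iR_ksmul, iR_wmw, evR_X, BR_inr]
    have h := T_app_self al false (rw1 K (zs j ++ true :: zs a))
    have e1 : zs j ++ true :: zs a ++ [false] = zs j ++ true :: zs (a + 1) := by
      rw [← zs_snoc]
      simp
    have e2 : (zs j ++ true :: zs a).reverse ++ [false] = zs a ++ true :: zs (j + 1) := by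
      rw [List.reverse_append, List.reverse_cons, zs_rev, zs_rev, ← zs_snoc]
      simp
    have e3 : cy K (zs j ++ true :: zs (a + 1)) = cy K (arc (j + (a + 1))) := by
      rw [cy_rot]
      congr 1
      change true :: (zs (a + 1) ++ zs j) = true :: zs (j + (a + 1))
      rw [zs_add, add_comm]
    have e4 : IR tau (j + (a + 1)) (rw1 K []) = cy K (arc (j + (a + 1))) • rw1 K [] := by
      rw [IR_apply, dR_rw1, dl_nil, smul_zero, add_zero]
    rw [app_rw1, e1, clw_rw1, rvw_rw1, app_rw1, e2, e3] at h
    rw [h, bC_smul, e4]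

end

end Pool.Agent.MJF
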