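import Pool.Agent.MJF.Iota
import Pool.Agent.MJX.EMod

/-!
The map from the arc model to the words, part two.
-/

namespace Pool.Agent.MJF

open MvPolynomial Pool.Agent.MJR Pool.Agent.MJX Pool.Agent.MJX.EModM

noncomputable section

variable {K : Type} [Field K] {kap : K}

/-- `[T, B_i]` -/
def DI (al tau : K) (i : ℕ ⊕ ℕ) (y : RW K) : RW K :=
  T al false (BR tau i y) - BR tau i (T al false y)

theorem T_BR (al tau : K) (i : ℕ ⊕ ℕ) (y : RW K) :
    T al false (BR tau i y) = BR tau i (T al false y) + DI al tau i y := by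
  unfold DI
  abel

theorem DI_inl (al tau : K) (k : ℕ) (y : RW K) :
    DI al tau (Sum.inl k) y = (al * k) • pre (zs k) y := by
  unfold DI
  rw [BR_inl, BR_inl]
  have h := tp K al k y
  change T al false (cy K (zs k) • y) = _ at h
  rw [h]
  change cy K (zs k) • T al false y + _ - cy K (zs k) • T al false y = _
  abel

theorem DI_add (al tau : K) (i : ℕ ⊕ ℕ) (x y : RW K) :
    DI al tau i (x + y) = DI al tau i x + DI al tau i y := by
  unfold DI
  simp only [map_add]
  abel

theorem DI_smul (al tau : K) (i : ℕ ⊕ ℕ) (c : K) (x : RW K) :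
    DI al tau i (c • x) = c • DI al tau i x := by
  unfold DI
  rw [map_smul, map_smul, map_smul, map_smul, smul_sub]

/-- the double commutators vanish -/
theorem DI_BR (al tau : K) (i j : ℕ ⊕ ℕ) (y : RW K) :
    DI al tau i (BR tau j y) = BR tau j (DI al tau i y) := by
  rcases i with k | a
  · rw [DI_inl, DI_inl, BR_pre, map_smul]
  · rcases j with l | c
    · have h1 := T_BR al tau (Sum.inl l) (BR tau (Sum.inr a) y)
      have h2 := T_BR al tau (Sum.inl l) y
      have h3 := T_BR al tau (Sum.inr a) y
      rw [DI_inl] at h1 h2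
      unfold DI
      rw [BR_comm tau (Sum.inr a) (Sum.inl l) y, h1, h2, map_add, map_smul, ← BR_pre, map_sub,
        BR_comm tau (Sum.inr a) (Sum.inl l) (T al false y)]
      abel
    · unfold DI
      simp only [BR_inr, map_sub]
      exact tii K al tau a c y

/-- `DI` as a linear map -/
def DIL (al tau : K) (i : ℕ ⊕ ℕ) : RW K →ₗ[K] RW K where
  toFun := DI al tau i
  map_add' := DI_add al tau i
  map_smul' := DI_smul al tau i

theorem DI_evR (al tau : K) (i : ℕ ⊕ ℕ) (f : CM K) (y : RW K) :
    DI al tau i (evR tau f y) = evR tau f (DI al tau i y) :=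
  ev_comm (evR tau) (evR tau) (DIL al tau i) (fun j x => by rw [evR_X]; exact DI_BR al tau i j x)
    f y

theorem Ow0_mul_sg (c : ℕ) (i : Ix) : (Ow0 kap c * sg i 1 : AM K kap) =
    ∑ l ∈ Finset.range c, (wA ^ l * mA * wA ^ (c - l) * sg i 1) := by
  unfold Ow0
  rw [Finset.sum_mul]

theorem wmw_mul_sg (l n : ℕ) (i : Ix) : (wA ^ l * mA * wA ^ n * sg i 1 : AM K kap) =
    match i with
    | Sum.inl j => sg (Sum.inr (l, n + j)) 1
    | Sum.inr (j, a) => sg (Sum.inr (l, a)) (C kap * X (Sum.inr (n + j))) := by
  rw [w_m_w, sg_mul_sg, one_mul, one_smul]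
  rcases i with j | ⟨j, a⟩ <;> rfl

/-- the commutators on the basis words -/
theorem DI_bw (al tau : K) (ht : tau = al * kap) (hq : tau ^ 2 = (al - 1) * tau + al)
    (i : ℕ ⊕ ℕ) (x : Ix) :
    DI al tau i (bw K x) = iR tau (al • (o0 kap (X i) * sg x 1) : AM K kap) := by
  rcases i with k | c
  · rw [DI_inl, o0_inl, smul_mul_assoc, iR_ksmul, iR_ksmul, iR_pow_mul, iR_sg, evR_one, mul_smul]
  · rw [o0_inr, Ow0_mul_sg, iR_ksmul, map_sum]
    rcases x with j | ⟨j, a⟩
    · have h := (base K).ti0 al tau j c
      unfold DI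
      rw [BR_inr, BR_inr]
      change T al false (IR tau c (rw1 K (zs j))) - IR tau c (T al false (rw1 K (zs j))) = _
      rw [h, add_sub_cancel_left, ← Finset.sum_range_reflect]
      congr 1
      refine Finset.sum_congr rfl fun l hl => ?_
      rw [Finset.mem_range] at hl
      rw [wmw_mul_sg, iR_sg, evR_one]
      have e1 : c - 1 - (c - 1 - l) = l := by omega
      have e2 : j + (c - 1 - l) + 1 = c - l + j := by omega
      rw [e1, e2]
      rfl
    · have h := (base K).ti1 al tau j c a hq
      unfold DI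
      rw [BR_inr, BR_inr]
      change T al false (IR tau c (rw1 K (zs j ++ true :: zs a))) -
        IR tau c (T al false (rw1 K (zs j ++ true :: zs a))) = _
      rw [h, add_sub_cancel_left, ← Finset.sum_range_reflect, Finset.smul_sum, Finset.smul_sum]
      refine Finset.sum_congr rfl fun l hl => ?_
      rw [Finset.mem_range] at hl
      rw [wmw_mul_sg, iR_sg, evR_mul, evR_C, evR_X, BR_inr, smul_smul, ← ht]
      have e1 : c - 1 - (c - 1 - l) = l := by omega
      have e2 : j + (c - 1 - l) + 1 = c - l + j := by omega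
      rw [e1, e2]
      rfl

theorem o0_one : o0 kap (1 : CM K) = 0 := Derivation.map_one_eq_zero _

theorem T0_sg (al : K) (x : Ix) (f : CM K) : T0 al kap (sg x f) =
    f • T0 al kap (sg x 1) + al • (o0 kap f * sg x 1) := by
  unfold T0
  rw [FO_sg, FO_sg, one_smul]
  have h : (al • (o0 kap).toLinearMap) (1 : CM K) = 0 := by
    change al • o0 kap 1 = 0
    rw [o0_one, smul_zero]
  rw [h, zero_mul, add_zero]
  congr 1
  change (al • o0 kap f) * sg x 1 = _
  rw [smul_mul_assoc]

theorem T0_sg_one (al tau : K) (x : Ix) :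
    iR tau (T0 al kap (sg x 1)) = T al false (bw K x) := by
  unfold T0
  rw [FO_sg, one_smul]
  have h : (al • (o0 kap).toLinearMap) (1 : CM K) = 0 := by
    change al • o0 kap 1 = 0
    rw [o0_one, smul_zero]
  rw [h, zero_mul, add_zero]
  rcases x with j | ⟨j, a⟩
  · exact iR_rW al tau j
  · exact iR_tM al tau j a

/-- The touches of the zeros. -/
theorem iR_T0 (al tau : K) (ht : tau = al * kap) (hq : tau ^ 2 = (al - 1) * tau + al)
    (x : AM K kap) : iR tau (T0 al kap x) = T al false (iR tau x) := by
  refine sg_induction (P := fun x => iR tau (T0 al kap x) = T al false (iR tau x)) x ?_ ?_ ?_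
  · rw [map_zero, map_zero, map_zero]
  · intro x y hx hy
    rw [map_add, map_add, map_add, map_add, hx, hy]
  · intro i f
    rw [T0_sg, map_add, iR_smul, T0_sg_one, iR_sg]
    induction f using MvPolynomial.induction_on with
    | C c =>
      have h : o0 kap (C c) = 0 := o0_C c
      rw [h, zero_mul, smul_zero, map_zero, add_zero, evR_C, evR_C, map_smul]
    | add f g hf hg =>
      have h : ∀ y : RW K, evR tau (f + g) y = evR tau f y + evR tau g y := by
        intro y
        rw [map_add]
        rfl
      rw [h, h, map_add, map_add, add_mul, smul_add, map_add, ← hf, ← hg]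
      abel
    | mul_X f k hf =>
      have h1 : ∀ y : RW K, evR tau (f * X k) y = BR tau k (evR tau f y) := by
        intro y
        rw [mul_comm, evR_mul, evR_X]
      rw [h1, h1, T_BR, ← hf, DI_evR, DI_bw al tau ht hq, o0_mul, add_mul, smul_add, map_add,
        map_add, smul_mul_assoc, smul_mul_assoc, smul_comm al f, smul_comm al (X k), iR_smul,
        iR_smul, evR_X]
      abel

/-! ### Closing, the empty root -/

theorem clw_evR (tau : K) (f : CM K) (y : RW K) :
    clw K (evR tau f y) = evC tau f (clw K y) := by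
  refine ev_comm (evR tau) (evC tau) ((clw K).restrictScalars K) (fun i x => ?_) f y
  rw [evR_X, evC_X]
  rcases i with k | a
  · change clw K (cy K (zs k) • x) = cy K (zs k) * clw K x
    rw [clw_smul]
  · exact (comm K).cl tau a x

theorem iw_evC (tau : K) (f : CM K) (g : CW K) :
    iw K (evC tau f g) = evR tau f (iw K g) := by
  refine ev_comm (evC tau) (evR tau) (iw K) (fun i x => ?_) f g
  rw [evR_X, evC_X]
  rcases i with k | a
  · change (Finsupp.single [] (cy K (zs k) * x) : RW K) = cy K (zs k) • Finsupp.single [] x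
    rw [Finsupp.smul_single, smul_eq_mul]
  · exact ((comm K).i tau a x).symm

theorem ic_one (tau : K) : ic tau 1 = 1 := by
  change evC tau 1 1 = 1
  have h : evC tau 1 = 1 := map_one (evC tau)
  rw [h]
  rfl

theorem ic_mul (tau : K) (f g : CM K) : ic tau (f * g) = evC tau f (ic tau g) := evC_mul tau f g 1

theorem ic_inl (tau : K) (k : ℕ) : ic tau (X (Sum.inl k)) = cy K (zs k) := by
  change evC tau (X (Sum.inl k)) 1 = _
  rw [evC_X, BC_inl, mul_one]

theorem ic_inr (tau : K) (a : ℕ) : ic tau (X (Sum.inr a)) = cy K (arc a) := by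
  change evC tau (X (Sum.inr a)) 1 = _
  rw [evC_X, BC_inr, IC_apply, mul_one, Derivation.map_one_eq_zero, smul_zero, add_zero]

theorem iR_iA (tau : K) (f : CM K) : iR tau (iA kap f) = iw K (ic tau f) := by
  rw [iA_apply, iR_smul, iR_one]
  change _ = iw K (evC tau f 1)
  rw [iw_evC]
  rfl

theorem clw_iR_sg (tau : K) (i : Ix) (hi : i ≠ Sum.inl 0) (f : CM K) :
    clw K (iR tau (sg i f : AM K kap)) = ic tau (cA (sg i f : AM K kap)) := by
  rw [iR_sg, clw_evR]
  rcases i with j | ⟨j, a⟩
  · have hj : j ≠ 0 := by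
      rintro rfl
      exact hi rfl
    rw [cA_inl, if_neg hj, ic_mul, ic_inl]
    change evC tau f (clw K (rw1 K (zs j))) = _
    rw [clw_rw1]
  · rw [cA_inr, ic_mul, ic_inr]
    change evC tau f (clw K (rw1 K (zs j ++ true :: zs a))) = _
    rw [clw_rw1, cy_rot]
    congr 2
    change true :: (zs a ++ zs j) = true :: zs (j + a)
    rw [zs_add, add_comm]

theorem clw_iR_w (tau : K) (x : AM K kap) :
    clw K (iR tau (wA * x)) = ic tau (cA (wA * x)) := by
  refine sg_induction (P := fun x => clw K (iR tau (wA * x)) = ic tau (cA (wA * x))) x ?_ ?_ ?_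
  · rw [mul_zero, map_zero, map_zero, map_zero, map_zero]
  · intro x y hx hy
    rw [mul_add, map_add, map_add, map_add, map_add, hx, hy]
  · intro i f
    have h : (wA * sg i f : AM K kap) = sg (match i with
      | Sum.inl j => Sum.inl (1 + j)
      | Sum.inr (j, a) => Sum.inr (1 + j, a)) f := by
      have := pow_mul_sg (kap := kap) 1 i f
      rwa [pow_one] at this
    rw [h]
    apply clw_iR_sg
    rcases i with j | ⟨j, a⟩
    · intro h
      have := Sum.inl.inj h
      omega
    · exact fun h => by cases h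

theorem m_mul_sg (i : Ix) (f : CM K) : (mA * sg i f : AM K kap) =
    match i with
    | Sum.inl j => sg (Sum.inr (0, j)) f
    | Sum.inr (j, a) => sg (Sum.inr (0, a)) (f * (C kap * X (Sum.inr j))) := by
  rw [mA, sg_mul_sg, one_mul]
  rcases i with j | ⟨j, a⟩
  · rw [bp, zero_add, ← sg_eq]
  · rw [bp, zero_add, smul_sg]

theorem clw_iR_m (tau : K) (x : AM K kap) :
    clw K (iR tau (mA * x)) = ic tau (cA (mA * x)) := by
  refine sg_induction (P := fun x => clw K (iR tau (mA * x)) = ic tau (cA (mA * x))) x ?_ ?_ ?_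
  · rw [mul_zero, map_zero, map_zero, map_zero, map_zero]
  · intro x y hx hy
    rw [mul_add, map_add, map_add, map_add, map_add, hx, hy]
  · intro i f
    rw [m_mul_sg]
    rcases i with j | ⟨j, a⟩
    · exact clw_iR_sg tau _ (fun h => by cases h) _
    · exact clw_iR_sg tau _ (fun h => by cases h) _

end

end Pool.Agent.MJF
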