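import Pool.Agent.MJF.Iota2

/-!
The map from the arc model to the words, part three: the insertions, forgetting the colours.
-/

namespace Pool.Agent.MJF

open MvPolynomial Pool.Agent.MJR Pool.Agent.MJX Pool.Agent.MJX.EModM

noncomputable section

variable {K : Type} [Field K] {kap : K}

/-- the insertion of a mark, without the factor `s` -/
def A2 (al u2 : K) : RW K →ₗ[K] RW K :=
  (pre [true] : RW K →ₗ[CW K] RW K).restrictScalars K ∘ₗ (u2 • LinearMap.id + T al true)

theorem A2_apply (al u2 : K) (x : RW K) : A2 al u2 x = pre [true] (u2 • x + T al true x) := rfl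

theorem A2_BR (hAI : St_AI K) (hAp : St_Ap K) {al tau u2 : K} (h1 : tau = u2 + (al - 1))
    (h2 : tau * u2 = al) (i : ℕ ⊕ ℕ) (x : RW K) :
    A2 al u2 (BR tau i x) = BR tau i (A2 al u2 x) := by
  rcases i with k | a
  · rw [BR_inl, BR_inl, A2_apply, A2_apply]
    have h := hAp al k x
    change T al true (cy K (zs k) • x) = cy K (zs k) • T al true x at h
    rw [h, ← map_smul (pre [true]) (cy K (zs k)), smul_add, smul_comm u2]
  · rw [BR_inr, BR_inr]
    exact hAI al tau u2 a x h1 h2

theorem iR_m (hAI : St_AI K) (hAp : St_Ap K) {al tau u2 : K} (h1 : tau = u2 + (al - 1))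
    (h2 : tau * u2 = al) (h3 : u2 * kap = 1) (x : AM K kap) :
    u2 • iR tau (mA * x) = A2 al u2 (iR tau x) := by
  refine sg_induction (P := fun x => u2 • iR tau (mA * x) = A2 al u2 (iR tau x)) x ?_ ?_ ?_
  · rw [mul_zero, map_zero, map_zero, smul_zero]
  · intro x y hx hy
    rw [mul_add, map_add, smul_add, hx, hy, map_add, map_add]
  · intro i f
    have h4 : ∀ y : RW K, A2 al u2 (evR tau f y) = evR tau f (A2 al u2 y) := by
      intro y
      exact ev_comm (evR tau) (evR tau) (A2 al u2)
        (fun i x => by rw [evR_X]; exact A2_BR hAI hAp h1 h2 i x) f y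
    rw [iR_sg, h4, m_mul_sg]
    rcases i with j | ⟨j, a⟩
    · have h5 := (base K).a0 al u2 j
      rw [iR_sg, ← map_smul]
      congr 1
      change u2 • rw1 K (zs 0 ++ true :: zs j) = A2 al u2 (rw1 K (zs j))
      rw [A2_apply]
      exact h5.symm
    · have h5 := (base K).a1 al tau u2 j a h1
      rw [iR_sg, evR_mul, evR_mul, evR_C, evR_X, ← map_smul, smul_smul, h3, one_smul]
      congr 1
      rw [BR_inr]
      change IR tau j (rw1 K (zs 0 ++ true :: zs a)) = A2 al u2 (rw1 K (zs j ++ true :: zs a))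
      rw [A2_apply]
      exact h5.symm

theorem Aw_apply (al u u2 s : K) (x : RW K) : Aw al u u2 s x =
    pre [false] (u • x + T al false x) + s • A2 al u2 x := rfl

theorem Aop_apply (al u v : K) (x : AM K kap) : Aop al kap u v x =
    wA * (u • x + T0 al kap x) + v • (mA * x) := rfl

/-- The insertions. -/
theorem iR_A (hAI : St_AI K) (hAp : St_Ap K) {al tau u2 : K} (h1 : tau = u2 + (al - 1))
    (h2 : tau * u2 = al) (h3 : u2 * kap = 1) (ht : tau = al * kap)
    (hq : tau ^ 2 = (al - 1) * tau + al) (u s : K) (x : AM K kap) :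
    iR tau (Aop al kap u (s * u2) x) = Aw al u u2 s (iR tau x) := by
  have h4 : iR tau (wA * (u • x + T0 al kap x)) =
      pre [false] (u • iR tau x + T al false (iR tau x)) := by
    have h5 := iR_pow_mul (kap := kap) tau 1 (u • x + T0 al kap x)
    rw [pow_one] at h5
    rw [h5, map_add, iR_ksmul, iR_T0 al tau ht hq]
    rfl
  rw [Aop_apply, Aw_apply, map_add, h4, iR_ksmul, mul_smul, iR_m hAI hAp h1 h2 h3]

/-- The closing after an insertion. -/
theorem clw_iR_A (tau al u v : K) (x : AM K kap) :
    clw K (iR tau (Aop al kap u v x)) = ic tau (cA (Aop al kap u v x)) := by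
  have h1 : ∀ (c : K) (y : RW K), clw K (c • y) = c • clw K y := fun c y =>
    LinearMap.map_smul_of_tower (clw K) c y
  have h2 : ∀ (c : K) (y : AM K kap), cA (c • y) = c • cA y := fun c y =>
    LinearMap.map_smul_of_tower cA c y
  rw [Aop_apply, map_add, map_add, map_add, map_add, clw_iR_w, iR_ksmul, h1, clw_iR_m, h2,
    map_smul]

/-- The process. -/
theorem Kw_eq (hAI : St_AI K) (hAp : St_Ap K) {al tau u2 : K} (h1 : tau = u2 + (al - 1))
    (h2 : tau * u2 = al) (h3 : u2 * kap = 1) (ht : tau = al * kap)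
    (hq : tau ^ 2 = (al - 1) * tau + al) (u s : K) (Kc : Lam K →ₗ[K] CM K) (hone : Kc 1 = 1)
    (hK : ∀ (k : ℕ) (f : Lam K), k ≠ 0 →
      Kc (X k * f) = cA ((Aop al kap u (s * u2) ^ k) (iA kap (Kc f))))
    (p : List ℕ) (hp : ∀ k ∈ p, k ≠ 0) :
    Kw al u u2 s p = ic tau (Kc (p.map fun k => (X k : Lam K)).prod) := by
  induction p with
  | nil =>
    rw [List.map_nil, List.prod_nil, hone, ic_one]
    rfl
  | cons k p ih =>
    have hk : k ≠ 0 := hp k (by simp)
    have hp' : ∀ l ∈ p, l ≠ 0 := fun l hl => hp l (by simp [hl])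
    rw [List.map_cons, List.prod_cons, hK k _ hk]
    change clw K ((Aw al u u2 s ^ k) (iw K (Kw al u u2 s p))) = _
    rw [ih hp', ← iR_iA (kap := kap)]
    have h4 : ∀ (n : ℕ) (x : AM K kap), (Aw al u u2 s ^ n) (iR tau x) =
        iR tau ((Aop al kap u (s * u2) ^ n) x) := by
      intro n x
      induction n with
      | zero => rfl
      | succ n ihn => rw [pow_succ', pow_succ', Module.End.mul_apply, Module.End.mul_apply, ihn,
          iR_A hAI hAp h1 h2 h3 ht hq]
    rw [h4]
    obtain ⟨n, rfl⟩ := Nat.exists_eq_succ_of_ne_zero hk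
    rw [Nat.succ_eq_add_one, pow_succ', Module.End.mul_apply, clw_iR_A]

/-! ### Forgetting the colours -/

theorem fgt_cy (L : List Bool) : fgt K (cy K L) = X L.length := by
  unfold fgt cy
  rw [aeval_X]
  rfl

theorem dP_ic (hF : St_fgt K) (tau : K) (a : ℕ) (f : CM K) :
    dP K (a + 1) (ic tau f) = ic tau (MJX.dl K a f) := by
  induction f using MvPolynomial.induction_on with
  | C c =>
    have h1 : MJX.dl K a (C c) = 0 := derivation_C _ _
    have h2 : ic tau (C c) = c • (1 : CW K) := evC_C tau c 1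
    rw [h1, h2, map_zero, Derivation.map_smul, Derivation.map_one_eq_zero, smul_zero]
  | add f g hf hg => rw [map_add, map_add, hf, hg, map_add, map_add]
  | mul_X f i hf =>
    rw [mul_comm f (X i), ic_mul, evC_X, Derivation.leibniz, map_add, smul_eq_mul, smul_eq_mul,
      ic_mul, evC_X]
    rcases i with k | c
    · have h1 : MJX.dl K a (X (Sum.inl k)) = 0 := by
        unfold MJX.dl
        rw [mkDerivation_X]
      rw [h1, mul_zero, map_zero, add_zero, BC_inl, BC_inl, ← hf]
      exact hF.pp (a + 1) k (ic tau f)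
    · have h1 : MJX.dl K a (X (Sum.inr c)) = X (Sum.inr (a + c + 1)) := by
        unfold MJX.dl
        rw [mkDerivation_X]
      rw [h1, mul_comm f, ic_mul, evC_X, BC_inr, BC_inr, BC_inr, hF.pI, hf]
      have e : a + 1 + c = a + c + 1 := by omega
      rw [e]

/-- Forgetting the colours of the words is forgetting the marks in the arc model. -/
theorem isT (hF : St_fgt K) (tau : K) :
    IsT tau ((fgt K).toLinearMap ∘ₗ ic tau) where
  one := by
    change fgt K (ic tau 1) = 1
    rw [ic_one, map_one]
  p := by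
    intro k f
    change fgt K (ic tau (X (Sum.inl k) * f)) = X k * fgt K (ic tau f)
    rw [ic_mul, evC_X, BC_inl, map_mul, fgt_cy, List.length_replicate]
  y := by
    intro a f
    change fgt K (ic tau (X (Sum.inr a) * f)) = fgt K (ic tau (Lop tau a f))
    have h1 : Lop tau a f = X (Sum.inl (a + 1)) * f + tau • MJX.dl K a f := rfl
    have h2 : (arc a).length = a + 1 := by
      unfold arc
      simp
    rw [h1, map_add, map_smul, ic_mul, ic_mul, evC_X, evC_X, BC_inl, BC_inr, IC_apply, ← dP_ic hF]
    have h3 : ∀ g : CW K, fgt K (tau • g) = tau • fgt K g := fun g => map_smul (fgt K) tau g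
    rw [map_add, map_add, map_mul, map_mul, fgt_cy, fgt_cy, h2, List.length_replicate, h3, h3,
      hF.d]

end

end Pool.Agent.MJF
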