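import Pool.Agent.MJF.Iota3
import Pool.Agent.MJF.AI

/-!
The map from the arc model to the words, part four: the touches of the marks.
-/

namespace Pool.Agent.MJF

open MvPolynomial Pool.Agent.MJR Pool.Agent.MJX Pool.Agent.MJX.EModM

noncomputable section

namespace Iota4

variable {K : Type} [Field K] {kap : K}

/-- the touches of the marks and the operators `BR` -/
theorem T2_BR {al tau u2 : K} (h2 : tau * u2 = al) (i : ℕ ⊕ ℕ) (x : RW K) :
    T al true (BR tau i x) = BR tau i (T al true x) +
      match i with
      | Sum.inl _ => 0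
      | Sum.inr c => tau • pre (zs c) (A2 al u2 x) := by
  rcases i with k | c
  · have h := aP K al k x
    change T al true (cy K (zs k) • x) = cy K (zs k) • T al true x at h
    rw [BR_inl, BR_inl, h, add_zero]
  · have h := T2_IR al tau u2 c x h2
    rw [map_add (IR tau c), map_smul (IR tau c), add_assoc] at h
    change T al true (IR tau c x) = IR tau c (T al true x) + tau • pre (zs c) (A2 al u2 x)
    rw [A2_apply, pre_pre]
    exact add_left_cancel h

theorem T2_zs (al : K) (j : ℕ) : T al true (rw1 K (zs j)) = 0 := by
  rw [T_rw1]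
  have h := tch_app_zs al j []
  rw [List.nil_append] at h
  rw [h]
  exact map_zero _

theorem T2_one (al : K) (j a : ℕ) : T al true (rw1 K (zs j ++ true :: zs a)) =
    cy K (arc j) • rw1 K (zs a) + (al - 1) • rw1 K (zs j ++ true :: zs a) := by
  have h := tch_app_zs al a (zs j ++ [true])
  have e : zs j ++ [true] ++ zs a = zs j ++ true :: zs a := by simp
  have h2 := T_app_self al true (rw1 K (zs j))
  have e2 : cy K (zs j ++ [true]) = cy K (arc j) := by
    rw [cy_rot]
    rfl
  rw [app_rw1, T2_zs, map_zero, zero_add, clw_rw1, rvw_rw1, app_rw1, zs_rev, e2, T_rw1] at h2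
  rw [e] at h
  rw [T_rw1, h, h2, bC_smul, map_add, app_smul, app_smulK, app_rw1, app_rw1, e]
  rfl

/-- The touches of the marks. -/
theorem iR_T1 {al tau u2 : K} (h1 : tau = u2 + (al - 1))
    (h2 : tau * u2 = al) (h3 : u2 * kap = 1) (hT : TSt K al kap)
    (x : AM K kap) : iR tau (T1 al kap x) = T al true (iR tau x) := by
  refine sg_induction (P := fun x => iR tau (T1 al kap x) = T al true (iR tau x)) x ?_ ?_ ?_
  · rw [map_zero, map_zero, map_zero]
  · intro x y hx hy
    rw [map_add, map_add, map_add, map_add, hx, hy]
  · intro i f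
    induction f using MvPolynomial.induction_on with
    | C c =>
      have h4 : (sg i (C c) : AM K kap) = c • sg i 1 := by
        rw [sg_eq, ksmul]
      rw [h4, map_smul, map_smul, map_smul, map_smul]
      congr 1
      rw [iR_sg, evR_one]
      rcases i with j | ⟨j, a⟩
      · change _ = T al true (rw1 K (zs j))
        rw [T2_zs, T1_inl, Derivation.map_one_eq_zero, smul_zero, zero_mul, map_zero]
      · change _ = T al true (rw1 K (zs j ++ true :: zs a))
        rw [T2_one, T1_inr, Derivation.map_one_eq_zero, smul_zero, zero_mul, add_zero, one_smul,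
          sM, map_add, iR_smul, iR_w_pow, iR_ksmul, iR_wmw, evR_X, BR_inr, IR_apply, dR_rw1,
          dl_replicate, smul_zero, add_zero]
    | add f g hf hg =>
      rw [sg_add, map_add, map_add, map_add, map_add, hf, hg]
    | mul_X f k hf =>
      rw [mul_comm f, ← smul_sg, hT.smul1, map_add, iR_smul, iR_smul, evR_X, hf, T2_BR h2,
        iR_ksmul]
      congr 1
      rcases k with k | c
      · have h5 : o1 kap (X (Sum.inl k) : CM K) = 0 := by
          unfold o1
          rw [mkDerivation_X]
        rw [h5, zero_mul, map_zero, smul_zero]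
      · have h5 : o1 kap (X (Sum.inr c) : CM K) = wA ^ c * mA := by
          unfold o1
          rw [mkDerivation_X]
        have h6 := iR_m (kap := kap) (aI K) (aP K) h1 h2 h3 (sg i f)
        change _ = tau • pre (zs c) (A2 al u2 (iR tau (sg i f)))
        rw [h5, mul_assoc, iR_pow_mul, ← h6, pre_smulK, smul_smul, h2]

end Iota4

end

end Pool.Agent.MJF
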