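import Pool.Agent.MJF.St

/-!
Basic rules for splits and for the operators on words.
-/

namespace Pool.Agent.MJF

open MvPolynomial Pool.Agent.MJR

noncomputable section

section
variable {α V W : Type} [AddCommMonoid V] [AddCommMonoid W]

theorem spl_nil (φ : List α → α → List α → V) : spl φ [] = 0 := rfl

theorem spl_cons (φ : List α → α → List α → V) (l : α) (L : List α) :
    spl φ (l :: L) = φ [] l L + spl (fun X x Y => φ (l :: X) x Y) L := rfl

theorem spl_congr {φ ψ : List α → α → List α → V} (h : ∀ X x Y, φ X x Y = ψ X x Y)
    (L : List α) : spl φ L = spl ψ L := by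
  have : φ = ψ := by
    funext X x Y
    exact h X x Y
  rw [this]

theorem spl_congr' {φ ψ : List α → α → List α → V} {L : List α}
    (h : ∀ X x Y, L = X ++ x :: Y → φ X x Y = ψ X x Y) : spl φ L = spl ψ L := by
  induction L generalizing φ ψ with
  | nil => rfl
  | cons l L ih =>
    rw [spl_cons, spl_cons, h [] l L rfl]
    congr 1
    apply ih
    intro X x Y hL
    apply h
    rw [hL]
    rfl

theorem spl_append (φ : List α → α → List α → V) (L L' : List α) :
    spl φ (L ++ L') = spl (fun X x Y => φ X x (Y ++ L')) L +
      spl (fun X x Y => φ (L ++ X) x Y) L' := by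
  induction L generalizing φ with
  | nil => simp [spl_nil]
  | cons l L ih =>
    rw [List.cons_append, spl_cons, spl_cons, ih, add_assoc]
    rfl

theorem spl_single (φ : List α → α → List α → V) (l : α) : spl φ [l] = φ [] l [] := by
  rw [spl_cons, spl_nil, add_zero]

theorem spl_add (φ ψ : List α → α → List α → V) (L : List α) :
    spl (fun X x Y => φ X x Y + ψ X x Y) L = spl φ L + spl ψ L := by
  induction L generalizing φ ψ with
  | nil => simp [spl_nil]
  | cons l L ih =>
    rw [spl_cons, spl_cons, spl_cons, ih]
    abel

theorem spl_zero (L : List α) : spl (fun _ _ _ => (0 : V)) L = 0 := by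
  induction L with
  | nil => rfl
  | cons l L ih => rw [spl_cons, ih, add_zero]

theorem spl_hom (f : V →+ W) (φ : List α → α → List α → V) (L : List α) :
    f (spl φ L) = spl (fun X x Y => f (φ X x Y)) L := by
  induction L generalizing φ with
  | nil => rw [spl_nil, spl_nil, map_zero]
  | cons l L ih => rw [spl_cons, spl_cons, map_add, ih]

/-- Two letters in a word: left then right. -/
theorem spl_spl (φ : List α → α → List α → α → List α → V) (L : List α) :
    spl (fun X x Y => spl (fun X1 x1 Y1 => φ X1 x1 Y1 x Y) X) L =
      spl (fun X x Y => spl (fun X1 x1 Y1 => φ X x X1 x1 Y1) Y) L := by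
  induction L generalizing φ with
  | nil => rfl
  | cons l L ih =>
    rw [spl_cons, spl_cons, spl_nil, zero_add]
    have h : (fun X x Y => spl (fun X1 x1 Y1 => φ X1 x1 Y1 x Y) (l :: X)) =
        fun X x Y => (fun X x Y => φ [] l X x Y) X x Y +
          spl (fun X1 x1 Y1 => φ (l :: X1) x1 Y1 x Y) X := by
      funext X x Y
      rw [spl_cons]
    rw [h, spl_add, ih]

theorem spl_reverse (φ : List α → α → List α → V) (L : List α) :
    spl φ L.reverse = spl (fun X x Y => φ Y.reverse x X.reverse) L := by
  induction L generalizing φ with
  | nil => rfl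
  | cons l L ih =>
    rw [List.reverse_cons, spl_append, spl_single, ih, spl_cons, add_comm]
    congr 1
    · simp
    · apply spl_congr
      intro X x Y
      simp

theorem spl_replicate (φ : List α → α → List α → V) (l : α) (n : ℕ) :
    spl φ (List.replicate n l) =
      ∑ i ∈ Finset.range n, φ (List.replicate i l) l (List.replicate (n - 1 - i) l) := by
  induction n generalizing φ with
  | zero => rfl
  | succ n ih =>
    rw [List.replicate_succ, spl_cons, ih, Finset.sum_range_succ', add_comm]
    congr 1
    refine Finset.sum_congr rfl fun i _ => ?_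
    have : n + 1 - 1 - (i + 1) = n - 1 - i := by omega
    rw [this]
    rfl

end

variable {K : Type} [Field K]

/-! ### cyclic words -/

theorem cy_rot (A B : List Bool) : cy K (A ++ B) = cy K (B ++ A) := by
  unfold cy
  congr 1
  exact Cycle.coe_eq_coe.mpr List.isRotated_append

theorem rot_split {α : Type} {L L' : List α} (h : L ~r L') : ∃ A B, L = A ++ B ∧ L' = B ++ A := by
  obtain ⟨n, hn⟩ := h
  refine ⟨L.take (n % L.length), L.drop (n % L.length), (List.take_append_drop _ _).symm, ?_⟩
  rw [← hn, List.rotate_eq_drop_append_take_mod]

/-- A sum over the splits of a cyclic word. -/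
theorem spl_rot {α V : Type} [AddCommMonoid V] (h : α → List α → V) {L L' : List α}
    (hL : L ~r L') : spl (fun X x Y => h x (Y ++ X)) L = spl (fun X x Y => h x (Y ++ X)) L' := by
  obtain ⟨A, B, rfl, rfl⟩ := rot_split hL
  rw [spl_append, spl_append, add_comm]
  congr 1
  · apply spl_congr
    intro X x Y
    rw [List.append_assoc]
  · apply spl_congr
    intro X x Y
    rw [List.append_assoc]

def hop (al : K) (t x : Bool) (Z : List Bool) : RW K :=
  if x = t then rw1 K (Z ++ [t]) + (C (al - 1) : CW K) • rw1 K (Z.reverse ++ [t]) else 0

def hlc (K : Type) [Field K] (a : ℕ) (x : Bool) (Z : List Bool) : CW K :=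
  if x = true then cy K (true :: (List.replicate a false ++ true :: Z)) else 0

def hpc (K : Type) [Field K] (a : ℕ) (x : Bool) (Z : List Bool) : CW K :=
  if x = true then cy K (true :: (List.replicate a false ++ Z)) else 0

theorem opn_eq (al : K) (t : Bool) (L : List Bool) : opn al t L =
    spl (fun X x Y => hop al t x (Y ++ X)) L := rfl

theorem dlc_eq (a : ℕ) (L : List Bool) : dlc K a L =
    spl (fun X x Y => hlc K a x (Y ++ X)) L := by
  unfold dlc
  apply spl_congr
  intro X x Y
  unfold hlc
  by_cases hx : x = true
  · rw [if_pos hx, if_pos hx]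
    have : cy K (X ++ true :: (List.replicate a false ++ true :: Y)) =
        cy K ((true :: (List.replicate a false ++ true :: Y)) ++ X) := cy_rot _ _
    rw [this]
    simp
  · rw [if_neg hx, if_neg hx]

theorem dpc_eq (a : ℕ) (L : List Bool) : dpc K a L =
    spl (fun X x Y => hpc K a x (Y ++ X)) L := by
  unfold dpc
  apply spl_congr
  intro X x Y
  unfold hpc
  by_cases hx : x = true
  · rw [if_pos hx, if_pos hx]
    have : cy K (X ++ true :: (List.replicate a false ++ Y)) =
        cy K ((true :: (List.replicate a false ++ Y)) ++ X) := cy_rot _ _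
    rw [this]
    simp
  · rw [if_neg hx, if_neg hx]

theorem inv (K : Type) [Field K] : St_inv K where
  opn := by
    intro al t L L' h
    rw [opn_eq, opn_eq]
    exact spl_rot (hop al t) h
  dlc := by
    intro a L L' h
    rw [dlc_eq, dlc_eq]
    exact spl_rot (hlc K a) h
  dpc := by
    intro a L L' h
    rw [dpc_eq, dpc_eq]
    exact spl_rot (hpc K a) h

theorem out_rot (L : List Bool) : (Quotient.out (L : Cycle Bool)) ~r L :=
  Cycle.coe_eq_coe.mp (Quotient.out_eq (L : Cycle Bool))

theorem J_cy (al : K) (t : Bool) (L : List Bool) : J al t (cy K L) = opn al t L := by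
  unfold J cy
  rw [mkDerivation_X]
  exact (inv K).opn al t _ _ (out_rot L)

theorem dC_cy (a : ℕ) (L : List Bool) : dC K a (cy K L) = dlc K a L := by
  unfold dC cy
  rw [mkDerivation_X]
  exact (inv K).dlc a _ _ (out_rot L)

theorem dP_cy (a : ℕ) (L : List Bool) : dP K a (cy K L) = dpc K a L := by
  unfold dP cy
  rw [mkDerivation_X]
  exact (inv K).dpc a _ _ (out_rot L)

theorem cy_surj (z : Cycle Bool) : ∃ L : List Bool, (X z : CW K) = cy K L := by
  refine ⟨Quotient.out z, ?_⟩
  unfold cy
  congr 1
  exact (Quotient.out_eq z).symm

/-- Induction for closed words. -/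
theorem cw_induction {P : CW K → Prop} (f : CW K) (hC : ∀ c, P (C c))
    (hadd : ∀ f g, P f → P g → P (f + g)) (hX : ∀ f L, P f → P (f * cy K L)) : P f := by
  induction f using MvPolynomial.induction_on with
  | C c => exact hC c
  | add f g hf hg => exact hadd f g hf hg
  | mul_X f z hf =>
    obtain ⟨L, hL⟩ := cy_surj (K := K) z
    rw [hL]
    exact hX f L hf

theorem dCR_eq (a : ℕ) (f : CW K) : dCR K a f = dC K a f • rw1 K [] := by
  induction f using MvPolynomial.induction_on with
  | C c =>
    have h1 : dCR K a (C c) = 0 := by
      unfold dCR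
      exact derivation_C _ _
    have h2 : dC K a (C c) = 0 := by
      unfold dC
      exact derivation_C _ _
    rw [h1, h2, zero_smul]
  | add f g hf hg => rw [map_add, map_add, hf, hg, add_smul]
  | mul_X f z hf =>
    have h1 : dCR K a (X z) = dlc K a (Quotient.out z) • rw1 K [] := by
      unfold dCR
      rw [mkDerivation_X]
    have h2 : dC K a (X z) = dlc K a (Quotient.out z) := by
      unfold dC
      rw [mkDerivation_X]
    rw [Derivation.leibniz, Derivation.leibniz, hf, h1, h2]
    simp only [smul_smul, add_smul, smul_eq_mul]

/-! ### the product of a root word with a root state -/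

/-- `cat y x = y x` -/
def cat (y : RW K) : RW K →ₗ[CW K] RW K := Finsupp.linearCombination (CW K) fun L => app L y

theorem app_single (L X : List Bool) (f : CW K) :
    app L (Finsupp.single X f : RW K) = Finsupp.single (X ++ L) f := by
  unfold app
  rw [Finsupp.lmapDomain_apply, Finsupp.mapDomain_single]

theorem pre_single (L X : List Bool) (f : CW K) :
    pre L (Finsupp.single X f : RW K) = Finsupp.single (L ++ X) f := by
  unfold pre
  rw [Finsupp.lmapDomain_apply, Finsupp.mapDomain_single]

theorem app_rw1 (L X : List Bool) : app L (rw1 K X) = rw1 K (X ++ L) := app_single _ _ _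

theorem pre_rw1 (L X : List Bool) : pre L (rw1 K X) = rw1 K (L ++ X) := pre_single _ _ _

theorem single_eq (L : List Bool) (f : CW K) :
    (Finsupp.single L f : RW K) = f • rw1 K L := by
  unfold rw1
  rw [Finsupp.smul_single, smul_eq_mul, mul_one]

theorem cat_single (y : RW K) (L : List Bool) (f : CW K) :
    cat y (Finsupp.single L f) = f • app L y := Finsupp.linearCombination_single _ _ _

theorem cat_rw1 (y : RW K) (L : List Bool) : cat y (rw1 K L) = app L y := by
  unfold rw1
  rw [cat_single, one_smul]

theorem cat_add (y z x : RW K) : cat (y + z) x = cat y x + cat z x := by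
  induction x using Finsupp.induction_linear with
  | zero => simp
  | add p q hp hq =>
    rw [map_add, map_add, map_add, hp, hq]
    abel
  | single L f => rw [cat_single, cat_single, cat_single, map_add, smul_add]

theorem cat_smul (c : CW K) (y x : RW K) : cat (c • y) x = c • cat y x := by
  induction x using Finsupp.induction_linear with
  | zero => simp
  | add p q hp hq => rw [map_add, map_add, hp, hq, smul_add]
  | single L f => rw [cat_single, cat_single, map_smul, smul_comm]

theorem cat_rw1_left (X : List Bool) (x : RW K) : cat (rw1 K X) x = pre X x := by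
  induction x using Finsupp.induction_linear with
  | zero => simp
  | add p q hp hq => rw [map_add, map_add, hp, hq]
  | single L f => rw [cat_single, app_rw1, pre_single, single_eq (X ++ L)]

theorem cat_zero (x : RW K) : cat (0 : RW K) x = 0 := by
  have := cat_smul (0 : CW K) (0 : RW K) x
  rwa [zero_smul, zero_smul] at this

theorem cat_sub (y z x : RW K) : cat (y - z) x = cat y x - cat z x := by
  have h : y - z = y + (-1 : CW K) • z := by rw [neg_one_smul, sub_eq_add_neg]
  rw [h, cat_add, cat_smul, neg_one_smul, sub_eq_add_neg]

theorem cat_sum {ι : Type} (s : Finset ι) (y : ι → RW K) (x : RW K) :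
    cat (∑ i ∈ s, y i) x = ∑ i ∈ s, cat (y i) x := by
  classical
  induction s using Finset.induction_on with
  | empty => simp [cat_zero]
  | insert i s hi ih => rw [Finset.sum_insert hi, Finset.sum_insert hi, cat_add, ih]

/-! ### `opr` -/

theorem opr_single (d : Derivation K (CW K) (RW K)) (g : List Bool → RW K) (L : List Bool)
    (f : CW K) : opr d g (Finsupp.single L f) = f • g L + app L (d f) := by
  unfold opr
  rw [Finsupp.lsum_single]
  rfl

theorem opr_rw1 (d : Derivation K (CW K) (RW K)) (g : List Bool → RW K) (L : List Bool) :
    opr d g (rw1 K L) = g L := by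
  unfold rw1
  rw [opr_single, one_smul, Derivation.map_one_eq_zero, map_zero, add_zero]

theorem opr_smul (d : Derivation K (CW K) (RW K)) (g : List Bool → RW K) (f : CW K)
    (x : RW K) : opr d g (f • x) = f • opr d g x + cat (d f) x := by
  induction x using Finsupp.induction_linear with
  | zero => simp
  | add p q hp hq =>
    rw [smul_add, map_add, hp, hq, map_add, map_add, smul_add]
    abel
  | single L h =>
    rw [Finsupp.smul_single, opr_single, opr_single, smul_eq_mul, Derivation.leibniz, map_add,
      map_smul, map_smul, cat_single, smul_add, smul_smul]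
    abel

theorem opr_ext {O O' : RW K →ₗ[K] RW K} (h : ∀ (f : CW K) (L : List Bool),
    O (f • rw1 K L) = O' (f • rw1 K L)) (x : RW K) : O x = O' x := by
  induction x using Finsupp.induction_linear with
  | zero => simp
  | add p q hp hq => rw [map_add, map_add, hp, hq]
  | single L f =>
    rw [single_eq]
    exact h f L

theorem T_smul (al : K) (t : Bool) (f : CW K) (x : RW K) :
    T al t (f • x) = f • T al t x + cat (J al t f) x := opr_smul _ _ _ _

theorem T_rw1 (al : K) (t : Bool) (L : List Bool) : T al t (rw1 K L) = tch al t L :=
  opr_rw1 _ _ _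

theorem dR_rw1 (a : ℕ) (L : List Bool) : dR K a (rw1 K L) = dl K a L := opr_rw1 _ _ _

theorem cat_rw1_nil (x : RW K) : cat (rw1 K []) x = x := by
  induction x using Finsupp.induction_linear with
  | zero => simp
  | add p q hp hq => rw [map_add, hp, hq]
  | single L f => rw [cat_single, app_rw1, List.nil_append, ← single_eq]

theorem dR_smul (a : ℕ) (f : CW K) (x : RW K) :
    dR K a (f • x) = f • dR K a x + dC K a f • x := by
  have h : dR K a (f • x) = f • dR K a x + cat (dCR K a f) x := opr_smul _ _ _ _
  rw [h, dCR_eq, cat_smul, cat_rw1_nil]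

theorem IR_apply (tau : K) (a : ℕ) (x : RW K) :
    IR tau a x = cy K (arc a) • x + tau • dR K a x := rfl

theorem IC_apply (tau : K) (a : ℕ) (f : CW K) :
    IC tau a f = cy K (arc a) * f + tau • dC K a f := rfl

/-- `dl` and products -/
theorem dl_append (a : ℕ) (L L' : List Bool) :
    dl K a (L ++ L') = app L' (dl K a L) + pre L (dl K a L') := by
  unfold dl
  rw [spl_append]
  congr 1
  · have h := spl_hom (app L' : RW K →ₗ[CW K] RW K).toAddMonoidHom (fun X x Y =>
      if x = true then rw1 K (X ++ true :: (List.replicate a false ++ true :: Y)) else 0) L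
    refine Eq.trans ?_ h.symm
    apply spl_congr
    intro X x Y
    change _ = app L' _
    split_ifs
    · rw [app_rw1]
      simp
    · rw [map_zero]
  · have h := spl_hom (pre L : RW K →ₗ[CW K] RW K).toAddMonoidHom (fun X x Y =>
      if x = true then rw1 K (X ++ true :: (List.replicate a false ++ true :: Y)) else 0) L'
    refine Eq.trans ?_ h.symm
    apply spl_congr
    intro X x Y
    change _ = pre L _
    split_ifs
    · rw [pre_rw1]
      simp
    · rw [map_zero]

theorem app_smul (L : List Bool) (c : CW K) (x : RW K) : app L (c • x) = c • app L x :=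
  map_smul _ _ _

theorem dR_app (a : ℕ) (L : List Bool) (y : RW K) :
    dR K a (app L y) = app L (dR K a y) + cat y (dl K a L) := by
  induction y using Finsupp.induction_linear with
  | zero => simp [cat_zero]
  | add p q hp hq =>
    rw [map_add, map_add, hp, hq, map_add, map_add, cat_add]
    abel
  | single X f =>
    rw [single_eq, app_smul, app_rw1, dR_smul, dR_rw1, dR_smul, dR_rw1, cat_smul, cat_rw1_left,
      dl_append, map_add, app_smul, app_smul, app_rw1, smul_add]
    abel

/-- `dR` is a derivation. -/
theorem dR_cat (a : ℕ) (y x : RW K) :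
    dR K a (cat y x) = cat (dR K a y) x + cat y (dR K a x) := by
  induction x using Finsupp.induction_linear with
  | zero => simp
  | add p q hp hq =>
    simp only [map_add, hp, hq]
    abel
  | single L f =>
    rw [cat_single, dR_smul, dR_app, single_eq, dR_smul, dR_rw1, map_add, map_smul, map_smul,
      map_smul, cat_rw1, cat_rw1, smul_add]
    abel

theorem clw_rw1 (L : List Bool) : clw K (rw1 K L) = cy K L := by
  unfold clw rw1
  rw [Finsupp.linearCombination_single, one_smul]

end

end Pool.Agent.MJF
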