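import Pool.Agent.MJF.Defs

/-!
Statements for the word part of the rank five theorem.
-/

namespace Pool.Agent.MJF

open MvPolynomial Pool.Agent.MJR

noncomputable section

/-! ### (L) the labelled process -/

/-- (L1) positivity: all weights are in `ℕ[b]`. -/
def St_Nb (K : Type) [Field K] : Prop :=
  ∀ (al : K) (p : List ℕ) (φ : Stt → K), (∀ S, φ S ∈ Nb al) → Ep al p φ ∈ Nb al

/-- (L2) The words in two colours are the labelled words with coloured labels.
Proof: for a labelled state `S = (σ, W, Cs)` (good: all letters of `W`, `Cs` are `< σ.length`)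
put `Ψ S := ∑ over γ : List Bool of length σ.length of (∏ over i of (if γ_i then u2 * s ^ σ_i
else u)) • (∏ over z in Cs of cy (z.map γ)) • rw1 (W.map γ)`, `γ x := γ.getD x false`.
Then `stp Ψ S = Aw (Ψ S)` for good `S` (stay: `γ ++ [l]`; touch of a letter `l`: the same `γ`,
weight `s` more if `γ_l`), `stp` and `cls` respect good states, `cls` is `iw (clw ..)`, and
`fgt (Ψ (σ, [], Cs)) = ∏ (u + u2 s^k) ∏ X z.length`. -/
def St_lab (K : Type) [Field K] : Prop :=
  ∀ (al u u2 s : K) (p : List ℕ), fgt K (Kw al u u2 s p) =
    Ep al p fun S => (C ((S.1.map fun k => u + u2 * s ^ k).prod) : Lam K) *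
      (S.2.2.map fun z => (X z.length : Lam K)).prod

/-- (L3) The expansion.  Proof: on the states which occur, `sizes` is a list of positive numbers
with sum `n` (each step adds one), so exactly one `v` matches; `Ep` is linear in `φ` and depends
only on the values of `φ` on the states which occur. -/
def St_coef (K : Type) [Field K] : Prop :=
  ∀ (al : K) (g : ℕ → K) (n : ℕ) (p : List ℕ) (m : n.Partition), p.sum = n → (∀ k ∈ p, k ≠ 0) →
    coeff (expo m) (Ep al p fun S => (C ((S.1.map g).prod) : Lam K) *
      (S.2.2.map fun z => (X z.length : Lam K)).prod) =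
    ∑ v : n.Partition, Kn al p m v * (v.parts.map g).prod

/-! ### (I) words -/

/-- `opn`, `dlc`, `dpc` are functions of the cyclic word. -/
structure St_inv (K : Type) [Field K] : Prop where
  opn : ∀ (al : K) (t : Bool) (L L' : List Bool), L ~r L' → opn al t L = opn al t L'
  dlc : ∀ (a : ℕ) (L L' : List Bool), L ~r L' → dlc K a L = dlc K a L'
  dpc : ∀ (a : ℕ) (L L' : List Bool), L ~r L' → dpc K a L = dpc K a L'

/-- The insertions commute. -/
structure St_comm (K : Type) [Field K] : Prop where
  c : ∀ (tau : K) (a c : ℕ) (f : CW K), IC tau a (IC tau c f) = IC tau c (IC tau a f)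
  r : ∀ (tau : K) (a c : ℕ) (x : RW K), IR tau a (IR tau c x) = IR tau c (IR tau a x)
  cl : ∀ (tau : K) (a : ℕ) (x : RW K), clw K (IR tau a x) = IC tau a (clw K x)
  i : ∀ (tau : K) (a : ℕ) (f : CW K), IR tau a (iw K f) = iw K (IC tau a f)
  p : ∀ (tau : K) (a k : ℕ) (f : CW K),
    IC tau a (cy K (List.replicate k false) * f) = cy K (List.replicate k false) * IC tau a f
  pr : ∀ (tau : K) (a k : ℕ) (x : RW K),
    IR tau a (cy K (List.replicate k false) • x) = cy K (List.replicate k false) • IR tau a x

/-- The double commutator `[[T_1, I_a], I_c] = 0`.  Proof: `[T_1, I_a] = app _ (J (cy (arc a))) +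
tau G_a`, where `G_a` is `opr` for the list functions
`g_a L = ∑ over L = X 2 Y, a = i + 1 + j of [X 2 1^(i+1)] 1^j 2 Y + b 1^i 2 X^r 1^(j+1) 2 Y`,
`h_a L = ∑ of 1^j 2 Y X 2 1^(i+1) + b 1^i 2 (Y X)^r 2 1^(j+1)`,
`∑ over L = X 2 Y of g_a (X 2 1^c 2 Y) = dR c (g_a L)`, the same for `h_a`, and
`dR c (opn (arc a)) = h_a (arc c)`. -/
def St_TII (K : Type) [Field K] : Prop :=
  ∀ (al tau : K) (a c : ℕ) (x : RW K),
    T al false (IR tau a (IR tau c x)) - IR tau a (T al false (IR tau c x)) =
      IR tau c (T al false (IR tau a x)) - IR tau c (IR tau a (T al false x))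

/-- `[T_1, cy(1^k)] = al k 1^k` -/
def St_Tp (K : Type) [Field K] : Prop :=
  ∀ (al : K) (k : ℕ) (x : RW K),
    T al false (cy K (List.replicate k false) • x) =
      cy K (List.replicate k false) • T al false x +
        (al * k) • pre (List.replicate k false) x

/-- `A_2` commutes with the insertions.  Proof: `[T_2, dR c] = pre (1^c 2) T_2` (list functions:
`tch true (X 2 1^c 2 Y)` ..; openings: `[J_2, dC c] f = pre (1^c 2) (J_2 f)`),
`J_2 (cy (arc c)) = al 1^c 2`, so `[T_2, I_c] = tau pre (1^c 2) (u2 + T_2)`, and
`I_c (pre [2] x) = pre [2] (I_c x) + tau pre (2 1^c 2) x`. -/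
def St_AI (K : Type) [Field K] : Prop :=
  ∀ (al tau u2 : K) (c : ℕ) (x : RW K), tau = u2 + (al - 1) → tau * u2 = al →
    pre [true] (u2 • IR tau c x + T al true (IR tau c x)) =
      IR tau c (pre [true] (u2 • x + T al true x))

/-- `A_2` commutes with the cycles `1^k`. -/
def St_Ap (K : Type) [Field K] : Prop :=
  ∀ (al : K) (k : ℕ) (x : RW K),
    T al true (cy K (List.replicate k false) • x) =
      cy K (List.replicate k false) • T al true x

/-- The values on the words with at most one mark. -/
structure St_base (K : Type) [Field K] : Prop where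
  t0 : ∀ (al : K) (a : ℕ), T al false (rw1 K (List.replicate a false)) =
    ((al - 1) * a) • rw1 K (List.replicate a false) +
    ∑ i ∈ Finset.range a, cy K (List.replicate (i + 1) false) •
      rw1 K (List.replicate (a - 1 - i) false)
  t1 : ∀ (al : K) (a d : ℕ),
    T al false (rw1 K (List.replicate a false ++ true :: List.replicate d false)) =
    ((al - 1) * a) • rw1 K (List.replicate a false ++ true :: List.replicate d false) +
    ∑ i ∈ Finset.range a, cy K (List.replicate (i + 1) false) •
      rw1 K (List.replicate (a - 1 - i) false ++ true :: List.replicate d false) +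
    ∑ i ∈ Finset.range d, (cy K (arc (a + i + 1)) • rw1 K (List.replicate (d - 1 - i) false) +
      (al - 1) • rw1 K (List.replicate i false ++ true ::
        List.replicate (a + 1 + (d - 1 - i)) false))
  ti0 : ∀ (al tau : K) (a c : ℕ),
    T al false (IR tau c (rw1 K (List.replicate a false))) =
    IR tau c (T al false (rw1 K (List.replicate a false))) +
    al • ∑ i ∈ Finset.range c,
      rw1 K (List.replicate (c - 1 - i) false ++ true :: List.replicate (a + i + 1) false)
  ti1 : ∀ (al tau : K) (a c d : ℕ), tau ^ 2 = (al - 1) * tau + al →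
    T al false (IR tau c (rw1 K (List.replicate a false ++ true :: List.replicate d false))) =
    IR tau c (T al false (rw1 K (List.replicate a false ++ true :: List.replicate d false))) +
    tau • ∑ i ∈ Finset.range c, IR tau (a + i + 1)
      (rw1 K (List.replicate (c - 1 - i) false ++ true :: List.replicate d false))
  a0 : ∀ (al u2 : K) (a : ℕ),
    pre [true] (u2 • rw1 K (List.replicate a false) +
      T al true (rw1 K (List.replicate a false))) =
    u2 • rw1 K (true :: List.replicate a false)
  a1 : ∀ (al tau u2 : K) (a d : ℕ), tau = u2 + (al - 1) →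
    pre [true] (u2 • rw1 K (List.replicate a false ++ true :: List.replicate d false) +
      T al true (rw1 K (List.replicate a false ++ true :: List.replicate d false))) =
    IR tau a (rw1 K (true :: List.replicate d false))

/-- Forgetting the colours. -/
structure St_fgt (K : Type) [Field K] : Prop where
  d : ∀ (a : ℕ) (f : CW K), fgt K (dC K a f) = fgt K (dP K (a + 1) f)
  pI : ∀ (tau : K) (n c : ℕ) (f : CW K),
    dP K n (IC tau c f) = IC tau c (dP K n f) + IC tau (n + c) f
  pp : ∀ (n k : ℕ) (f : CW K), dP K n (cy K (List.replicate k false) * f) =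
    cy K (List.replicate k false) * dP K n f

end

end Pool.Agent.MJF
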