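import Pool.Agent.MJF.Comm

/-!
The double commutator of the touches of the zeros with the insertions of arcs.
-/

namespace Pool.Agent.MJF

open MvPolynomial Pool.Agent.MJR

noncomputable section

variable {K : Type} [Field K]

/-- zeros -/
abbrev zs (n : ℕ) : List Bool := List.replicate n false

/-- `b` in the closed words -/
abbrev bC (al : K) : CW K := C (al - 1)

/-- the touches of the zeros of the arc inserted at a mark of a root word -/
def gg (al : K) (a : ℕ) (L : List Bool) : RW K :=
  spl (fun X x Y => if x = true then ∑ i ∈ Finset.range a,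
    (cy K (X ++ arc (i + 1)) • rw1 K (zs (a - 1 - i) ++ true :: Y) +
      bC al • rw1 K (zs i ++ true :: (X.reverse ++ (zs (a - 1 - i + 1) ++ true :: Y))))
    else 0) L

/-- the openings at the zeros of the arc inserted at a mark of a cycle -/
def hh (al : K) (a : ℕ) (L : List Bool) : RW K :=
  spl (fun X x Y => if x = true then ∑ i ∈ Finset.range a,
    (rw1 K (zs (a - 1 - i) ++ true :: (Y ++ X ++ arc (i + 1))) +
      bC al • rw1 K (zs i ++ true :: ((Y ++ X).reverse ++ true :: zs (a - 1 - i + 1))))
    else 0) L

/-- a linear map applied to a split sum with a condition -/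
theorem spl_ite_hom {α V W : Type} [AddCommMonoid V] [AddCommMonoid W] [DecidableEq α]
    (f : V →+ W) (t : α) (φ : List α → List α → V) (L : List α) :
    f (spl (fun X x Y => if x = t then φ X Y else 0) L) =
      spl (fun X x Y => if x = t then f (φ X Y) else 0) L := by
  rw [spl_hom]
  apply spl_congr
  intro X x Y
  split_ifs
  · rfl
  · exact map_zero f

theorem spl_ite {α V : Type} [AddCommMonoid V] (p : Prop) [Decidable p]
    (φ : List α → α → List α → V) (L : List α) :
    spl (fun X x Y => if p then φ X x Y else 0) L = if p then spl φ L else 0 := by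
  split_ifs
  · rfl
  · exact spl_zero L

/-- Two letters with prescribed values: left then right. -/
theorem spl2 {α V : Type} [AddCommMonoid V] [DecidableEq α] (s t : α)
    (φ : List α → List α → List α → V) (L : List α) :
    spl (fun X x Y => if x = s then spl (fun X1 x1 Y1 => if x1 = t then φ X1 Y1 Y else 0) X
      else 0) L =
    spl (fun X x Y => if x = t then spl (fun X1 x1 Y1 => if x1 = s then φ X X1 Y1 else 0) Y
      else 0) L := by
  have h := spl_spl (fun (X1 : List α) (x1 : α) (Y1 : List α) (x : α) (Y : List α) =>
    if x = s then if x1 = t then φ X1 Y1 Y else 0 else 0) L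
  have e1 : ∀ X x Y, (if x = s then spl (fun X1 x1 Y1 => if x1 = t then φ X1 Y1 Y else 0) X
      else 0) = spl (fun X1 x1 Y1 => if x = s then if x1 = t then φ X1 Y1 Y else 0 else 0) X := by
    intro X x Y
    rw [spl_ite]
  have e2 : ∀ (X : List α) (x : α) (Y : List α),
      (if x = t then spl (fun X1 x1 Y1 => if x1 = s then φ X X1 Y1 else 0) Y
      else 0) = spl (fun X1 x1 Y1 => if x1 = s then if x = t then φ X X1 Y1 else 0 else 0) Y := by
    intro X x Y
    have e3 : ∀ (X1 : List α) (x1 : α) (Y1 : List α),
        (if x1 = s then if x = t then φ X X1 Y1 else 0 else 0) =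
        if x = t then if x1 = s then φ X X1 Y1 else 0 else 0 := by
      intro X1 x1 Y1
      split_ifs <;> rfl
    rw [spl_congr e3, spl_ite]
  rw [spl_congr e1, spl_congr e2]
  exact h

/-! ### Rules for `T` from the right -/

/-- reversal -/
def rvw (K : Type) [Field K] : RW K →ₗ[CW K] RW K := Finsupp.lmapDomain _ _ List.reverse

theorem rvw_rw1 (L : List Bool) : rvw K (rw1 K L) = rw1 K L.reverse := by
  unfold rvw rw1
  rw [Finsupp.lmapDomain_apply, Finsupp.mapDomain_single]

theorem tch_append (al : K) (t : Bool) (L S : List Bool) :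
    tch al t (L ++ S) = app S (tch al t L) +
      spl (fun X x Y => if x = t then
        cy K (L ++ X ++ [t]) • rw1 K Y + bC al • rw1 K ((L ++ X).reverse ++ t :: Y) else 0) S := by
  unfold tch
  rw [spl_append]
  congr 1
  have h := spl_hom (app S : RW K →ₗ[CW K] RW K).toAddMonoidHom (fun X x Y =>
      if x = t then cy K (X ++ [t]) • rw1 K Y + (C (al - 1) : CW K) •
        rw1 K (X.reverse ++ t :: Y) else 0) L
  refine Eq.trans ?_ h.symm
  apply spl_congr
  intro X x Y
  change _ = app S _
  split_ifs
  · rw [map_add, app_smul, app_smul, app_rw1, app_rw1]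
    simp
  · rw [map_zero]

theorem tch_snoc_self (al : K) (t : Bool) (L : List Bool) :
    tch al t (L ++ [t]) = app [t] (tch al t L) + cy K (L ++ [t]) • rw1 K [] +
      bC al • rw1 K (L.reverse ++ [t]) := by
  rw [tch_append, spl_single, if_pos rfl, List.append_nil]
  abel

theorem tch_snoc_ne (al : K) {t l : Bool} (h : l ≠ t) (L : List Bool) :
    tch al t (L ++ [l]) = app [l] (tch al t L) := by
  rw [tch_append, spl_single, if_neg h, add_zero]

theorem app_app (L L' : List Bool) (x : RW K) : app L (app L' x) = app (L' ++ L) x := by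
  induction x using Finsupp.induction_linear with
  | zero => simp
  | add p q hp hq => simp only [map_add, hp, hq]
  | single X f => rw [single_eq, app_smul, app_smul, app_smul, app_rw1, app_rw1, app_rw1,
      List.append_assoc]

theorem cat_app (L : List Bool) (y x : RW K) : cat y (app L x) = app L (cat y x) := by
  induction x using Finsupp.induction_linear with
  | zero => simp
  | add p q hp hq => simp only [map_add, hp, hq]
  | single X f => rw [single_eq, app_smul, app_rw1, map_smul, cat_rw1, map_smul, cat_rw1,
      app_smul, app_app]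

theorem T_app_self (al : K) (t : Bool) (x : RW K) :
    T al t (app [t] x) = app [t] (T al t x) + clw K (app [t] x) • rw1 K [] +
      bC al • app [t] (rvw K x) := by
  induction x using Finsupp.induction_linear with
  | zero => simp
  | add p q hp hq =>
    simp only [map_add, hp, hq, add_smul, smul_add]
    abel
  | single L f =>
    rw [single_eq, app_smul, app_rw1, T_smul, T_rw1, tch_snoc_self, T_smul, T_rw1, map_add,
      app_smul, cat_rw1, cat_rw1, app_app, clw_smul, clw_rw1, map_smul, rvw_rw1, app_smul,
      app_rw1]
    simp only [smul_add, smul_smul]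
    rw [mul_comm f (bC al)]
    abel

theorem T_app_ne (al : K) {t l : Bool} (h : l ≠ t) (x : RW K) :
    T al t (app [l] x) = app [l] (T al t x) := by
  induction x using Finsupp.induction_linear with
  | zero => simp
  | add p q hp hq => simp only [map_add, hp, hq]
  | single L f =>
    rw [single_eq, app_smul, app_rw1, T_smul, T_rw1, tch_snoc_ne al h, T_smul, T_rw1, map_add,
      app_smul, cat_rw1, cat_rw1, app_app]

theorem rvw_app (L : List Bool) (x : RW K) : rvw K (app L x) = pre L.reverse (rvw K x) := by
  induction x using Finsupp.induction_linear with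
  | zero => simp
  | add p q hp hq => simp only [map_add, hp, hq]
  | single X f =>
    rw [single_eq, app_smul, app_rw1, map_smul, rvw_rw1, map_smul, rvw_rw1, map_smul, pre_rw1,
      List.reverse_append]

theorem rvw_pre (L : List Bool) (x : RW K) : rvw K (pre L x) = app L.reverse (rvw K x) := by
  induction x using Finsupp.induction_linear with
  | zero => simp
  | add p q hp hq => simp only [map_add, hp, hq]
  | single X f =>
    rw [single_eq, map_smul, pre_rw1, map_smul, rvw_rw1, map_smul, rvw_rw1, app_smul, app_rw1,
      List.reverse_append]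

theorem dl_reverse (a : ℕ) (L : List Bool) : dl K a L.reverse = rvw K (dl K a L) := by
  induction L with
  | nil => simp [dl_nil]
  | cons l L ih =>
    have h : ∀ l : Bool, dl K a [l] = rvw K (dl K a [l]) := by
      intro l
      cases l
      · rw [dl_false, map_zero]
      · rw [dl_true, rvw_rw1]
        simp
    have h1 : dl K a (l :: L) = app L (dl K a [l]) + pre [l] (dl K a L) := by
      rw [← dl_append]
      rfl
    rw [List.reverse_cons, dl_append, ih, h1, map_add, rvw_app, rvw_pre, ← h l, add_comm]
    rfl

theorem dl_snoc_false (a : ℕ) (L : List Bool) : dl K a (L ++ [false]) = app [false] (dl K a L) := by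
  rw [dl_append, dl_false, map_zero, add_zero]

theorem dl_snoc_true (a : ℕ) (L : List Bool) : dl K a (L ++ [true]) =
    app [true] (dl K a L) + rw1 K (L ++ true :: (zs a ++ [true])) := by
  rw [dl_append, dl_true, pre_rw1]

theorem gg_snoc_false (al : K) (a : ℕ) (L : List Bool) :
    gg al a (L ++ [false]) = app [false] (gg al a L) := by
  unfold gg
  rw [spl_append, spl_single, if_neg (by simp), add_zero]
  have h := spl_hom (app [false] : RW K →ₗ[CW K] RW K).toAddMonoidHom (fun X x Y =>
    if x = true then ∑ i ∈ Finset.range a,
    (cy K (X ++ arc (i + 1)) • rw1 K (zs (a - 1 - i) ++ true :: Y) +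
      bC al • rw1 K (zs i ++ true :: (X.reverse ++ (zs (a - 1 - i + 1) ++ true :: Y))))
    else 0) L
  refine Eq.trans ?_ h.symm
  apply spl_congr
  intro X x Y
  change _ = app [false] _
  split_ifs
  · rw [map_sum]
    refine Finset.sum_congr rfl fun i _ => ?_
    rw [map_add, app_smul, app_smul, app_rw1, app_rw1]
    simp
  · rw [map_zero]

theorem gg_snoc_true (al : K) (a : ℕ) (L : List Bool) :
    gg al a (L ++ [true]) = app [true] (gg al a L) + ∑ i ∈ Finset.range a,
    (cy K (L ++ arc (i + 1)) • rw1 K (zs (a - 1 - i) ++ [true]) +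
      bC al • rw1 K (zs i ++ true :: (L.reverse ++ (zs (a - 1 - i + 1) ++ [true])))) := by
  unfold gg
  rw [spl_append, spl_single, if_pos rfl]
  congr 1
  · have h := spl_hom (app [true] : RW K →ₗ[CW K] RW K).toAddMonoidHom (fun X x Y =>
      if x = true then ∑ i ∈ Finset.range a,
      (cy K (X ++ arc (i + 1)) • rw1 K (zs (a - 1 - i) ++ true :: Y) +
        bC al • rw1 K (zs i ++ true :: (X.reverse ++ (zs (a - 1 - i + 1) ++ true :: Y))))
      else 0) L
    refine Eq.trans ?_ h.symm
    apply spl_congr
    intro X x Y
    change _ = app [true] _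
    split_ifs
    · rw [map_sum]
      refine Finset.sum_congr rfl fun i _ => ?_
      rw [map_add, app_smul, app_smul, app_rw1, app_rw1]
      simp
    · rw [map_zero]
  · simp

theorem zs_snoc (i : ℕ) : zs i ++ [false] = zs (i + 1) := by
  rw [← List.replicate_succ']

theorem zs_cons (i : ℕ) : false :: zs i = zs (i + 1) := rfl

/-- touches in the arc -/
theorem tch_ins (al : K) (a : ℕ) (L : List Bool) :
    tch al false (L ++ true :: (zs a ++ [true])) = app (true :: (zs a ++ [true])) (tch al false L) +
      ∑ i ∈ Finset.range a,
      (cy K (L ++ arc (i + 1)) • rw1 K (zs (a - 1 - i) ++ [true]) +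
      bC al • rw1 K (zs i ++ true :: (L.reverse ++ (zs (a - 1 - i + 1) ++ [true])))) := by
  rw [tch_append, spl_cons, if_neg (by simp), zero_add, spl_append, spl_replicate, spl_single,
    if_neg (by simp), add_zero]
  congr 1
  refine Finset.sum_congr rfl fun i _ => ?_
  rw [if_pos rfl]
  have e1 : L ++ true :: zs i ++ [false] = L ++ arc (i + 1) := by
    unfold arc
    change _ = L ++ true :: zs (i + 1)
    rw [← zs_snoc]
    simp
  have e2 : (L ++ true :: zs i).reverse ++ false :: (zs (a - 1 - i) ++ [true]) =
      zs i ++ true :: (L.reverse ++ (zs (a - 1 - i + 1) ++ [true])) := by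
    rw [← zs_cons]
    simp
  rw [e1, e2]

/-- formula for `[T, dR]` on lists -/
theorem T_dl (al : K) (a : ℕ) (L : List Bool) :
    T al false (dl K a L) = dR K a (tch al false L) + gg al a L := by
  induction L using List.reverseRecOn with
  | nil =>
    rw [dl_nil, map_zero]
    change 0 = dR K a 0 + 0
    rw [map_zero, add_zero]
  | append_singleton L l ih =>
    cases l with
    | false =>
      rw [dl_snoc_false, T_app_self, ih, tch_snoc_self, gg_snoc_false, map_add, map_add, map_add, dR_app,
        dR_smul, dR_smul, dR_rw1, dR_rw1, dl_nil, dl_false, dC_cy, dl_snoc_false, dl_reverse,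
        ← clw_dl, dl_snoc_false]
      have h : dC K a (bC al) = 0 := derivation_C _ _
      rw [h]
      simp only [smul_zero, zero_smul, add_zero, zero_add, map_zero]
      abel
    | true =>
      rw [dl_snoc_true, map_add, T_app_ne al (by simp), ih, tch_snoc_ne al (by simp), gg_snoc_true,
        dR_app, dl_true, cat_rw1, T_rw1, tch_ins, map_add]
      abel

/-! ### Openings of cycles -/

/-- `Y X ↦ Y X 1 + b (Y X)^r 1` -/
def Om (al : K) : RW K →ₗ[CW K] RW K :=
  app [false] + bC al • (app [false] ∘ₗ rvw K)

theorem Om_rw1 (al : K) (Z : List Bool) :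
    Om al (rw1 K Z) = rw1 K (Z ++ [false]) + bC al • rw1 K (Z.reverse ++ [false]) := by
  change app [false] (rw1 K Z) + bC al • app [false] (rvw K (rw1 K Z)) = _
  rw [app_rw1, rvw_rw1, app_rw1]

theorem rvw_dR (a : ℕ) (x : RW K) : rvw K (dR K a x) = dR K a (rvw K x) := by
  induction x using Finsupp.induction_linear with
  | zero => simp
  | add p q hp hq => simp only [map_add, hp, hq]
  | single L f => rw [single_eq, dR_smul, dR_rw1, map_add, map_smul, map_smul, map_smul,
      rvw_rw1, dR_smul, dR_rw1, dl_reverse]

theorem dC_bC (al : K) (a : ℕ) : dC K a (bC al) = 0 := derivation_C _ _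

theorem Om_dR (al : K) (a : ℕ) (x : RW K) : dR K a (Om al x) = Om al (dR K a x) := by
  change dR K a (app [false] x + bC al • app [false] (rvw K x)) =
    app [false] (dR K a x) + bC al • app [false] (rvw K (dR K a x))
  rw [map_add, dR_smul, dR_app, dR_app, dl_false, map_zero, map_zero, dC_bC, zero_smul,
    add_zero, add_zero, add_zero, rvw_dR]

theorem opn_Om (al : K) (L : List Bool) : opn al false L =
    spl (fun X x Y => if x = false then Om al (rw1 K (Y ++ X)) else 0) L := by
  unfold opn
  apply spl_congr
  intro X x Y
  rw [Om_rw1]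

theorem opn_ins (al : K) (a : ℕ) (X Y : List Bool) :
    opn al false (X ++ true :: (zs a ++ true :: Y)) =
    spl (fun X1 x1 Y1 => if x1 = false then
      Om al (rw1 K (Y1 ++ true :: (zs a ++ true :: Y) ++ X1)) else 0) X +
    (∑ i ∈ Finset.range a, Om al (rw1 K (zs (a - 1 - i) ++ true :: (Y ++ X ++ true :: zs i))) +
    spl (fun X1 x1 Y1 => if x1 = false then
      Om al (rw1 K (Y1 ++ (X ++ true :: (zs a ++ true :: X1)))) else 0) Y) := by
  rw [opn_Om, spl_append]
  congr 1
  rw [spl_cons, if_neg (by simp), zero_add, spl_append]
  congr 1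
  · rw [spl_replicate]
    refine Finset.sum_congr rfl fun i _ => ?_
    rw [if_pos rfl]
    simp
  · rw [spl_cons, if_neg (by simp), zero_add]

/-- the summand of `hh` -/
def et (al : K) (a : ℕ) (Z : List Bool) : RW K :=
  ∑ i ∈ Finset.range a, Om al (rw1 K (zs (a - 1 - i) ++ true :: (Z ++ true :: zs i)))

theorem hh_eq (al : K) (a : ℕ) (L : List Bool) : hh al a L =
    spl (fun X x Y => if x = true then et al a (Y ++ X) else 0) L := by
  unfold hh et
  apply spl_congr
  intro X x Y
  split_ifs
  · refine Finset.sum_congr rfl fun i _ => ?_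
    rw [Om_rw1]
    have e1 : zs (a - 1 - i) ++ true :: (Y ++ X ++ arc (i + 1)) =
        zs (a - 1 - i) ++ true :: (Y ++ X ++ true :: zs i) ++ [false] := by
      unfold arc
      change zs (a - 1 - i) ++ true :: (Y ++ X ++ true :: zs (i + 1)) = _
      rw [← zs_snoc]
      simp
    have e2 : zs i ++ true :: ((Y ++ X).reverse ++ true :: zs (a - 1 - i + 1)) =
        (zs (a - 1 - i) ++ true :: (Y ++ X ++ true :: zs i)).reverse ++ [false] := by
      rw [← zs_snoc]
      simp
    rw [e1, e2]
  · rfl

/-- formula for `[J, dR]` on cycles -/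
theorem J_dlc (al : K) (a : ℕ) (L : List Bool) :
    J al false (dlc K a L) = dR K a (opn al false L) + hh al a L := by
  have h1 : J al false (dlc K a L) = spl (fun X x Y => if x = true then
      opn al false (X ++ true :: (zs a ++ true :: Y)) else 0) L := by
    unfold dlc
    have h := spl_ite_hom (J al false : CW K →ₗ[K] RW K).toAddMonoidHom true
      (fun X Y => cy K (X ++ true :: (List.replicate a false ++ true :: Y))) L
    refine Eq.trans h ?_
    apply spl_congr
    intro X x Y
    change (if x = true then J al false _ else 0) = _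
    rw [J_cy]
  have h2 : dR K a (opn al false L) = spl (fun X x Y => if x = false then
      Om al (dl K a (Y ++ X)) else 0) L := by
    rw [opn_Om]
    have h := spl_ite_hom (dR K a : RW K →ₗ[K] RW K).toAddMonoidHom false
      (fun X Y => Om al (rw1 K (Y ++ X))) L
    refine Eq.trans h ?_
    apply spl_congr
    intro X x Y
    change (if x = false then dR K a _ else 0) = _
    rw [Om_dR, dR_rw1]
  have h3 : ∀ X Y : List Bool, Om al (dl K a (Y ++ X)) =
      spl (fun X1 x1 Y1 => if x1 = true then
        Om al (rw1 K (X1 ++ true :: (zs a ++ true :: Y1) ++ X)) else 0) Y +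
      spl (fun X1 x1 Y1 => if x1 = true then
        Om al (rw1 K (Y ++ (X1 ++ true :: (zs a ++ true :: Y1)))) else 0) X := by
    intro X Y
    rw [dl_append, map_add]
    congr 1
    · have h := spl_ite_hom (Om al ∘ₗ app X : RW K →ₗ[CW K] RW K).toAddMonoidHom true
        (fun X1 Y1 => rw1 K (X1 ++ true :: (List.replicate a false ++ true :: Y1))) Y
      refine Eq.trans h ?_
      apply spl_congr
      intro X1 x Y1
      change (if x = true then Om al (app X _) else 0) = _
      rw [app_rw1]
    · have h := spl_ite_hom (Om al ∘ₗ pre Y : RW K →ₗ[CW K] RW K).toAddMonoidHom true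
        (fun X1 Y1 => rw1 K (X1 ++ true :: (List.replicate a false ++ true :: Y1))) X
      refine Eq.trans h ?_
      apply spl_congr
      intro X1 x Y1
      change (if x = true then Om al (pre Y _) else 0) = _
      rw [pre_rw1]
  have e1 := spl2 true false (fun P Q S : List Bool =>
    Om al (rw1 K (Q ++ true :: (zs a ++ true :: S) ++ P))) L
  have e2 := spl2 false true (fun P Q S : List Bool =>
    Om al (rw1 K (S ++ (P ++ true :: (zs a ++ true :: Q))))) L
  rw [h1, h2, hh_eq]
  have h4 : spl (fun X x Y => if x = true then
      opn al false (X ++ true :: (zs a ++ true :: Y)) else 0) L =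
      spl (fun X x Y => if x = true then spl (fun X1 x1 Y1 => if x1 = false then
      Om al (rw1 K (Y1 ++ true :: (zs a ++ true :: Y) ++ X1)) else 0) X else 0) L +
      (spl (fun X x Y => if x = true then et al a (Y ++ X) else 0) L +
      spl (fun X x Y => if x = true then spl (fun X1 x1 Y1 => if x1 = false then
      Om al (rw1 K (Y1 ++ (X ++ true :: (zs a ++ true :: X1)))) else 0) Y else 0) L) := by
    rw [← spl_add, ← spl_add]
    apply spl_congr
    intro X x Y
    split_ifs
    · rw [opn_ins]
      rfl
    · simp
  have h5 : spl (fun X x Y => if x = false then Om al (dl K a (Y ++ X)) else 0) L =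
      spl (fun X x Y => if x = false then spl (fun X1 x1 Y1 => if x1 = true then
        Om al (rw1 K (X1 ++ true :: (zs a ++ true :: Y1) ++ X)) else 0) Y else 0) L +
      spl (fun X x Y => if x = false then spl (fun X1 x1 Y1 => if x1 = true then
        Om al (rw1 K (Y ++ (X1 ++ true :: (zs a ++ true :: Y1)))) else 0) X else 0) L := by
    rw [← spl_add]
    apply spl_congr
    intro X x Y
    split_ifs
    · exact h3 X Y
    · simp
  rw [h4, h5, e1, e2]
  abel

end

end Pool.Agent.MJF
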