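import Pool.Agent.MJF.TII

/-!
The double commutator of the touches of the zeros with the insertions of arcs, part two.
-/

namespace Pool.Agent.MJF

open MvPolynomial Pool.Agent.MJR

noncomputable section

variable {K : Type} [Field K]

/-- `hh` as a derivation -/
def H1 (al : K) (a : ℕ) : Derivation K (CW K) (RW K) :=
  mkDerivation K fun z => hh al a (Quotient.out z)

def hhx (al : K) (a : ℕ) (x : Bool) (Z : List Bool) : RW K := if x = true then et al a Z else 0

theorem hh_rot (al : K) (a : ℕ) {L L' : List Bool} (h : L ~r L') : hh al a L = hh al a L' := by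
  rw [hh_eq, hh_eq]
  exact spl_rot (hhx al a) h

theorem H1_cy (al : K) (a : ℕ) (L : List Bool) : H1 al a (cy K L) = hh al a L := by
  unfold H1 cy
  rw [mkDerivation_X]
  exact hh_rot al a (out_rot L)

theorem J_dC (al : K) (a : ℕ) (f : CW K) :
    J al false (dC K a f) = dR K a (J al false f) + H1 al a f := by
  induction f using cw_induction with
  | hC x =>
    have h1 : dC K a (C x) = 0 := derivation_C _ _
    have h2 : J al false (C x) = 0 := derivation_C _ _
    have h3 : H1 al a (C x) = 0 := derivation_C _ _
    rw [h1, h2, h3, map_zero, map_zero, add_zero]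
  | hadd f g hf hg =>
    simp only [map_add, hf, hg]
    abel
  | hX f L hf =>
    simp only [Derivation.leibniz, dC_cy, smul_eq_mul, map_add, hf, J_cy, J_dlc, H1_cy, dR_smul,
      smul_add]
    abel

/-- `[T, dR]` -/
def G1 (al : K) (a : ℕ) : RW K →ₗ[K] RW K := opr (H1 al a) (gg al a)

theorem G1_smul (al : K) (a : ℕ) (f : CW K) (x : RW K) :
    G1 al a (f • x) = f • G1 al a x + cat (H1 al a f) x := opr_smul _ _ _ _

theorem G1_rw1 (al : K) (a : ℕ) (L : List Bool) : G1 al a (rw1 K L) = gg al a L := opr_rw1 _ _ _

theorem T_dR (al : K) (a : ℕ) (x : RW K) :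
    T al false (dR K a x) = dR K a (T al false x) + G1 al a x := by
  induction x using Finsupp.induction_linear with
  | zero => simp
  | add p q hp hq =>
    simp only [map_add, hp, hq]
    abel
  | single L f =>
    rw [single_eq]
    simp only [dR_smul, T_smul, G1_smul, map_add, dR_rw1, T_rw1, G1_rw1, T_dl, dR_cat, J_dC,
      cat_add, smul_add]
    abel

/-! ### Rules from the right -/

theorem G1_app_false (al : K) (a : ℕ) (x : RW K) :
    G1 al a (app [false] x) = app [false] (G1 al a x) := by
  induction x using Finsupp.induction_linear with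
  | zero => simp
  | add p q hp hq => simp only [map_add, hp, hq]
  | single L f =>
    rw [single_eq, app_smul, app_rw1, G1_smul, G1_rw1, gg_snoc_false, G1_smul, G1_rw1, map_add,
      app_smul, cat_rw1, cat_rw1, app_app]

/-- the touches in an arc inserted at a mark behind `x` -/
def Gam (al : K) (a : ℕ) (x : RW K) : RW K :=
  ∑ i ∈ Finset.range a, (clw K (app (arc (i + 1)) x) • rw1 K (zs (a - 1 - i) ++ [true]) +
    bC al • pre (zs i ++ [true]) (app (zs (a - 1 - i + 1) ++ [true]) (rvw K x)))

theorem Gam_add (al : K) (a : ℕ) (x y : RW K) : Gam al a (x + y) = Gam al a x + Gam al a y := by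
  unfold Gam
  rw [← Finset.sum_add_distrib]
  refine Finset.sum_congr rfl fun i _ => ?_
  simp only [map_add, add_smul, smul_add]
  abel

theorem Gam_smul (al : K) (a : ℕ) (f : CW K) (x : RW K) :
    Gam al a (f • x) = f • Gam al a x := by
  unfold Gam
  rw [Finset.smul_sum]
  refine Finset.sum_congr rfl fun i _ => ?_
  simp only [map_smul, smul_add, smul_eq_mul, smul_smul]
  rw [mul_comm f (bC al)]

theorem Gam_zero (al : K) (a : ℕ) : Gam al a (0 : RW K) = 0 := by
  have := Gam_smul al a 0 (0 : RW K)
  rwa [zero_smul, zero_smul] at this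

theorem Gam_rw1 (al : K) (a : ℕ) (L : List Bool) : Gam al a (rw1 K L) =
    ∑ i ∈ Finset.range a, (cy K (L ++ arc (i + 1)) • rw1 K (zs (a - 1 - i) ++ [true]) +
      bC al • rw1 K (zs i ++ true :: (L.reverse ++ (zs (a - 1 - i + 1) ++ [true])))) := by
  unfold Gam
  refine Finset.sum_congr rfl fun i _ => ?_
  rw [app_rw1, clw_rw1, rvw_rw1, app_rw1, pre_rw1]
  simp

theorem gg_snoc_true' (al : K) (a : ℕ) (L : List Bool) :
    gg al a (L ++ [true]) = app [true] (gg al a L) + Gam al a (rw1 K L) := by
  rw [gg_snoc_true, Gam_rw1]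

theorem G1_app_true (al : K) (a : ℕ) (x : RW K) :
    G1 al a (app [true] x) = app [true] (G1 al a x) + Gam al a x := by
  induction x using Finsupp.induction_linear with
  | zero => simp [Gam_zero]
  | add p q hp hq =>
    simp only [map_add, hp, hq, Gam_add]
    abel
  | single L f =>
    rw [single_eq, app_smul, app_rw1, G1_smul, G1_rw1, gg_snoc_true', G1_smul, G1_rw1, map_add,
      app_smul, cat_rw1, cat_rw1, app_app, Gam_smul, smul_add]
    abel

theorem gg_app_zs (al : K) (a c : ℕ) (L : List Bool) :
    gg al a (L ++ zs c) = app (zs c) (gg al a L) := by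
  induction c with
  | zero =>
    have h : ∀ x : RW K, app [] x = x := by
      intro x
      induction x using Finsupp.induction_linear with
      | zero => simp
      | add p q hp hq => simp only [map_add, hp, hq]
      | single L f => rw [app_single, List.append_nil]
    change gg al a (L ++ []) = app [] _
    rw [List.append_nil, h]
  | succ c ih =>
    have e : L ++ zs (c + 1) = (L ++ zs c) ++ [false] := by
      rw [← zs_snoc, List.append_assoc]
    rw [e, gg_snoc_false, ih, app_app, zs_snoc]

/-- the main identity for `Gam` -/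
theorem dR_Gam (al : K) (a c : ℕ) (L : List Bool) :
    dR K c (Gam al a (rw1 K L)) = Gam al a (dl K c L) + app (zs c ++ [true]) (Gam al a (rw1 K L)) +
      Gam al a (rw1 K (L ++ true :: zs c)) := by
  rw [Gam_rw1, Gam_rw1]
  unfold Gam
  rw [map_sum, map_sum, ← Finset.sum_add_distrib, ← Finset.sum_add_distrib]
  refine Finset.sum_congr rfl fun i _ => ?_
  rw [map_add, dR_smul, dR_smul, dC_bC, zero_smul, add_zero, dR_rw1, dR_rw1, dC_cy, map_add,
    app_smul, app_smul, app_rw1, app_rw1]
  have e1 : dlc K c (L ++ arc (i + 1)) = clw K (app (arc (i + 1)) (dl K c L)) +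
      cy K (L ++ true :: zs c ++ arc (i + 1)) := by
    rw [← clw_dl, dl_append, map_add]
    congr 1
    unfold arc
    rw [dl_cons_true, dl_replicate, map_zero, add_zero, pre_rw1, clw_rw1]
    simp
  have e2 : dl K c (zs (a - 1 - i) ++ [true]) =
      rw1 K (zs (a - 1 - i) ++ [true] ++ (zs c ++ [true])) := by
    rw [dl_append, dl_replicate, map_zero, zero_add, dl_true, pre_rw1]
    simp
  have e3 : dl K c (zs i ++ true :: (L.reverse ++ (zs (a - 1 - i + 1) ++ [true]))) =
      rw1 K (zs i ++ true :: ((L ++ true :: zs c).reverse ++ (zs (a - 1 - i + 1) ++ [true]))) +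
      pre (zs i ++ [true]) (app (zs (a - 1 - i + 1) ++ [true]) (rvw K (dl K c L))) +
      rw1 K (zs i ++ true :: (L.reverse ++ (zs (a - 1 - i + 1) ++ [true])) ++
        (zs c ++ [true])) := by
    have h1 : zs i ++ true :: (L.reverse ++ (zs (a - 1 - i + 1) ++ [true])) =
        (zs i ++ [true]) ++ (L.reverse ++ (zs (a - 1 - i + 1) ++ [true])) := by simp
    have h2 : dl K c (zs i ++ [true]) = rw1 K (zs i ++ [true] ++ (zs c ++ [true])) := by
      rw [dl_append, dl_replicate, map_zero, zero_add, dl_true, pre_rw1]
      simp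
    have h3 : dl K c (zs (a - 1 - i + 1) ++ [true]) =
        rw1 K (zs (a - 1 - i + 1) ++ [true] ++ (zs c ++ [true])) := by
      rw [dl_append, dl_replicate, map_zero, zero_add, dl_true, pre_rw1]
      simp
    rw [h1, dl_append c (zs i ++ [true]), dl_append c L.reverse, h2, h3, dl_reverse, map_add,
      app_rw1, pre_rw1, pre_rw1]
    simp [add_assoc]
  rw [e1, e2, e3]
  simp only [add_smul, smul_add]
  abel

theorem G1_dl (al : K) (a c : ℕ) (L : List Bool) :
    G1 al a (dl K c L) = dR K c (gg al a L) := by
  induction L using List.reverseRecOn with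
  | nil =>
    rw [dl_nil, map_zero]
    change 0 = dR K c 0
    rw [map_zero]
  | append_singleton L l ih =>
    cases l with
    | false =>
      rw [dl_snoc_false, G1_app_false, ih, gg_snoc_false, dR_app, dl_false, map_zero, add_zero]
    | true =>
      have e : L ++ true :: (zs c ++ [true]) = (L ++ [true] ++ zs c) ++ [true] := by simp
      have e2 : L ++ [true] ++ zs c = L ++ true :: zs c := by simp
      rw [dl_snoc_true, map_add, G1_app_true, ih, G1_rw1, e, gg_snoc_true', gg_app_zs,
        gg_snoc_true']
      simp only [map_add]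
      rw [dR_app, dl_true, cat_rw1, dR_Gam, app_app, app_app, app_app, e2]
      have e3 : [true] ++ (zs c ++ [true]) = true :: (List.replicate c false ++ [true]) := rfl
      rw [e3]
      abel

end

end Pool.Agent.MJF
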